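import Pool.Agent.Helper308.KissGeo

set_option autoImplicit false

namespace Pool.Agent.Helper308.KR

open Helper484.Kissing (E3 inner_sq_le no_four)
open scoped BigOperators

lemma norm_p (x y : E3) (hx : ‖x‖ = 1) (hy : ‖y‖ = 1) (s : ℝ) (hs : (inner ℝ x y : ℝ) = -s) :
    (inner ℝ (y + s • x) (y + s • x) : ℝ) = 1 - s ^ 2 := by
  simp only [inner_add_left, inner_add_right, inner_smul_left, inner_smul_right,
    RCLike.conj_to_real, one_inner x hx, one_inner y hy, hs]
  rw [real_inner_comm x y, hs]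
  ring

lemma inner_p (x y z : E3) (hx : ‖x‖ = 1) (s t : ℝ) (hs : (inner ℝ x y : ℝ) = -s)
    (ht : (inner ℝ x z : ℝ) = -t) :
    (inner ℝ (y + s • x) (z + t • x) : ℝ) = inner ℝ y z - s * t := by
  simp only [inner_add_left, inner_add_right, inner_smul_left, inner_smul_right,
    RCLike.conj_to_real, one_inner x hx, ht]
  rw [real_inner_comm x y, hs]
  ring

lemma orth_p (x y : E3) (hx : ‖x‖ = 1) (s : ℝ) (hs : (inner ℝ x y : ℝ) = -s) :
    (inner ℝ x (y + s • x) : ℝ) = 0 := by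
  simp only [inner_add_right, inner_smul_right, one_inner x hx, hs]
  ring

lemma Q_lt (s t : ℝ) (hs : 67/100 ≤ s) (ht : 67/100 ≤ t) (hs1 : s ≤ 1) (ht1 : t ≤ 1)
    (h : s ^ 2 + t ^ 2 - 1013/1000 * (s * t) ≤ 2973831/4000000) : s < 985/1000 := by
  by_contra hc
  push Not at hc
  have := Q_mono s t (985/1000) (67/100) (by norm_num) le_rfl hc ht hs1 ht1
  have h2 : (985/1000 : ℝ)^2 + (67/100)^2 - 1013/1000 * ((985/1000) * (67/100))
    > 2973831/4000000 := by norm_num
  linarith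

/-- At most four points can lie in the far cap. -/
lemma no_five (x : E3) (hx : ‖x‖ = 1) (y : Fin 5 → E3) (hy : ∀ i, ‖y i‖ = 1) (s : Fin 5 → ℝ)
    (hs : ∀ i, (inner ℝ x (y i) : ℝ) = -s i) (hs0 : ∀ i, 67/100 ≤ s i) (hs1 : ∀ i, s i ≤ 1)
    (hyy : ∀ i j, i ≠ j → (inner ℝ (y i) (y j) : ℝ) ≤ 1013/2000) : False := by
  have hlt : ∀ i, s i < 985/1000 := by
    intro i
    obtain ⟨j, hj⟩ : ∃ j : Fin 5, i ≠ j := by
      by_cases h : i = 0
      · exact ⟨1, by rw [h]; decide⟩
      · exact ⟨0, h⟩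
    exact Q_lt (s i) (s j) (hs0 i) (hs0 j) (hs1 i) (hs1 j)
      (pair_bound x (y i) (y j) hx (hy i) (hy j) (hyy i j hj) (s i) (s j) (hs i) (hs j)
        (hs0 i) (hs0 j) (hs1 i) (hs1 j))
  obtain ⟨p, hp⟩ : ∃ p : Fin 5 → E3, p = fun i => y i + s i • x := ⟨_, rfl⟩
  have hpp : ∀ i, ‖p i‖ ^ 2 = 1 - s i ^ 2 := by
    intro i
    rw [← real_inner_self_eq_norm_sq, hp]
    exact norm_p x (y i) hx (hy i) (s i) (hs i)
  have hpos : ∀ i, 0 < ‖p i‖ := by
    intro i
    have h1 := hpp i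
    have h2 := hlt i
    have h3 := hs0 i
    by_contra hc
    push Not at hc
    have h4 : ‖p i‖ = 0 := le_antisymm hc (norm_nonneg _)
    rw [h4] at h1
    nlinarith
  refine five_plane x hx (fun i => (‖p i‖)⁻¹ • p i) ?_ ?_ ?_
  · intro i
    rw [norm_smul, norm_inv, norm_norm]
    exact inv_mul_cancel₀ (hpos i).ne'
  · intro i
    rw [inner_smul_right, hp]
    simp only
    rw [orth_p x (y i) hx (s i) (hs i), mul_zero]
  · intro i j hij
    simp only [inner_smul_left, inner_smul_right, RCLike.conj_to_real]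
    have e : (inner ℝ (p i) (p j) : ℝ) = inner ℝ (y i) (y j) - s i * s j := by
      rw [hp]
      exact inner_p x (y i) (y j) hx (s i) (s j) (hs i) (hs j)
    have h0 := hyy i j hij
    have hle : (inner ℝ (p i) (p j) : ℝ) ≤ 3/20 * (‖p i‖ * ‖p j‖) := by
      rw [e]
      have hpr : 0 < ‖p i‖ * ‖p j‖ := mul_pos (hpos i) (hpos j)
      rcases le_total (1013/2000) (s i * s j) with h | h
      · linarith
      · have hi := hs0 i
        have hj := hs0 j
        have ui : s i ≤ 757/1000 := by nlinarith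
        have uj : s j ≤ 757/1000 := by nlinarith
        have ni : 65/100 ≤ ‖p i‖ := by
          have := hpp i
          by_contra hc
          push Not at hc
          nlinarith [hpos i]
        have nj : 65/100 ≤ ‖p j‖ := by
          have := hpp j
          by_contra hc
          push Not at hc
          nlinarith [hpos j]
        have h1 : (67/100 : ℝ) * (67/100) ≤ s i * s j :=
          mul_le_mul hi hj (by norm_num) (by linarith)
        have h2 : (65/100 : ℝ) * (65/100) ≤ ‖p i‖ * ‖p j‖ :=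
          mul_le_mul ni nj (by norm_num) (by linarith)
        linarith
    have h5 : (‖p j‖)⁻¹ * ((‖p i‖)⁻¹ * (3/20 * (‖p i‖ * ‖p j‖))) = 3/20 := by
      have h6 := (hpos i).ne'
      have h7 := (hpos j).ne'
      field_simp
    have h8 : (‖p i‖)⁻¹ * ((‖p j‖)⁻¹ * (inner ℝ (p i) (p j) : ℝ))
        ≤ (‖p i‖)⁻¹ * ((‖p j‖)⁻¹ * (3/20 * (‖p i‖ * ‖p j‖))) := by
      apply mul_le_mul_of_nonneg_left _ (inv_nonneg.mpr (hpos i).le)
      exact mul_le_mul_of_nonneg_left hle (inv_nonneg.mpr (hpos j).le)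
    have h9 : (‖p i‖)⁻¹ * ((‖p j‖)⁻¹ * (3/20 * (‖p i‖ * ‖p j‖)))
        = (‖p j‖)⁻¹ * ((‖p i‖)⁻¹ * (3/20 * (‖p i‖ * ‖p j‖))) := by ring
    linarith

/-- The bound for the part of the sum coming from the far cap. -/
lemma cap_sum (x : E3) (hx : ‖x‖ = 1) (B : Finset E3) (hB1 : ∀ y ∈ B, ‖y‖ = 1)
    (hBx : ∀ y ∈ B, (inner ℝ x y : ℝ) < -(67/100))
    (hBB : ∀ y ∈ B, ∀ z ∈ B, y ≠ z → (inner ℝ y z : ℝ) ≤ 1013/2000) :
    ∑ y ∈ B, f (inner ℝ x y) ≤ 28469/10000 := by
  classical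
  have hnorm : ∀ y ∈ B, ∃ s : ℝ, (inner ℝ x y : ℝ) = -s ∧ 67/100 ≤ s ∧ s ≤ 1 := by
    intro y hy
    have hy2 := hBx y hy
    refine ⟨-(inner ℝ x y : ℝ), by ring, by linarith, ?_⟩
    have := inner_sq_le x y hx
    rw [one_inner y (hB1 y hy)] at this
    nlinarith
  have htrip : ∀ C : Finset E3, C ⊆ B → C.card = 3 → ∑ y ∈ C, f (inner ℝ x y) ≤ 27429/10000 := by
    intro C hCB hC
    rw [Finset.card_eq_three] at hC
    obtain ⟨y, z, u, hyz, hyu, hzu, hB2⟩ := hC
    have hyB : y ∈ B := hCB (by rw [hB2]; simp)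
    have hzB : z ∈ B := hCB (by rw [hB2]; simp)
    have huB : u ∈ B := hCB (by rw [hB2]; simp)
    obtain ⟨r, hr, hr0, hr1⟩ := hnorm y hyB
    obtain ⟨s, hs, hs0, hs1⟩ := hnorm z hzB
    obtain ⟨t, ht, ht0, ht1⟩ := hnorm u huB
    have hsum : ∑ y ∈ C, f (inner ℝ x y) = f (-r) + f (-s) + f (-t) := by
      rw [hB2, Finset.sum_insert (by simp [hyz, hyu]), Finset.sum_pair hzu, hr, hs, ht]
      ring
    rw [hsum]
    have hb := triple_bound x y z u hx (hB1 y hyB) (hB1 z hzB) (hB1 u huB) (hBB y hyB z hzB hyz)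
      (hBB y hyB u huB hyu) (hBB z hzB u huB hzu) r s t hr hs ht hr0 hs0 ht0
    exact triple_opt r s t hr0 hs0 ht0 hr1 hs1 ht1 hb.2 hb.1
  have hcard : B.card ≤ 4 := by
    by_contra hcon
    push Not at hcon
    obtain ⟨C, hCB, hC⟩ := Finset.exists_subset_card_eq (show 5 ≤ B.card by omega)
    let e := C.equivFinOfCardEq hC
    have hmem : ∀ i, ((e.symm i : C) : E3) ∈ B := fun i => hCB (e.symm i).2
    choose s hs hs0 hs1 using fun i => hnorm _ (hmem i)
    refine no_five x hx (fun i => ((e.symm i : C) : E3)) (fun i => hB1 _ (hmem i)) s hs hs0 hs1 ?_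
    intro i j hij
    apply hBB _ (hmem i) _ (hmem j)
    intro h
    exact hij (e.symm.injective (Subtype.ext h))
  have hcases : B.card = 0 ∨ B.card = 1 ∨ B.card = 2 ∨ B.card = 3 ∨ B.card = 4 := by omega
  rcases hcases with hc | hc | hc | hc | hc
  · rw [Finset.card_eq_zero] at hc
    rw [hc, Finset.sum_empty]
    norm_num
  · rw [Finset.card_eq_one] at hc
    obtain ⟨y, hy⟩ := hc
    obtain ⟨s, hs, hs0, hs1⟩ := hnorm y (by rw [hy]; simp)
    rw [hy, Finset.sum_singleton, hs]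
    exact F_one s hs0 hs1
  · rw [Finset.card_eq_two] at hc
    obtain ⟨y, z, hyz, hB2⟩ := hc
    have hyB : y ∈ B := by rw [hB2]; simp
    have hzB : z ∈ B := by rw [hB2]; simp
    obtain ⟨s, hs, hs0, hs1⟩ := hnorm y hyB
    obtain ⟨t, ht, ht0, ht1⟩ := hnorm z hzB
    rw [hB2, Finset.sum_pair hyz, hs, ht]
    refine pair_opt s t hs0 ht0 hs1 ht1 ?_
    exact pair_bound x y z hx (hB1 y hyB) (hB1 z hzB) (hBB y hyB z hzB hyz) s t hs ht hs0 ht0
      hs1 ht1
  · have := htrip B (Finset.Subset.refl _) hc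
    linarith
  · -- one of the four points is at the rim of the cap
    have hrim : ∃ y ∈ B, ∃ s : ℝ, (inner ℝ x y : ℝ) = -s ∧ 67/100 ≤ s ∧ s ≤ 7117/10000 := by
      by_contra hcon
      push Not at hcon
      let e := B.equivFinOfCardEq hc
      have hmem : ∀ i, ((e.symm i : B) : E3) ∈ B := fun i => (e.symm i).2
      choose s hs hs0 hs1 using fun i => hnorm _ (hmem i)
      have hs2 : ∀ i, 7117/10000 < s i := fun i => hcon _ (hmem i) (s i) (hs i) (hs0 i)
      refine no_four x hx (fun i => ((e.symm i : B) : E3) + s i • x) ?_ ?_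
      · intro i
        exact orth_p x _ hx (s i) (hs i)
      · intro i j hij
        have hne : ((e.symm i : B) : E3) ≠ ((e.symm j : B) : E3) := by
          intro h
          exact hij (e.symm.injective (Subtype.ext h))
        have h1 := hBB _ (hmem i) _ (hmem j) hne
        rw [inner_p x _ _ hx (s i) (s j) (hs i) (hs j)]
        nlinarith [hs2 i, hs2 j, mul_pos (sub_pos.mpr (hs2 i)) (sub_pos.mpr (hs2 j))]
    obtain ⟨y, hyB, s, hs, hs0, hs1⟩ := hrim
    rw [← Finset.add_sum_erase B _ hyB, hs]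
    have h1 := F_small s hs0 hs1
    have h2 := htrip (B.erase y) (Finset.erase_subset _ _) (by
      rw [Finset.card_erase_of_mem hyB, hc])
    linarith

end Pool.Agent.Helper308.KR
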