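import Pool.Agent.Helper308.KissSound
import Pool.Agent.Helper484.Kissing

set_option autoImplicit false

namespace Pool.Agent.Helper308.KR

open Helper484.Kissing (E3 inner_sq_le no_four)
open scoped BigOperators

lemma one_inner (y : E3) (hy : ‖y‖ = 1) : (inner ℝ y y : ℝ) = 1 := by
  rw [real_inner_self_eq_norm_sq, hy]; norm_num

lemma pair_bound (x y z : E3) (hx : ‖x‖ = 1) (hy : ‖y‖ = 1) (hz : ‖z‖ = 1)
    (hyz : (inner ℝ y z : ℝ) ≤ 1013/2000) (s t : ℝ) (hs : (inner ℝ x y : ℝ) = -s)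
    (ht : (inner ℝ x z : ℝ) = -t) (hs0 : 67/100 ≤ s) (ht0 : 67/100 ≤ t) (hs1 : s ≤ 1)
    (ht1 : t ≤ 1) :
    s ^ 2 + t ^ 2 - 1013/1000 * (s * t) ≤ 2973831/4000000 := by
  obtain ⟨a, ha⟩ : ∃ a, a = s - 1013/2000 * t := ⟨_, rfl⟩
  obtain ⟨b, hb⟩ : ∃ b, b = t - 1013/2000 * s := ⟨_, rfl⟩
  have ha0 : 0 ≤ a := by rw [ha]; linarith
  have hb0 : 0 ≤ b := by rw [hb]; linarith
  have h := inner_sq_le x (a • y + b • z) hx
  simp only [inner_add_left, inner_add_right, inner_smul_left, inner_smul_right,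
    RCLike.conj_to_real, hs, ht, one_inner y hy, one_inner z hz] at h
  rw [real_inner_comm y z] at h
  have h2 : a * b * (inner ℝ y z : ℝ) ≤ a * b * (1013/2000) :=
    mul_le_mul_of_nonneg_left hyz (mul_nonneg ha0 hb0)
  obtain ⟨Q, hQ⟩ : ∃ Q, Q = s ^ 2 + t ^ 2 - 1013/1000 * (s * t) := ⟨_, rfl⟩
  have e1 : (a * -s + b * -t) = -Q := by rw [ha, hb, hQ]; ring
  have e2 : a * a + b * b + 2 * (a * b * (1013/2000)) = 2973831/4000000 * Q := by
    rw [ha, hb, hQ]; ring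
  rw [e1] at h
  have h3 : Q ^ 2 ≤ 2973831/4000000 * Q := by
    have : (-Q) ^ 2 = Q ^ 2 := by ring
    rw [this] at h
    linarith
  rw [← hQ]
  by_contra hc
  push Not at hc
  nlinarith

lemma triple_bound (x y z u : E3) (hx : ‖x‖ = 1) (hy : ‖y‖ = 1) (hz : ‖z‖ = 1) (hu : ‖u‖ = 1)
    (hyz : (inner ℝ y z : ℝ) ≤ 1013/2000) (hyu : (inner ℝ y u : ℝ) ≤ 1013/2000)
    (hzu : (inner ℝ z u : ℝ) ≤ 1013/2000) (r s t : ℝ)
    (hr : (inner ℝ x y : ℝ) = -r) (hs : (inner ℝ x z : ℝ) = -s)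
    (ht : (inner ℝ x u : ℝ) = -t) (hr0 : 67/100 ≤ r) (hs0 : 67/100 ≤ s)
    (ht0 : 67/100 ≤ t) :
    r ^ 2 + s ^ 2 + t ^ 2 - 1013/4026 * (r + s + t) ^ 2 ≤ 987/2000 ∧
      (r + s + t) ^ 2 ≤ 604/100 := by
  have key : ∀ a b c : ℝ, 0 ≤ a → 0 ≤ b → 0 ≤ c →
      (a * r + b * s + c * t) ^ 2 ≤ a ^ 2 + b ^ 2 + c ^ 2
        + 1013/1000 * (a * b + a * c + b * c) := by
    intro a b c ha hb hc
    have h := inner_sq_le x (a • y + b • z + c • u) hx
    simp only [inner_add_left, inner_add_right, inner_smul_left, inner_smul_right,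
      RCLike.conj_to_real, hr, hs, ht, one_inner y hy, one_inner z hz, one_inner u hu] at h
    rw [real_inner_comm y z, real_inner_comm y u, real_inner_comm z u] at h
    have h2 : a * b * (inner ℝ y z : ℝ) ≤ a * b * (1013/2000) :=
      mul_le_mul_of_nonneg_left hyz (mul_nonneg ha hb)
    have h3 : a * c * (inner ℝ y u : ℝ) ≤ a * c * (1013/2000) :=
      mul_le_mul_of_nonneg_left hyu (mul_nonneg ha hc)
    have h4 : b * c * (inner ℝ z u : ℝ) ≤ b * c * (1013/2000) :=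
      mul_le_mul_of_nonneg_left hzu (mul_nonneg hb hc)
    have e : (a * -r + b * -s + c * -t) ^ 2 = (a * r + b * s + c * t) ^ 2 := by ring
    rw [e] at h
    linarith
  have h6 : (r + s + t) ^ 2 ≤ 604/100 := by
    have := key 1 1 1 (by norm_num) (by norm_num) (by norm_num)
    linarith
  refine ⟨?_, h6⟩
  have hsum : r + s + t ≤ 246/100 := by nlinarith
  have h := key (r - 1013/4026 * (r + s + t)) (s - 1013/4026 * (r + s + t))
    (t - 1013/4026 * (r + s + t)) (by linarith) (by linarith) (by linarith)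
  obtain ⟨R, hR⟩ : ∃ R, R = r ^ 2 + s ^ 2 + t ^ 2 - 1013/4026 * (r + s + t) ^ 2 := ⟨_, rfl⟩
  have e1 : (r - 1013/4026 * (r + s + t)) * r + (s - 1013/4026 * (r + s + t)) * s
      + (t - 1013/4026 * (r + s + t)) * t = R := by
    rw [hR]; ring
  have e2 : (r - 1013/4026 * (r + s + t)) ^ 2 + (s - 1013/4026 * (r + s + t)) ^ 2
      + (t - 1013/4026 * (r + s + t)) ^ 2
      + 1013/1000 * ((r - 1013/4026 * (r + s + t)) * (s - 1013/4026 * (r + s + t))
      + (r - 1013/4026 * (r + s + t)) * (t - 1013/4026 * (r + s + t))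
      + (s - 1013/4026 * (r + s + t)) * (t - 1013/4026 * (r + s + t))) = 987/2000 * R := by
    rw [hR]; ring
  rw [e1, e2] at h
  rw [← hR]
  by_contra hc
  push Not at hc
  nlinarith

/-- In the plane orthogonal to `x`, five unit vectors have `∑ ⟪u i, u j⟫² ≥ 25/2`. -/
lemma frob (x : E3) (hx : ‖x‖ = 1) (u : Fin 5 → E3) (hu : ∀ i, ‖u i‖ = 1)
    (ho : ∀ i, (inner ℝ x (u i) : ℝ) = 0) :
    25/2 ≤ ∑ i, ∑ j, (inner ℝ (u i) (u j) : ℝ) ^ 2 := by
  have hi : ∀ v w : E3, (inner ℝ v w : ℝ) = v 0 * w 0 + v 1 * w 1 + v 2 * w 2 := by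
    intro v w
    simp only [PiLp.inner_apply, Fin.sum_univ_three]
    simp
    ring
  have hxx : x 0 * x 0 + x 1 * x 1 + x 2 * x 2 = 1 := by rw [← hi, one_inner x hx]
  have huu : ∀ i, u i 0 * u i 0 + u i 1 * u i 1 + u i 2 * u i 2 = 1 := by
    intro i; rw [← hi, one_inner _ (hu i)]
  have hxu : ∀ i, x 0 * u i 0 + x 1 * u i 1 + x 2 * u i 2 = 0 := by
    intro i; rw [← hi, ho i]
  obtain ⟨A, hA⟩ : ∃ A : Fin 3 → Fin 3 → ℝ, A = fun a b => ∑ i, u i a * u i b := ⟨_, rfl⟩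
  have hsymm : ∀ a b, A a b = A b a := by
    intro a b; rw [hA]; exact Finset.sum_congr rfl (fun i _ => by ring)
  have htr : A 0 0 + A 1 1 + A 2 2 = 5 := by
    rw [hA]
    simp only
    rw [← Finset.sum_add_distrib, ← Finset.sum_add_distrib]
    rw [Finset.sum_congr rfl (fun i _ => huu i)]
    simp
  have hrow : ∀ a, x 0 * A 0 a + x 1 * A 1 a + x 2 * A 2 a = 0 := by
    intro a
    rw [hA]
    simp only
    rw [Finset.mul_sum, Finset.mul_sum, Finset.mul_sum, ← Finset.sum_add_distrib,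
      ← Finset.sum_add_distrib]
    refine Finset.sum_eq_zero (fun i _ => ?_)
    have := hxu i
    linear_combination (u i a) * this
  have hsum : ∑ i, ∑ j, (inner ℝ (u i) (u j) : ℝ) ^ 2 = ∑ a, ∑ b, A a b * A a b := by
    have e1 : ∀ a b, A a b * A a b = ∑ i, ∑ j, (u i a * u i b) * (u j a * u j b) := by
      intro a b
      rw [hA]
      simp only
      rw [Finset.sum_mul_sum]
    rw [Finset.sum_congr rfl (fun a _ => Finset.sum_congr rfl (fun b _ => e1 a b))]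
    simp only [Fin.sum_univ_three]
    simp only [← Finset.sum_add_distrib]
    refine Finset.sum_congr rfl (fun i _ => Finset.sum_congr rfl (fun j _ => ?_))
    rw [hi]
    ring
  rw [hsum]
  simp only [Fin.sum_univ_three]
  have s01 := hsymm 1 0
  have s02 := hsymm 2 0
  have s12 := hsymm 2 1
  have r0 := hrow 0
  have r1 := hrow 1
  have r2 := hrow 2
  rw [s01, s02] at r0
  rw [s12] at r1
  rw [s01, s02, s12]
  have key : A 0 0 * A 0 0 + A 0 1 * A 0 1 + A 0 2 * A 0 2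
      + (A 0 1 * A 0 1 + A 1 1 * A 1 1 + A 1 2 * A 1 2)
      + (A 0 2 * A 0 2 + A 1 2 * A 1 2 + A 2 2 * A 2 2) - 25/2
      = (A 0 0 - 5/2 * (1 - x 0 ^ 2)) ^ 2 + (A 1 1 - 5/2 * (1 - x 1 ^ 2)) ^ 2
        + (A 2 2 - 5/2 * (1 - x 2 ^ 2)) ^ 2 + 2 * (A 0 1 + 5/2 * (x 0 * x 1)) ^ 2
        + 2 * (A 0 2 + 5/2 * (x 0 * x 2)) ^ 2 + 2 * (A 1 2 + 5/2 * (x 1 * x 2)) ^ 2 := by
    linear_combination 5 * htr - 5 * (x 0 * r0 + x 1 * r1 + x 2 * r2)
      - 25/4 * (x 0 * x 0 + x 1 * x 1 + x 2 * x 2 - 1) * hxx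
  have hpos : 0 ≤ (A 0 0 - 5/2 * (1 - x 0 ^ 2)) ^ 2 + (A 1 1 - 5/2 * (1 - x 1 ^ 2)) ^ 2
        + (A 2 2 - 5/2 * (1 - x 2 ^ 2)) ^ 2 + 2 * (A 0 1 + 5/2 * (x 0 * x 1)) ^ 2
        + 2 * (A 0 2 + 5/2 * (x 0 * x 2)) ^ 2 + 2 * (A 1 2 + 5/2 * (x 1 * x 2)) ^ 2 := by
    positivity
  linarith

/-- Five unit vectors orthogonal to `x` cannot have all pairwise inner products `≤ 3/20`. -/
lemma five_plane (x : E3) (hx : ‖x‖ = 1) (u : Fin 5 → E3) (hu : ∀ i, ‖u i‖ = 1)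
    (ho : ∀ i, (inner ℝ x (u i) : ℝ) = 0)
    (hc : ∀ i j, i ≠ j → (inner ℝ (u i) (u j) : ℝ) ≤ 3/20) : False := by
  have h1 := frob x hx u hu ho
  have h2 : 0 ≤ ∑ i, ∑ j, (inner ℝ (u i) (u j) : ℝ) := by
    have e : ∑ i, ∑ j, (inner ℝ (u i) (u j) : ℝ) = inner ℝ (∑ i, u i) (∑ j, u j) := by
      rw [sum_inner]
      exact Finset.sum_congr rfl (fun i _ => by rw [inner_sum])
    rw [e]
    exact real_inner_self_nonneg
  have h3 : ∀ i j, ((inner ℝ (u i) (u j) : ℝ)) ^ 2 + 17/20 * (inner ℝ (u i) (u j) : ℝ)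
      ≤ if i = j then 37/20 else 3/20 := by
    intro i j
    by_cases hij : i = j
    · subst hij
      rw [one_inner _ (hu i)]
      norm_num
    · rw [if_neg hij]
      have h4 := hc i j hij
      have h5 : -1 ≤ (inner ℝ (u i) (u j) : ℝ) := by
        have := neg_le_of_abs_le (abs_real_inner_le_norm (u i) (u j))
        rw [hu i, hu j] at this
        linarith
      nlinarith
  have h6 := Finset.sum_le_sum (fun i (_ : i ∈ (Finset.univ : Finset (Fin 5))) =>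
    Finset.sum_le_sum (fun j (_ : j ∈ (Finset.univ : Finset (Fin 5))) => h3 i j))
  simp only [Finset.sum_add_distrib, ← Finset.mul_sum] at h6
  have h7 : ∑ i : Fin 5, ∑ j : Fin 5, (if i = j then (37/20 : ℝ) else 3/20) = 49/4 := by
    simp only [Fin.sum_univ_five]
    simp
    norm_num
  rw [h7] at h6
  linarith

end Pool.Agent.Helper308.KR
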