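import Pool.Agent.Helper308.KissCap

set_option autoImplicit false

namespace Pool.Agent.Helper308.KR

open Helper484.Kissing (E3 inner_sq_le no_four)
open scoped BigOperators

/-- The inner product of the directions of two centres. -/
lemma cos_le (v w : E3) (hv : 2 ≤ ‖v‖) (hw : 2 ≤ ‖w‖) (hvw : 2 ≤ ‖v - w‖) :
    (inner ℝ ((‖v‖)⁻¹ • v) ((‖w‖)⁻¹ • w) : ℝ) ≤ 1/2 + ((‖v‖ - 2) + (‖w‖ - 2)) / 4 := by
  simp only [inner_smul_left, inner_smul_right, RCLike.conj_to_real]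
  have h1 : ‖v - w‖ ^ 2 = ‖v‖ ^ 2 - 2 * (inner ℝ v w : ℝ) + ‖w‖ ^ 2 := norm_sub_sq_real v w
  obtain ⟨a, ha⟩ : ∃ a, a = ‖v‖ - 2 := ⟨_, rfl⟩
  obtain ⟨b, hb⟩ : ∃ b, b = ‖w‖ - 2 := ⟨_, rfl⟩
  have hva : ‖v‖ = 2 + a := by rw [ha]; ring
  have hwb : ‖w‖ = 2 + b := by rw [hb]; ring
  have ha0 : 0 ≤ a := by rw [ha]; linarith
  have hb0 : 0 ≤ b := by rw [hb]; linarith
  have h2 : (4 : ℝ) ≤ ‖v - w‖ ^ 2 := by nlinarith
  rw [hva, hwb] at h1
  rw [← ha, ← hb, hva, hwb]
  have h3 : (inner ℝ v w : ℝ) ≤ (1/2 + (a + b) / 4) * ((2 + a) * (2 + b)) := by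
    have h4 : (1/2 + (a + b) / 4) * ((2 + a) * (2 + b)) - ((2 + a)^2 + (2 + b)^2 - 4) / 2
        = (3 * (a * b) + a * (a * b) / 2 + b * (a * b) / 2) / 2 := by ring
    have h5 : 0 ≤ a * b := mul_nonneg ha0 hb0
    have h6 : 0 ≤ a * (a * b) := mul_nonneg ha0 h5
    have h7 : 0 ≤ b * (a * b) := mul_nonneg hb0 h5
    linarith
  have hpa : 0 < 2 + a := by linarith
  have hpb : 0 < 2 + b := by linarith
  have h9 : (2 + b)⁻¹ * ((2 + a)⁻¹ * (inner ℝ v w : ℝ))
      = (inner ℝ v w : ℝ) / ((2 + a) * (2 + b)) := by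
    field_simp
  have h10 : (inner ℝ v w : ℝ) / ((2 + a) * (2 + b)) ≤ 1/2 + (a + b) / 4 := by
    rw [div_le_iff₀ (mul_pos hpa hpb)]
    exact h3
  rw [h9]
  exact h10

/-- Sum over a row. -/
lemma row_bound (y : Fin 13 → E3) (hy : ∀ i, ‖y i‖ = 1) (hinj : Function.Injective y)
    (a : Fin 13 → ℝ) (ha : ∀ i, 0 ≤ a i)
    (h1 : ∀ i j, i ≠ j → (inner ℝ (y i) (y j) : ℝ) ≤ 1/2 + (a i + a j) / 4)
    (h2 : ∀ i j, i ≠ j → (inner ℝ (y i) (y j) : ℝ) ≤ 1013/2000) (i : Fin 13) :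
    ∑ j, f (inner ℝ (y i) (y j)) ≤ 12943/1000 + 4721/4000 * ∑ j ∈ Finset.univ.erase i, (a i + a j) := by
  classical
  obtain ⟨J, hJ⟩ : ∃ J, J = (Finset.univ.erase i).filter
    (fun j => (inner ℝ (y i) (y j) : ℝ) < -(67/100)) := ⟨_, rfl⟩
  have hsub : J ⊆ Finset.univ.erase i := by rw [hJ]; exact Finset.filter_subset _ _
  have hJm : ∀ j ∈ J, j ≠ i ∧ (inner ℝ (y i) (y j) : ℝ) < -(67/100) := by
    intro j hj
    rw [hJ, Finset.mem_filter, Finset.mem_erase] at hj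
    exact ⟨hj.1.1, hj.2⟩
  have hcap : ∑ j ∈ J, f (inner ℝ (y i) (y j)) ≤ 28469/10000 := by
    have e : ∑ j ∈ J, f (inner ℝ (y i) (y j)) = ∑ z ∈ J.image y, f (inner ℝ (y i) z) := by
      rw [Finset.sum_image (fun _ _ _ _ h => hinj h)]
    rw [e]
    apply cap_sum (y i) (hy i)
    · intro z hz
      obtain ⟨j, _, rfl⟩ := Finset.mem_image.mp hz
      exact hy j
    · intro z hz
      obtain ⟨j, hj, rfl⟩ := Finset.mem_image.mp hz
      exact (hJm j hj).2
    · intro z hz w hw hzw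
      obtain ⟨j, hj, rfl⟩ := Finset.mem_image.mp hz
      obtain ⟨k, hk, rfl⟩ := Finset.mem_image.mp hw
      exact h2 j k (fun h => hzw (by rw [h]))
  have hrest : ∑ j ∈ Finset.univ.erase i \ J, f (inner ℝ (y i) (y j))
      ≤ ∑ j ∈ Finset.univ.erase i \ J, 4721/4000 * (a i + a j) := by
    refine Finset.sum_le_sum (fun j hj => ?_)
    rw [Finset.mem_sdiff, Finset.mem_erase] at hj
    obtain ⟨⟨hji, hju⟩, hjJ⟩ := hj
    have hlow : -(67/100) ≤ (inner ℝ (y i) (y j) : ℝ) := by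
      by_contra hcon
      push Not at hcon
      apply hjJ
      rw [hJ, Finset.mem_filter, Finset.mem_erase]
      exact ⟨⟨hji, hju⟩, hcon⟩
    have hb1 := h1 i j (Ne.symm hji)
    have hb2 := h2 i j (Ne.symm hji)
    have hai := ha i
    have haj := ha j
    rcases le_total (inner ℝ (y i) (y j) : ℝ) (1/2) with h | h
    · have := f_nonpos _ hlow h
      linarith
    · have := f_up _ h hb2
      linarith
  have hmono : ∑ j ∈ Finset.univ.erase i \ J, 4721/4000 * (a i + a j)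
      ≤ ∑ j ∈ Finset.univ.erase i, 4721/4000 * (a i + a j) := by
    apply Finset.sum_le_sum_of_subset_of_nonneg Finset.sdiff_subset
    intro j _ _
    have hai := ha i
    have haj := ha j
    linarith
  rw [← Finset.add_sum_erase Finset.univ _ (Finset.mem_univ i), one_inner _ (hy i), f_one,
    ← Finset.sum_sdiff hsub, Finset.mul_sum]
  linarith

theorem sum_excess (x : Fin 13 → E3) (h2 : ∀ i, 2 ≤ ‖x i‖)
    (hd : ∀ i j, i ≠ j → 2 ≤ ‖x i - x j‖) : 26/1000 ≤ ∑ i, (‖x i‖ - 2) := by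
  classical
  by_contra hcon
  push Not at hcon
  obtain ⟨a, ha⟩ : ∃ a : Fin 13 → ℝ, a = fun i => ‖x i‖ - 2 := ⟨_, rfl⟩
  have ha0 : ∀ i, 0 ≤ a i := by
    intro i; rw [ha]; simp only; linarith [h2 i]
  obtain ⟨A, hA⟩ : ∃ A, A = ∑ i, a i := ⟨_, rfl⟩
  have hA26 : A < 26/1000 := by rw [hA, ha]; exact hcon
  obtain ⟨y, hy⟩ : ∃ y : Fin 13 → E3, y = fun i => (‖x i‖)⁻¹ • x i := ⟨_, rfl⟩
  have hpos : ∀ i, 0 < ‖x i‖ := fun i => by linarith [h2 i]
  have hy1 : ∀ i, ‖y i‖ = 1 := by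
    intro i
    rw [hy]
    simp only
    rw [norm_smul, norm_inv, norm_norm]
    exact inv_mul_cancel₀ (hpos i).ne'
  have hcos : ∀ i j, i ≠ j → (inner ℝ (y i) (y j) : ℝ) ≤ 1/2 + (a i + a j) / 4 := by
    intro i j hij
    rw [hy, ha]
    exact cos_le (x i) (x j) (h2 i) (h2 j) (hd i j hij)
  have hpair : ∀ i j, i ≠ j → a i + a j ≤ A := by
    intro i j hij
    rw [hA, ← Finset.sum_pair hij]
    exact Finset.sum_le_sum_of_subset_of_nonneg (Finset.subset_univ _) (fun k _ _ => ha0 k)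
  have hcos2 : ∀ i j, i ≠ j → (inner ℝ (y i) (y j) : ℝ) ≤ 1013/2000 := by
    intro i j hij
    have h3 := hcos i j hij
    have h4 := hpair i j hij
    linarith
  have hinj : Function.Injective y := by
    intro i j hij
    by_contra hne
    have h3 := hcos2 i j hne
    rw [← hij, one_inner _ (hy1 i)] at h3
    norm_num at h3
  have hrow := fun i => row_bound y hy1 hinj a ha0 hcos hcos2 i
  have hlow := lower (Finset.univ.image y) (by
    intro u hu
    obtain ⟨j, _, rfl⟩ := Finset.mem_image.mp hu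
    exact hy1 j)
  rw [Finset.card_image_of_injective _ hinj, Finset.card_univ, Fintype.card_fin,
    Finset.sum_image (fun _ _ _ _ h => hinj h)] at hlow
  rw [Finset.sum_congr rfl (fun i _ => Finset.sum_image (fun _ _ _ _ h => hinj h))] at hlow
  have htot : ∑ i, ∑ j, f (inner ℝ (y i) (y j))
      ≤ ∑ i : Fin 13, (12943/1000 + 4721/4000 * ∑ j ∈ Finset.univ.erase i, (a i + a j)) :=
    Finset.sum_le_sum (fun i _ => hrow i)
  have hds : ∑ i : Fin 13, ∑ j ∈ Finset.univ.erase i, (a i + a j) = 24 * A := by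
    have e : ∀ i : Fin 13, ∑ j ∈ Finset.univ.erase i, (a i + a j) = 11 * a i + A := by
      intro i
      rw [Finset.sum_add_distrib, Finset.sum_const, Finset.card_erase_of_mem (Finset.mem_univ i),
        Finset.card_univ, Fintype.card_fin]
      have := Finset.add_sum_erase Finset.univ a (Finset.mem_univ i)
      rw [hA, ← this]
      simp only [nsmul_eq_mul]
      push_cast
      ring
    rw [Finset.sum_congr rfl (fun i _ => e i), Finset.sum_add_distrib, ← Finset.mul_sum, ← hA,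
      Finset.sum_const, Finset.card_univ, Fintype.card_fin]
    simp only [nsmul_eq_mul]
    push_cast
    ring
  rw [Finset.sum_add_distrib, ← Finset.mul_sum, hds, Finset.sum_const, Finset.card_univ,
    Fintype.card_fin, nsmul_eq_mul] at htot
  push_cast at htot hlow
  linarith

end Pool.Agent.Helper308.KR
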