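import Pool.Agent.Helper484.KissPSD

/-!
Polynomial and integer-table part of the robust form of the kissing number bound in `ℝ³`
(threshold `cos ≤ 1/2 + 0.0065`).
-/

set_option autoImplicit false

namespace Pool.Agent.Helper308.KR

open Helper484.Kissing
open scoped BigOperators

/-- The polynomial used in the linear programming bound. -/
noncomputable def f (t : ℝ) : ℝ :=
  1 + 16295/10000 * p1 t + 34911/10000 * p2 t + 16045/10000 * p3 t + 19767/10000 * p4 t
    + 3943/10000 * p9 t

lemma lower (T : Finset E3) (h1 : ∀ u ∈ T, ‖u‖ = 1) :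
    (T.card : ℝ) ^ 2 ≤ ∑ x ∈ T, ∑ y ∈ T, f (inner ℝ x y) := by
  have e1 := psd1 T h1
  have e2 := psd2 T h1
  have e3 := psd3 T h1
  have e4 := psd4 T h1
  have e9 := psd9 T h1
  simp only [f, Finset.sum_add_distrib, ← Finset.mul_sum, Finset.sum_const, nsmul_eq_mul, mul_one]
  nlinarith

lemma f_nonpos (t : ℝ) (h1 : -(67/100) ≤ t) (h2 : t ≤ 1/2) : f t ≤ 0 := by
  rcases le_total t ((-169/400)) with hc0 | hc0
  · obtain ⟨u, hu⟩ : ∃ u : ℝ, u = t - ((-67/100)) := ⟨_, rfl⟩
    obtain ⟨v, hv⟩ : ∃ v : ℝ, v = ((-169/400)) - t := ⟨_, rfl⟩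
    have hu0 : 0 ≤ u := by rw [hu]; linarith
    have hv0 : 0 ≤ v := by rw [hv]; linarith
    have key : (-f t) = 6822388367721002114176/38063218645151704125 * u^0 * v^9 
          + 1516133320525687111150624/12687739548383901375 * u^1 * v^8 
          + 8068188282412960116572768/12687739548383901375 * u^2 * v^7 
          + 17471247397504247550608936/12687739548383901375 * u^3 * v^6 
          + 19733486135771520929022557/12687739548383901375 * u^4 * v^5 
          + 49070713964929832174756599/50750958193535605500 * u^5 * v^4 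
          + 10578904044285725955849677/33833972129023737000 * u^6 * v^3 
          + 16464914960698001242157993/406007665548284844000 * u^7 * v^2 
          + 723772995977432026802251/6496122648772557504000 * u^8 * v^1 
          + 14673797069729302817776619/77953471785270690048000 * u^9 * v^0 := by
      rw [hu, hv]; simp only [f, p1, p2, p3, p4, p9]; ring
    have : 0 ≤ (-f t) := by rw [key]; positivity
    linarith
  rcases le_total t (3/80) with hc1 | hc1
  · obtain ⟨u, hu⟩ : ∃ u : ℝ, u = t - ((-169/400)) := ⟨_, rfl⟩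
    obtain ⟨v, hv⟩ : ∃ v : ℝ, v = (3/80) - t := ⟨_, rfl⟩
    have hu0 : 0 ≤ u := by rw [hu]; linarith
    have hv0 : 0 ≤ v := by rw [hv]; linarith
    have key : (-f t) = 44021391209187908453329857/61887134208695556112384000 * u^0 * v^9 
          + 216824668857468874919379869/12377426841739111222476800 * u^1 * v^8 
          + 446027596530050327162298497/618871342086955561123840 * u^2 * v^7 
          + 522758566651129423573110609/123774268417391112224768 * u^3 * v^6 
          + 2300219521128626213515983755/247548536834782224449536 * u^4 * v^5 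
          + 2286681719247830453534959075/247548536834782224449536 * u^5 * v^4 
          + 522710067002002804569971625/123774268417391112224768 * u^6 * v^3 
          + 89211626560745897992263125/123774268417391112224768 * u^7 * v^2 
          + 336650213560521057728125/495097073669564448899072 * u^8 * v^1 
          + 335042656343880835328125/495097073669564448899072 * u^9 * v^0 := by
      rw [hu, hv]; simp only [f, p1, p2, p3, p4, p9]; ring
    have : 0 ≤ (-f t) := by rw [key]; positivity
    linarith
  obtain ⟨u, hu⟩ : ∃ u : ℝ, u = t - (3/80) := ⟨_, rfl⟩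
  obtain ⟨v, hv⟩ : ∃ v : ℝ, v = (1/2) - t := ⟨_, rfl⟩
  have hu0 : 0 ≤ u := by rw [hu]; linarith
  have hv0 : 0 ≤ v := by rw [hv]; linarith
  have key : (-f t) = 21442730006008373461/33270205387539712000 * u^0 * v^9 
        + 9133881497472450943/831755134688492800 * u^1 * v^8 
        + 4038141249477862529/5198469591803080 * u^2 * v^7 
        + 781945604485032759/129961739795077 * u^3 * v^6 
        + 2524891916559299516/129961739795077 * u^4 * v^5 
        + 4188276184797556000/129961739795077 * u^5 * v^4 
        + 3709734048314688000/129961739795077 * u^6 * v^3 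
        + 1649381790289408000/129961739795077 * u^7 * v^2 
        + 290318017172480000/129961739795077 * u^8 * v^1 
        + 84355276800000/129961739795077 * u^9 * v^0 := by
    rw [hu, hv]; simp only [f, p1, p2, p3, p4, p9]; ring
  have : 0 ≤ (-f t) := by rw [key]; positivity
  linarith

lemma f_up (t : ℝ) (h1 : 1/2 ≤ t) (h2 : t ≤ 1013/2000) : f t ≤ 4721/1000 * (t - 1/2) := by
  obtain ⟨u, hu⟩ : ∃ u : ℝ, u = t - (1/2) := ⟨_, rfl⟩
  obtain ⟨v, hv⟩ : ∃ v : ℝ, v = (1013/2000) - t := ⟨_, rfl⟩
  have hu0 : 0 ≤ u := by rw [hu]; linarith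
  have hv0 : 0 ≤ v := by rw [hv]; linarith
  have key : (4721/1000 * (t - 1/2) - f t) = 321789843750000000000000000/10604499373 * u^0 * v^9 
        + 3083780280468750000000000000/10604499373 * u^1 * v^8 
        + 12580891443871875000000000000/10604499373 * u^2 * v^7 
        + 28747711874405046875000000000/10604499373 * u^3 * v^6 
        + 40433773898583907382812500000/10604499373 * u^4 * v^5 
        + 35965292983602840895514062500/10604499373 * u^5 * v^4 
        + 19807818727942491317629609375/10604499373 * u^6 * v^3 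
        + 49528527960747951693217354875/84835994984 * u^7 * v^2 
        + 216356617517624831243221027263/2714751839488 * u^8 * v^1 
        + 400849345629073473127432829491/2714751839488000 * u^9 * v^0 := by
    rw [hu, hv]; simp only [f, p1, p2, p3, p4, p9]; ring
  have : 0 ≤ (4721/1000 * (t - 1/2) - f t) := by rw [key]; positivity
  linarith

/-- coefficients of `f (-s)`, times `1280000` -/
def co : ℕ → ℤ
  | 0 => -5488
  | 1 => -247165
  | 2 => -2785248
  | 3 => 13082260
  | 4 => 11069520
  | 5 => -71044974
  | 6 => 0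
  | 7 => 101492820
  | 8 => 0
  | 9 => -47927165
  | _ => 0

lemma f_eq (s : ℝ) : f (-s) = (∑ k ∈ Finset.range 10, (co k : ℝ) * s ^ k) / 1280000 := by
  simp only [Finset.sum_range_succ, Finset.sum_range_zero, co, f, p1, p2, p3, p4, p9]
  push_cast
  ring

lemma F_mono (u v : ℝ) (hu : 67/100 ≤ u) (huv : u ≤ v) (hv : v ≤ 1) : f (-u) ≤ f (-v) := by
  have hd : ∀ s : ℝ, HasDerivAt (fun s : ℝ => (∑ k ∈ Finset.range 10, (co k : ℝ) * s ^ k))
      (∑ k ∈ Finset.range 10, (co k : ℝ) * ((k : ℝ) * s ^ (k - 1))) s := by
    intro s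
    exact HasDerivAt.fun_sum fun k _ => (hasDerivAt_pow k s).const_mul (co k : ℝ)
  have hpos : ∀ t : ℝ, 67/100 ≤ t → t ≤ 1 →
      0 ≤ ∑ k ∈ Finset.range 10, (co k : ℝ) * ((k : ℝ) * t ^ (k - 1)) := by
    intro t ht0 ht1
    obtain ⟨u, hu⟩ : ∃ u : ℝ, u = t - 67/100 := ⟨_, rfl⟩
    obtain ⟨v, hv⟩ : ∃ v : ℝ, v = 1 - t := ⟨_, rfl⟩
    have hu0 : 0 ≤ u := by rw [hu]; linarith
    have hv0 : 0 ≤ v := by rw [hv]; linarith
    have key : (∑ k ∈ Finset.range 10, (co k : ℝ) * ((k : ℝ) * t ^ (k - 1))) = 21245257889524490125115/1406408618241 * u^0 * v^8 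
          + 320682124532100646276000/1406408618241 * u^1 * v^7 
          + 1896470947866244390400000/1406408618241 * u^2 * v^6 
          + 5871807225160090960000000/1406408618241 * u^3 * v^5 
          + 10452305827146488000000000/1406408618241 * u^4 * v^4 
          + 10813881763091200000000000/1406408618241 * u^5 * v^3 
          + 6077432046080000000000000/1406408618241 * u^6 * v^2 
          + 1457565452800000000000000/1406408618241 * u^7 * v^1 
          + 15875840000000000000000/1406408618241 * u^8 * v^0 := by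
      rw [hu, hv]
      simp only [Finset.sum_range_succ, Finset.sum_range_zero, co]
      push_cast
      ring
    rw [key]; positivity
  have hmono : MonotoneOn (fun s : ℝ => (∑ k ∈ Finset.range 10, (co k : ℝ) * s ^ k))
      (Set.Icc (67/100) 1) := by
    refine monotoneOn_of_deriv_nonneg (convex_Icc _ _) ?_ ?_ ?_
    · exact fun s _ => (hd s).continuousAt.continuousWithinAt
    · exact fun s _ => (hd s).differentiableAt.differentiableWithinAt
    · intro s hs
      rw [interior_Icc] at hs
      rw [(hd s).deriv]
      exact hpos s hs.1.le hs.2.le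
  have h := hmono (⟨hu, by linarith⟩ : u ∈ Set.Icc (67/100 : ℝ) 1)
    (⟨by linarith, hv⟩ : v ∈ Set.Icc (67/100 : ℝ) 1) huv
  rw [f_eq, f_eq]
  exact div_le_div_of_nonneg_right h (by norm_num)

/-- integer form of `f (-(i/N))` -/
def FF (N i : ℕ) : ℤ :=
  -5488 * N^9 + (-247165) * i * N^8 + (-2785248) * i^2 * N^7 + (13082260) * i^3 * N^6 + (11069520) * i^4 * N^5
    + (-71044974) * i^5 * N^4 + (101492820) * i^7 * N^2 + (-47927165) * i^9

lemma FF_eq (N i : ℕ) (hN : 0 < N) : f (-((i : ℝ) / N)) = (FF N i : ℝ) / (1280000 * (N : ℝ)^9) := by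
  have hN' : (N : ℝ) ≠ 0 := by positivity
  rw [f_eq]
  simp only [Finset.sum_range_succ, Finset.sum_range_zero, co, FF]
  push_cast
  field_simp
  ring

end Pool.Agent.Helper308.KR
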