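import Pool.Agent.Helper308.KissTab

set_option autoImplicit false

namespace Pool.Agent.Helper308.KR

lemma div_ge {N i : ℕ} (hN : 0 < N) (hi : 67 * N ≤ 100 * i) : (67/100 : ℝ) ≤ (i : ℝ) / N := by
  have hN' : (0:ℝ) < N := by exact_mod_cast hN
  rw [le_div_iff₀ hN']
  have : (67:ℝ) * N ≤ 100 * i := by exact_mod_cast hi
  linarith

lemma R_mono (r s t r' s' t' : ℝ) (hr' : 67/100 ≤ r') (hs' : 67/100 ≤ s') (ht' : 67/100 ≤ t')
    (hr : r' ≤ r) (hs : s' ≤ s) (ht : t' ≤ t) (hS : (r + s + t)^2 ≤ 604/100) :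
    r'^2 + s'^2 + t'^2 - 1013/4026 * (r' + s' + t')^2
      ≤ r^2 + s^2 + t^2 - 1013/4026 * (r + s + t)^2 := by
  have hS0 : r + s + t ≤ 246/100 := by nlinarith
  have h1 : 0 ≤ (r - r') * ((r + r') - 1013/4026 * ((r + s + t) + (r' + s' + t'))) :=
    mul_nonneg (by linarith) (by linarith)
  have h2 : 0 ≤ (s - s') * ((s + s') - 1013/4026 * ((r + s + t) + (r' + s' + t'))) :=
    mul_nonneg (by linarith) (by linarith)
  have h3 : 0 ≤ (t - t') * ((t + t') - 1013/4026 * ((r + s + t) + (r' + s' + t'))) :=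
    mul_nonneg (by linarith) (by linarith)
  have e : (r^2 + s^2 + t^2 - 1013/4026 * (r + s + t)^2)
      - (r'^2 + s'^2 + t'^2 - 1013/4026 * (r' + s' + t')^2)
      = (r - r') * ((r + r') - 1013/4026 * ((r + s + t) + (r' + s' + t')))
      + (s - s') * ((s + s') - 1013/4026 * ((r + s + t) + (r' + s' + t')))
      + (t - t') * ((t + t') - 1013/4026 * ((r + s + t) + (r' + s' + t'))) := by ring
  linarith

lemma inf3_sound {N i j k : ℕ} (hN : 0 < N) (h : inf3 N i j k = true)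
    (hi : 67 * N ≤ 100 * i) (hj : 67 * N ≤ 100 * j) (hk : 67 * N ≤ 100 * k) (r s t : ℝ)
    (hr : (i : ℝ) / N ≤ r) (hs : (j : ℝ) / N ≤ s) (ht : (k : ℝ) / N ≤ t)
    (hS : (r + s + t)^2 ≤ 604/100)
    (hR : r^2 + s^2 + t^2 - 1013/4026 * (r + s + t)^2 ≤ 987/2000) : False := by
  have hN' : (0:ℝ) < N := by exact_mod_cast hN
  unfold inf3 at h
  have h1 := of_decide_eq_true h
  have h2 : (2026000 : ℝ) * ((i:ℝ) + j + k)^2 + 3973662 * (N:ℝ)^2
      < 8052000 * ((i:ℝ)^2 + (j:ℝ)^2 + (k:ℝ)^2) := by exact_mod_cast h1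
  have h3 := R_mono r s t (i/N) (j/N) (k/N) (div_ge hN hi) (div_ge hN hj) (div_ge hN hk) hr hs ht hS
  have h4 : (987/2000 : ℝ) < ((i:ℝ)/N)^2 + ((j:ℝ)/N)^2 + ((k:ℝ)/N)^2
      - 1013/4026 * ((i:ℝ)/N + (j:ℝ)/N + (k:ℝ)/N)^2 := by
    have e : ((i:ℝ)/N)^2 + ((j:ℝ)/N)^2 + ((k:ℝ)/N)^2
        - 1013/4026 * ((i:ℝ)/N + (j:ℝ)/N + (k:ℝ)/N)^2
        = (8052000 * ((i:ℝ)^2 + (j:ℝ)^2 + (k:ℝ)^2) - 2026000 * ((i:ℝ) + j + k)^2)
          / (8052000 * (N:ℝ)^2) := by
      field_simp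
      ring
    rw [e, lt_div_iff₀ (by positivity)]
    nlinarith
  linarith

lemma Q_mono (s t s' t' : ℝ) (hs' : 67/100 ≤ s') (ht' : 67/100 ≤ t')
    (hs : s' ≤ s) (ht : t' ≤ t) (hs1 : s ≤ 1) (ht1 : t ≤ 1) :
    s'^2 + t'^2 - 1013/1000 * (s' * t') ≤ s^2 + t^2 - 1013/1000 * (s * t) := by
  have h1 : 0 ≤ (s - s') * (s + s' - 1013/1000 * t) := mul_nonneg (by linarith) (by linarith)
  have h2 : 0 ≤ (t - t') * (t + t' - 1013/1000 * s') := mul_nonneg (by linarith) (by linarith)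
  have e : (s^2 + t^2 - 1013/1000 * (s * t)) - (s'^2 + t'^2 - 1013/1000 * (s' * t'))
      = (s - s') * (s + s' - 1013/1000 * t) + (t - t') * (t + t' - 1013/1000 * s') := by ring
  linarith

lemma inf2_sound {N i k : ℕ} (hN : 0 < N) (h : inf2 N i k = true)
    (hi : 67 * N ≤ 100 * i) (hk : 67 * N ≤ 100 * k) (s t : ℝ)
    (hs : (i : ℝ) / N ≤ s) (ht : (k : ℝ) / N ≤ t) (hs1 : s ≤ 1) (ht1 : t ≤ 1)
    (hQ : s^2 + t^2 - 1013/1000 * (s * t) ≤ 2973831/4000000) : False := by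
  have hN' : (0:ℝ) < N := by exact_mod_cast hN
  unfold inf2 at h
  have h1 := of_decide_eq_true h
  have h2 : (4052000 : ℝ) * ((i:ℝ) * k) + 2973831 * (N:ℝ)^2
      < 4000000 * ((i:ℝ)^2 + (k:ℝ)^2) := by exact_mod_cast h1
  have h3 := Q_mono s t (i/N) (k/N) (div_ge hN hi) (div_ge hN hk) hs ht hs1 ht1
  have h4 : (2973831/4000000 : ℝ) < ((i:ℝ)/N)^2 + ((k:ℝ)/N)^2
      - 1013/1000 * ((i:ℝ)/N * ((k:ℝ)/N)) := by
    have e : ((i:ℝ)/N)^2 + ((k:ℝ)/N)^2 - 1013/1000 * ((i:ℝ)/N * ((k:ℝ)/N))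
        = (4000000 * ((i:ℝ)^2 + (k:ℝ)^2) - 4052000 * ((i:ℝ) * k)) / (4000000 * (N:ℝ)^2) := by
      field_simp
      ring
    rw [e, lt_div_iff₀ (by positivity)]
    nlinarith
  linarith

lemma le_one_of {N k : ℕ} (hN : 0 < N) (hk : k ≤ N) : (k : ℝ) / N ≤ 1 := by
  have hN' : (0:ℝ) < N := by exact_mod_cast hN
  rw [div_le_one hN']
  exact_mod_cast hk

lemma row3_sound {N i : ℕ} (hN : 0 < N) (hi : 67 * N ≤ 100 * i) (hiN : i + 1 ≤ N) :
    ∀ (ks : List ℕ) (j : ℕ), 67 * N ≤ 100 * j → row3 N i j ks = true → ∀ r s t : ℝ,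
      (i : ℝ) / N ≤ r → r ≤ ((i + 1 : ℕ) : ℝ) / N → (j : ℝ) / N ≤ s → s ≤ t → t ≤ 1 →
      (r + s + t)^2 ≤ 604/100 →
      r^2 + s^2 + t^2 - 1013/4026 * (r + s + t)^2 ≤ 987/2000 →
      f (-r) + f (-s) + f (-t) ≤ 27429/10000 := by
  have hN' : (0:ℝ) < N := by exact_mod_cast hN
  intro ks
  induction ks with
  | nil =>
    intro j hj h r s t hr hr2 hs hst ht1 hS hR
    exfalso
    rw [row3] at h
    exact inf3_sound hN h hi hj hj r s t hr hs (hs.trans hst) hS hR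
  | cons k ks ih =>
    intro j hj h r s t hr hr2 hs hst ht1 hS hR
    rw [row3] at h
    simp only [Bool.and_eq_true, decide_eq_true_eq] at h
    obtain ⟨⟨⟨⟨⟨h1, h2⟩, h3⟩, h4⟩, h5⟩, h6⟩ := h
    by_cases hc : s ≤ ((j + 1 : ℕ) : ℝ) / N
    · have ht : t < (k : ℝ) / N := by
        by_contra hcon
        push Not at hcon
        exact inf3_sound hN h1 hi hj h3 r s t hr hs hcon hS hR
      have hr0 : 67/100 ≤ r := (div_ge hN hi).trans hr
      have hs0 : 67/100 ≤ s := (div_ge hN hj).trans hs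
      have e1 := F_mono r _ hr0 hr2 (le_one_of hN hiN)
      have e2 := F_mono s _ hs0 hc (le_one_of hN h4)
      have e3 := F_mono t _ (hs0.trans hst) ht.le (le_one_of hN h2)
      rw [FF_eq N _ hN] at e1 e2 e3
      have e4 : ((FF N (i+1) : ℤ) : ℝ) + FF N (j+1) + FF N k ≤ 3510912 * (N:ℝ)^9 := by
        exact_mod_cast h5
      have e5 : (FF N (i+1) : ℝ) / (1280000 * (N : ℝ)^9) + (FF N (j+1) : ℝ) / (1280000 * (N : ℝ)^9)
          + (FF N k : ℝ) / (1280000 * (N : ℝ)^9) ≤ 27429/10000 := by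
        rw [← add_div, ← add_div, div_le_iff₀ (by positivity)]
        linarith
      linarith
    · push Not at hc
      exact ih (j+1) (by omega) h6 r s t hr hr2 hc.le hst ht1 hS hR

lemma tab3_sound {N : ℕ} (hN : 0 < N) :
    ∀ (rows : List (List ℕ)) (i : ℕ), 67 * N ≤ 100 * i → tab3 N i rows = true → ∀ r s t : ℝ,
      (i : ℝ) / N ≤ r → r ≤ s → s ≤ t → t ≤ 1 →
      (r + s + t)^2 ≤ 604/100 →
      r^2 + s^2 + t^2 - 1013/4026 * (r + s + t)^2 ≤ 987/2000 →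
      f (-r) + f (-s) + f (-t) ≤ 27429/10000 := by
  intro rows
  induction rows with
  | nil =>
    intro i hi h r s t hr hrs hst ht1 hS hR
    exfalso
    rw [tab3] at h
    exact inf3_sound hN h hi hi hi r s t hr (hr.trans hrs) ((hr.trans hrs).trans hst) hS hR
  | cons row rows ih =>
    intro i hi h r s t hr hrs hst ht1 hS hR
    rw [tab3] at h
    simp only [Bool.and_eq_true, decide_eq_true_eq] at h
    obtain ⟨⟨h1, h2⟩, h3⟩ := h
    by_cases hc : r ≤ ((i + 1 : ℕ) : ℝ) / N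
    · exact row3_sound hN hi h1 row i hi h2 r s t hr hc (hr.trans hrs) hst ht1 hS hR
    · push Not at hc
      exact ih (i+1) (by omega) h3 r s t hc.le hrs hst ht1 hS hR

/-- the bound for triples, sorted -/
lemma triple_sorted (r s t : ℝ) (hr : 67/100 ≤ r) (hrs : r ≤ s) (hst : s ≤ t) (ht1 : t ≤ 1)
    (hS : (r + s + t)^2 ≤ 604/100)
    (hR : r^2 + s^2 + t^2 - 1013/4026 * (r + s + t)^2 ≤ 987/2000) :
    f (-r) + f (-s) + f (-t) ≤ 27429/10000 := by
  refine tab3_sound (N := 300) (by norm_num) table3 201 (by norm_num) tab3_ok r s t ?_ hrs hst ht1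
    hS hR
  push_cast
  linarith

/-- the bound for triples -/
lemma triple_opt (r s t : ℝ) (hr : 67/100 ≤ r) (hs : 67/100 ≤ s) (ht : 67/100 ≤ t) (hr1 : r ≤ 1)
    (hs1 : s ≤ 1) (ht1 : t ≤ 1) (hS : (r + s + t)^2 ≤ 604/100)
    (hR : r^2 + s^2 + t^2 - 1013/4026 * (r + s + t)^2 ≤ 987/2000) :
    f (-r) + f (-s) + f (-t) ≤ 27429/10000 := by
  have key : ∀ a b c : ℝ, 67/100 ≤ a → a ≤ b → b ≤ c → c ≤ 1 → a + b + c = r + s + t →
      a^2 + b^2 + c^2 = r^2 + s^2 + t^2 → f (-a) + f (-b) + f (-c) ≤ 27429/10000 := by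
    intro a b c ha hab hbc hc e1 e2
    exact triple_sorted a b c ha hab hbc hc (by rw [e1]; exact hS) (by rw [e1, e2]; exact hR)
  rcases le_total r s with h1 | h1 <;> rcases le_total s t with h2 | h2 <;>
    rcases le_total r t with h3 | h3
  · exact key r s t hr h1 h2 ht1 rfl rfl
  · exact key r s t hr h1 h2 ht1 rfl rfl
  · have := key r t s hr h3 h2 hs1 (by ring) (by ring); linarith
  · have := key t r s ht h3 h1 hs1 (by ring) (by ring); linarith
  · have := key s r t hs h1 h3 ht1 (by ring) (by ring); linarith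
  · have := key s t r hs h2 h3 hr1 (by ring) (by ring); linarith
  · have := key t s r ht h2 h1 hr1 (by ring) (by ring); linarith
  · have := key t s r ht h2 h1 hr1 (by ring) (by ring); linarith

lemma row2_sound {N i0 : ℕ} (hN : 0 < N) (hi0 : 67 * N = 100 * i0) :
    ∀ (ks : List ℕ) (i : ℕ), 67 * N ≤ 100 * i → row2 N i0 i ks = true → ∀ s t : ℝ,
      (i : ℝ) / N ≤ s → 67/100 ≤ t → t ≤ s → s ≤ 1 →
      s^2 + t^2 - 1013/1000 * (s * t) ≤ 2973831/4000000 →
      f (-s) + f (-t) ≤ 28469/10000 := by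
  have hN' : (0:ℝ) < N := by exact_mod_cast hN
  intro ks
  induction ks with
  | nil =>
    intro i hi h s t hs ht hts hs1 hQ
    exfalso
    rw [row2] at h
    have e : (i0 : ℝ) / N ≤ t := by
      rw [div_le_iff₀ hN']
      have : (67:ℝ) * N = 100 * i0 := by exact_mod_cast hi0
      nlinarith
    exact inf2_sound hN h hi hi0.le s t hs e hs1 (hts.trans hs1) hQ
  | cons k ks ih =>
    intro i hi h s t hs ht hts hs1 hQ
    rw [row2] at h
    simp only [Bool.and_eq_true, Bool.or_eq_true, decide_eq_true_eq] at h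
    obtain ⟨⟨⟨⟨⟨h1, h2⟩, h3⟩, h4⟩, h5⟩, h6⟩ := h
    by_cases hc : s ≤ ((i + 1 : ℕ) : ℝ) / N
    · have htk : t ≤ (k : ℝ) / N := by
        rcases h4 with h4 | h4
        · refine hts.trans (hc.trans ?_)
          exact div_le_div_of_nonneg_right (by exact_mod_cast h4) hN'.le
        · by_contra hcon
          push Not at hcon
          exact inf2_sound hN h4 hi h2 s t hs hcon.le hs1 (hts.trans hs1) hQ
      have hs0 : 67/100 ≤ s := (div_ge hN hi).trans hs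
      have e1 := F_mono s _ hs0 hc (le_one_of hN h1)
      have e2 := F_mono t _ ht htk (le_one_of hN h3)
      rw [FF_eq N _ hN] at e1 e2
      have e4 : ((FF N (i+1) : ℤ) : ℝ) + FF N k ≤ 3644032 * (N:ℝ)^9 := by
        exact_mod_cast h5
      have e5 : (FF N (i+1) : ℝ) / (1280000 * (N : ℝ)^9) + (FF N k : ℝ) / (1280000 * (N : ℝ)^9)
          ≤ 28469/10000 := by
        rw [← add_div, div_le_iff₀ (by positivity)]
        linarith
      linarith
    · push Not at hc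
      exact ih (i+1) (by omega) h6 s t hc.le ht hts hs1 hQ

/-- the bound for pairs -/
lemma pair_opt (s t : ℝ) (hs : 67/100 ≤ s) (ht : 67/100 ≤ t) (hs1 : s ≤ 1) (ht1 : t ≤ 1)
    (hQ : s^2 + t^2 - 1013/1000 * (s * t) ≤ 2973831/4000000) :
    f (-s) + f (-t) ≤ 28469/10000 := by
  have key : ∀ a b : ℝ, 67/100 ≤ a → 67/100 ≤ b → b ≤ a → a ≤ 1 →
      a^2 + b^2 - 1013/1000 * (a * b) ≤ 2973831/4000000 → f (-a) + f (-b) ≤ 28469/10000 := by
    intro a b ha hb hba ha1 hq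
    refine row2_sound (N := 500) (i0 := 335) (by norm_num) (by norm_num) table2 335 (by norm_num)
      row2_ok a b ?_ hb hba ha1 hq
    push_cast
    linarith
  rcases le_total t s with h | h
  · exact key s t hs ht h hs1 hQ
  · have := key t s ht hs h ht1 (by linarith [mul_comm s t]); linarith

lemma f_one : f 1 = 100961/10000 := by
  simp only [f, Helper484.Kissing.p1, Helper484.Kissing.p2, Helper484.Kissing.p3,
    Helper484.Kissing.p4, Helper484.Kissing.p9]; norm_num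

lemma F_one (s : ℝ) (hs : 67/100 ≤ s) (hs1 : s ≤ 1) : f (-s) ≤ 28469/10000 := by
  have h := F_mono s 1 hs hs1 le_rfl
  have h2 : f (-1) ≤ 28469/10000 := by
    simp only [f, Helper484.Kissing.p1, Helper484.Kissing.p2, Helper484.Kissing.p3,
      Helper484.Kissing.p4, Helper484.Kissing.p9]; norm_num
  linarith

lemma F_small (s : ℝ) (hs : 67/100 ≤ s) (hs1 : s ≤ 7117/10000) : f (-s) ≤ 104/1000 := by
  have h := F_mono s (7117/10000) hs hs1 (by norm_num)
  have h2 : f (-(7117/10000)) ≤ 104/1000 := by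
    simp only [f, Helper484.Kissing.p1, Helper484.Kissing.p2, Helper484.Kissing.p3,
      Helper484.Kissing.p4, Helper484.Kissing.p9]; norm_num
  linarith

end Pool.Agent.Helper308.KR
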