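import Pool.Agent.Helper308.ZGPDefs

set_option autoImplicit false

open Filter Topology

namespace Pool.Agent.Helper308.ZGP

/-- unit multi-index -/
def avE (j : Fin 4) : Idx 4 := ⟨Pi.single j 1, fun h => by
  have := congrFun h j
  simp at this⟩

theorem avE_inj : Function.Injective avE := by
  intro i j h
  have h1 : (Pi.single i 1 : Fin 4 → ℕ) = Pi.single j 1 := congrArg Subtype.val h
  by_contra hne
  have h2 := congrFun h1 i
  rw [Pi.single_eq_same, Pi.single_eq_of_ne hne] at h2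
  exact one_ne_zero h2

/-- the three indices -/
def avK : Fin 3 → Fin 4 := ![0, 1, 3]

theorem avK_inj : Function.Injective avK := by decide

/-- the matrix of variables -/
noncomputable def avM : Matrix (Fin 3) (Fin 3) (MvPolynomial (Fin 3 × Idx 4) ℂ) :=
  Matrix.of fun i j => MvPolynomial.X (i, avE (avK j))

theorem av_eval (a : Fin 3 × Idx 4 → ℂ) :
    MvPolynomial.eval a avM.det = (Matrix.of fun i j => a (i, avE (avK j))).det := by
  rw [RingHom.map_det]
  congr 1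
  ext i j
  simp [avM]

theorem avM_ne : avM.det ≠ 0 := by
  classical
  intro h
  have h1 := av_eval (fun s => if s.2 = avE (avK s.1) then 1 else 0)
  rw [h, map_zero] at h1
  have h2 : (Matrix.of fun i j : Fin 3 => (if avE (avK j) = avE (avK i) then (1 : ℂ) else 0)) = 1 := by
    ext i j
    rw [Matrix.of_apply, Matrix.one_apply]
    by_cases hij : i = j
    · subst hij; simp
    · rw [if_neg hij, if_neg]
      intro hh
      exact hij (avK_inj (avE_inj hh)).symm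
  have h3 : (Matrix.of fun i j : Fin 3 => (if avE (avK j) = avE (avK i) then (1 : ℂ) else 0)).det = 0 :=
    h1.symm
  rw [h2, Matrix.det_one] at h3
  exact one_ne_zero h3

theorem av_eval_vars (P : MvPolynomial (Fin 3 × Idx 4) ℂ) (a b : Fin 3 × Idx 4 → ℂ)
    (h : ∀ s ∈ P.vars, a s = b s) : MvPolynomial.eval a P = MvPolynomial.eval b P :=
  MvPolynomial.eval₂Hom_congr' rfl (fun i hi _ => h i hi) rfl

theorem av_deg {ν : Fin 4 → ℕ} (h : ∑ j, ν j = 1) : ∃ j, ν = Pi.single j 1 := by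
  rw [Fin.sum_univ_four] at h
  have h' : (ν 0 = 1 ∧ ν 1 = 0 ∧ ν 2 = 0 ∧ ν 3 = 0) ∨ (ν 0 = 0 ∧ ν 1 = 1 ∧ ν 2 = 0 ∧ ν 3 = 0) ∨
      (ν 0 = 0 ∧ ν 1 = 0 ∧ ν 2 = 1 ∧ ν 3 = 0) ∨ (ν 0 = 0 ∧ ν 1 = 0 ∧ ν 2 = 0 ∧ ν 3 = 1) := by
    omega
  rcases h' with ⟨a, b, c, d⟩ | ⟨a, b, c, d⟩ | ⟨a, b, c, d⟩ | ⟨a, b, c, d⟩
  · exact ⟨0, by ext k; fin_cases k <;> simp [a, b, c, d, Pi.single_apply]⟩
  · exact ⟨1, by ext k; fin_cases k <;> simp [a, b, c, d, Pi.single_apply]⟩
  · exact ⟨2, by ext k; fin_cases k <;> simp [a, b, c, d, Pi.single_apply]⟩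
  · exact ⟨3, by ext k; fin_cases k <;> simp [a, b, c, d, Pi.single_apply]⟩

theorem av_pow (n : ℕ) : (n : ℂ) * 0 ^ (n - 1) = if n = 1 then 1 else 0 := by
  rcases n with _ | _ | n
  · simp
  · simp
  · simp

/-- the polynomial map -/
noncomputable def avZ (T : Finset (Idx 4)) (a : Fin 3 × Idx 4 → ℂ) (x : Cn 4) : Cn 3 := fun i =>
  ∑ ν ∈ T, a (i, ν) * ∏ j, x j ^ (ν.1 j)

theorem avZ_an (T : Finset (Idx 4)) (a : Fin 3 × Idx 4 → ℂ) (x : Cn 4) : AnalyticAt ℂ (avZ T a) x := by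
  have h : ∀ i, AnalyticAt ℂ (fun x => avZ T a x i) x := by
    intro i
    unfold avZ
    refine Finset.analyticAt_fun_sum _ (fun ν _ => ?_)
    refine analyticAt_const.mul ?_
    refine Finset.analyticAt_fun_prod _ (fun j _ => ?_)
    have h1 : AnalyticAt ℂ (fun x : Cn 4 => x j) x :=
      (ContinuousLinearMap.proj (R := ℂ) (φ := fun _ : Fin 4 => ℂ) j).analyticAt x
    exact h1.pow _
  exact AnalyticAt.pi h

theorem avZ_fd (T : Finset (Idx 4)) (a : Fin 3 × Idx 4 → ℂ)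
    (hT : ∀ i ν, ν ∉ T → a (i, ν) = 0) (v : Cn 4) (i : Fin 3) :
    fderiv ℂ (avZ T a) 0 v i = ∑ j, a (i, avE j) * v j := by
  classical
  have hd : HasFDerivAt (avZ T a) (fderiv ℂ (avZ T a) 0) 0 :=
    (avZ_an T a 0).differentiableAt.hasFDerivAt
  have hline : HasDerivAt (fun t : ℂ => avZ T a (t • v)) (fderiv ℂ (avZ T a) 0 v) 0 := by
    have h1 : HasDerivAt (fun t : ℂ => t • v) v 0 := by
      have := (hasDerivAt_id (0 : ℂ)).smul_const v
      simpa using this
    have h2 : HasFDerivAt (avZ T a) (fderiv ℂ (avZ T a) 0) ((0 : ℂ) • v) := by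
      rw [zero_smul]; exact hd
    exact h2.comp_hasDerivAt 0 h1
  have hi := (hasDerivAt_pi.1 hline) i
  have hs : HasDerivAt (fun t : ℂ => avZ T a (t • v) i)
      (∑ ν ∈ T, a (i, ν) * ((((∑ j, ν.1 j : ℕ) : ℂ) * 0 ^ ((∑ j, ν.1 j) - 1)) *
        ∏ j, v j ^ (ν.1 j))) 0 := by
    have e : (fun t : ℂ => avZ T a (t • v) i) =
        fun t : ℂ => ∑ ν ∈ T, a (i, ν) * (t ^ (∑ j, ν.1 j) * ∏ j, v j ^ (ν.1 j)) := by
      funext t
      unfold avZ
      apply Finset.sum_congr rfl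
      intro ν _
      congr 1
      rw [← Finset.prod_pow_eq_pow_sum, ← Finset.prod_mul_distrib]
      apply Finset.prod_congr rfl
      intro j _
      rw [Pi.smul_apply, smul_eq_mul, mul_pow]
    rw [e]
    refine HasDerivAt.fun_sum (fun ν _ => ?_)
    exact ((hasDerivAt_pow _ _).mul_const _).const_mul _
  have h1 := hi.unique hs
  rw [h1]
  let F : Idx 4 → ℂ := fun ν => a (i, ν) * ((if (∑ j, ν.1 j) = 1 then 1 else 0) *
    ∏ j, v j ^ (ν.1 j))
  have h2 : (∑ ν ∈ T, a (i, ν) * ((((∑ j, ν.1 j : ℕ) : ℂ) * 0 ^ ((∑ j, ν.1 j) - 1)) *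
        ∏ j, v j ^ (ν.1 j))) = ∑ ν ∈ T, F ν := by
    apply Finset.sum_congr rfl
    intro ν _
    rw [av_pow]
  rw [h2]
  have h3 : ∑ ν ∈ T, F ν = ∑ ν ∈ T ∪ Finset.univ.image avE, F ν := by
    apply Finset.sum_subset Finset.subset_union_left
    intro ν _ hν
    show a (i, ν) * _ = 0
    rw [hT i ν hν, zero_mul]
  have h4 : ∑ ν ∈ Finset.univ.image avE, F ν = ∑ ν ∈ T ∪ Finset.univ.image avE, F ν := by
    apply Finset.sum_subset Finset.subset_union_right
    intro ν _ hν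
    show a (i, ν) * ((if (∑ j, ν.1 j) = 1 then 1 else 0) * _) = 0
    rw [if_neg, zero_mul, mul_zero]
    intro hh
    obtain ⟨j, hj⟩ := av_deg hh
    exact hν (Finset.mem_image.2 ⟨j, Finset.mem_univ _, Subtype.ext hj.symm⟩)
  rw [h3, ← h4, Finset.sum_image (fun x _ y _ h => avE_inj h)]
  apply Finset.sum_congr rfl
  intro j _
  show a (i, avE j) * ((if (∑ k, (Pi.single j 1 : Fin 4 → ℕ) k) = 1 then 1 else 0) *
    ∏ k, v k ^ ((Pi.single j 1 : Fin 4 → ℕ) k)) = _
  rw [Finset.sum_pi_single', if_pos (by simp), one_mul]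
  congr 1
  rw [Finset.prod_eq_single j]
  · simp
  · intro k _ hk
    rw [Pi.single_eq_of_ne hk, pow_zero]
  · intro h; exact absurd (Finset.mem_univ j) h

/-- finitely many nonzero polynomials in the coefficients can be avoided -/
theorem avoid (G : Finset (MvPolynomial (Fin 3 × Idx 4) ℂ)) (hG : ∀ g ∈ G, g ≠ 0) :
    ∃ (a : Fin 3 × Idx 4 → ℂ) (z : Cn 4 → Cn 3), SeriesOf a z ∧
      (∀ g ∈ G, MvPolynomial.eval a g ≠ 0) ∧ AnalyticAt ℂ z 0 ∧ z 0 = 0 ∧
      (∀ v : Cn 4, v 2 = 0 → fderiv ℂ z 0 v = 0 → v = 0) := by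
  classical
  let P : MvPolynomial (Fin 3 × Idx 4) ℂ := avM.det * ∏ g ∈ G, g
  have hP : P ≠ 0 := mul_ne_zero avM_ne (Finset.prod_ne_zero_iff.2 hG)
  obtain ⟨b, hb⟩ : ∃ b, MvPolynomial.eval b P ≠ 0 := by
    by_contra hcon
    push Not at hcon
    exact hP (MvPolynomial.funext (fun x => by rw [hcon x, map_zero]))
  let a : Fin 3 × Idx 4 → ℂ := fun s => if s ∈ P.vars then b s else 0
  have ha : MvPolynomial.eval a P ≠ 0 := by
    rw [av_eval_vars P a b (fun s hs => if_pos hs)]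
    exact hb
  have ha' : MvPolynomial.eval a avM.det * ∏ g ∈ G, MvPolynomial.eval a g ≠ 0 := by
    have : MvPolynomial.eval a P = MvPolynomial.eval a avM.det * ∏ g ∈ G, MvPolynomial.eval a g := by
      show MvPolynomial.eval a (avM.det * ∏ g ∈ G, g) = _
      rw [map_mul, map_prod]
    rw [← this]; exact ha
  have hD := left_ne_zero_of_mul ha'
  have hg := Finset.prod_ne_zero_iff.1 (right_ne_zero_of_mul ha')
  let T : Finset (Idx 4) := P.vars.image Prod.snd
  have hT : ∀ i ν, ν ∉ T → a (i, ν) = 0 := by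
    intro i ν hν
    refine if_neg ?_
    intro hh
    exact hν (Finset.mem_image.2 ⟨(i, ν), hh, rfl⟩)
  refine ⟨a, avZ T a, ?_, hg, avZ_an T a 0, ?_, ?_⟩
  · intro i
    refine Filter.Eventually.of_forall (fun x => ?_)
    refine hasSum_sum_of_ne_finset_zero ?_
    intro ν hν
    rw [hT i ν hν, zero_mul]
  · funext i
    show ∑ ν ∈ T, a (i, ν) * ∏ j, (0 : Cn 4) j ^ (ν.1 j) = 0
    apply Finset.sum_eq_zero
    intro ν _
    obtain ⟨j, hj⟩ := Function.ne_iff.1 ν.2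
    rw [Finset.prod_eq_zero (Finset.mem_univ j), mul_zero]
    rw [Pi.zero_apply, zero_pow hj]
  · intro v hv hz
    rw [av_eval] at hD
    have h1 : (Matrix.of fun i j => a (i, avE (avK j))).mulVec (fun j => v (avK j)) = 0 := by
      funext i
      have h2 := congrFun hz i
      rw [avZ_fd T a hT v i, Fin.sum_univ_four, hv] at h2
      show ∑ j, a (i, avE (avK j)) * v (avK j) = 0
      rw [Fin.sum_univ_three]
      show a (i, avE 0) * v 0 + a (i, avE 1) * v 1 + a (i, avE 3) * v 3 = 0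
      rw [mul_zero, add_zero] at h2
      exact h2
    have h3 := Matrix.eq_zero_of_mulVec_eq_zero hD h1
    funext k
    fin_cases k
    · exact congrFun h3 0
    · exact congrFun h3 1
    · exact hv
    · exact congrFun h3 2

end Pool.Agent.Helper308.ZGP
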