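import Pool.Agent.Helper308.ZGPDefs

set_option autoImplicit false

open Filter Topology

namespace Pool.Agent.Helper308.ZGP

theorem aux_div (R R' : ℝ) (hR : 0 < R) (hRR : R < R') (h : ℂ → ℂ)
    (hd : DifferentiableOn ℂ h (Metric.ball 0 R')) (B : ℝ)
    (hB : ∀ s : ℂ, ‖s‖ ≤ R → ‖h s‖ ≤ B) (t : ℂ) (ht : ‖t‖ < R / 2) (h0 : h t = 0) :
    DifferentiableOn ℂ (dslope h t) (Metric.ball 0 R') ∧
    (∀ s : ℂ, ‖s‖ ≤ R → ‖dslope h t s‖ ≤ B / (R / 2)) ∧
    (∀ s, h s = (s - t) * dslope h t s) := by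
  have htm : t ∈ Metric.ball (0:ℂ) R' := by
    rw [mem_ball_zero_iff]; linarith
  have hdd : DifferentiableOn ℂ (dslope h t) (Metric.ball 0 R') :=
    (Complex.differentiableOn_dslope (Metric.isOpen_ball.mem_nhds htm)).2 hd
  have hfac : ∀ s, h s = (s - t) * dslope h t s := by
    intro s
    have := sub_smul_dslope h t s
    rw [h0, sub_zero, smul_eq_mul] at this
    exact this.symm
  refine ⟨hdd, ?_, hfac⟩
  intro s hs
  have hB0 : 0 ≤ B := (norm_nonneg _).trans (hB 0 (by simp [hR.le]))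
  have hcl : closure (Metric.ball (0:ℂ) R) = Metric.closedBall 0 R := closure_ball _ hR.ne'
  refine Complex.norm_le_of_forall_mem_frontier_norm_le (U := Metric.ball (0:ℂ) R)
    Metric.isBounded_ball ?_ ?_ ?_
  · apply DifferentiableOn.diffContOnCl
    rw [hcl]
    refine hdd.mono ?_
    intro z hz
    rw [mem_closedBall_zero_iff] at hz
    rw [mem_ball_zero_iff]
    linarith
  · intro z hz
    rw [frontier_ball _ hR.ne', mem_sphere_zero_iff_norm] at hz
    have h1 : R / 2 ≤ ‖z - t‖ := by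
      have := norm_sub_norm_le z t
      rw [hz] at this
      linarith
    have h2 : ‖h z‖ ≤ B := hB z hz.le
    rw [hfac z, norm_mul] at h2
    rw [le_div_iff₀ (by linarith)]
    calc ‖dslope h t z‖ * (R / 2) ≤ ‖dslope h t z‖ * ‖z - t‖ :=
          mul_le_mul_of_nonneg_left h1 (norm_nonneg _)
      _ ≤ B := by rw [mul_comm]; exact h2
  · rw [hcl, mem_closedBall_zero_iff]
    exact hs

theorem aux_prod (R R' : ℝ) (hR : 0 < R) (hRR : R < R') (S : Finset ℂ) :
    ∀ (h : ℂ → ℂ), DifferentiableOn ℂ h (Metric.ball 0 R') → ∀ B : ℝ,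
    (∀ s : ℂ, ‖s‖ ≤ R → ‖h s‖ ≤ B) → (∀ t ∈ S, ‖t‖ < R / 2) → (∀ t ∈ S, h t = 0) →
    ∀ s : ℂ, ‖s‖ ≤ R → ‖h s‖ ≤ B / (R / 2) ^ S.card * ∏ t ∈ S, ‖s - t‖ := by
  classical
  induction S using Finset.induction_on with
  | empty =>
    intro h hd B hB _ _ s hs
    simpa using hB s hs
  | insert a S ha ih =>
    intro h hd B hB hS h0 s hs
    obtain ⟨h1, h2, h3⟩ := aux_div R R' hR hRR h hd B hB a (hS a (Finset.mem_insert_self a S))
      (h0 a (Finset.mem_insert_self a S))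
    have h4 := ih (dslope h a) h1 (B / (R / 2)) h2
      (fun t ht => hS t (Finset.mem_insert_of_mem ht))
      (fun t ht => by
        have h5 := h0 t (Finset.mem_insert_of_mem ht)
        rw [h3 t] at h5
        rcases mul_eq_zero.1 h5 with h6 | h6
        · exfalso
          rw [sub_eq_zero] at h6
          rw [h6] at ht
          exact ha ht
        · exact h6) s hs
    rw [Finset.card_insert_of_notMem ha, Finset.prod_insert ha, h3 s, norm_mul]
    calc ‖s - a‖ * ‖dslope h a s‖ ≤ ‖s - a‖ * (B / (R / 2) / (R / 2) ^ S.card * ∏ t ∈ S, ‖s - t‖) :=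
          mul_le_mul_of_nonneg_left h4 (norm_nonneg _)
      _ = _ := by
          rw [pow_succ, div_div, mul_comm (R / 2) ((R / 2) ^ S.card)]
          ring

/-- counting lemma: `F (u, ·)` has at most `m` zeros near `0`, fewer if there is a double one. -/
theorem count_lemma {E : Type*} [NormedAddCommGroup E] [NormedSpace ℂ E]
    (F : E × ℂ → ℂ) (hF : AnalyticAt ℂ F (0, 0)) (m : ℕ)
    (hm : analyticOrderAt (fun s => F (0, s)) 0 = m) :
    ∃ ρ > 0, ∀ᶠ u in 𝓝 (0 : E),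
      {s : ℂ | ‖s‖ < ρ ∧ F (u, s) = 0}.Finite ∧
      ((∃ s, ‖s‖ < ρ ∧ F (u, s) = 0 ∧ deriv (fun s => F (u, s)) s = 0) →
        {s : ℂ | ‖s‖ < ρ ∧ F (u, s) = 0}.ncard < m) := by
  classical
  -- analytic region
  obtain ⟨r0, hr0, hAn⟩ := Metric.eventually_nhds_iff_ball.1 hF.eventually_analyticAt
  have hAn' : ∀ (u : E) (s : ℂ), ‖u‖ < r0 → ‖s‖ < r0 → AnalyticAt ℂ F (u, s) := by
    intro u s hu hs
    apply hAn
    rw [Metric.mem_ball, Prod.dist_eq, max_lt_iff]
    exact ⟨by simpa using hu, by simpa using hs⟩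
  have hF0 : AnalyticAt ℂ (fun s : ℂ => F (0, s)) 0 := by
    have h1 : AnalyticAt ℂ (fun s : ℂ => ((0 : E), s)) 0 := by fun_prop
    exact AnalyticAt.comp' (f := fun s : ℂ => ((0 : E), s)) hF h1
  obtain ⟨g, hg, hg0, hgF⟩ := (hF0.analyticOrderAt_eq_natCast).1 hm
  -- lower bound
  set c : ℝ := ‖g 0‖ / 2 with hc
  have hcpos : 0 < c := by
    have := norm_pos_iff.2 hg0
    positivity
  have hlow : ∀ᶠ s in 𝓝 (0:ℂ), c * ‖s‖ ^ m ≤ ‖F (0, s)‖ := by
    have h1 : ∀ᶠ s in 𝓝 (0:ℂ), c < ‖g s‖ := by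
      have h2 : ContinuousAt (fun s => ‖g s‖) 0 := hg.continuousAt.norm
      have h3 : c < ‖g 0‖ := by
        have := norm_pos_iff.2 hg0
        linarith
      exact h2.eventually_const_lt h3
    filter_upwards [h1, hgF] with s hs1 hs2
    rw [hs2, sub_zero, smul_eq_mul, norm_mul, norm_pow, mul_comm]
    exact mul_le_mul_of_nonneg_left hs1.le (by positivity)
  obtain ⟨r1, hr1, hlow'⟩ := Metric.eventually_nhds_iff_ball.1 hlow
  set R : ℝ := min r0 r1 / 2 with hRdef
  have hmin : 0 < min r0 r1 := lt_min hr0 hr1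
  have hR : 0 < R := by positivity
  have hRr0 : R < r0 := by
    have := min_le_left r0 r1
    linarith
  have hRr1 : R < r1 := by
    have := min_le_right r0 r1
    linarith
  have hlowR : ∀ s : ℂ, ‖s‖ ≤ R → c * ‖s‖ ^ m ≤ ‖F (0, s)‖ := by
    intro s hs
    apply hlow'
    rw [mem_ball_zero_iff]
    linarith
  -- bound on the sup
  have hcont0 : ContinuousOn (fun s : ℂ => F (0, s)) (Metric.closedBall 0 R) := by
    intro s hs
    rw [mem_closedBall_zero_iff] at hs
    have h1 : ContinuousAt F ((0 : E), s) := (hAn' 0 s (by simpa using hr0) (by linarith)).continuousAt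
    have h2 : ContinuousAt (fun s : ℂ => ((0 : E), s)) s := by fun_prop
    exact (ContinuousAt.comp (f := fun s : ℂ => ((0 : E), s)) h1 h2).continuousWithinAt
  obtain ⟨B0, hB0⟩ := (isCompact_closedBall (0:ℂ) R).exists_bound_of_continuousOn hcont0
  set B : ℝ := B0 + 1 with hBdef
  have hB0' : 0 ≤ B0 := (norm_nonneg _).trans (hB0 0 (by simp [hR.le]))
  have hBpos : 0 < B := by linarith
  set C : ℝ := B / (R / 2) ^ (m + 1) with hCdef
  have hCpos : 0 < C := by positivity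
  -- choice of s0
  set δ : ℝ := min (R / 4) (c / (2 * (C * 2 ^ (m + 1)))) with hδdef
  have hδpos : 0 < δ := lt_min (by positivity) (by positivity)
  have hδR : δ ≤ R / 4 := min_le_left _ _
  have hδc : C * (2 * δ) ^ (m + 1) ≤ c * δ ^ m / 2 := by
    have h1 : δ ≤ c / (2 * (C * 2 ^ (m + 1))) := min_le_right _ _
    rw [le_div_iff₀ (by positivity)] at h1
    have h2 : C * (2 * δ) ^ (m + 1) = (δ * (2 * (C * 2 ^ (m + 1)))) * δ ^ m / 2 := by
      rw [mul_pow, pow_succ δ m]; ring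
    rw [h2]
    have h3 : 0 ≤ δ ^ m := by positivity
    have := mul_le_mul_of_nonneg_right h1 h3
    linarith
  set ε : ℝ := min 1 (c * δ ^ m / 2) with hεdef
  have hεpos : 0 < ε := lt_min one_pos (by positivity)
  have hε1 : ε ≤ 1 := min_le_left _ _
  have hε2 : ε ≤ c * δ ^ m / 2 := min_le_right _ _
  have huni : ∀ᶠ u in 𝓝 (0 : E), ∀ s ∈ Metric.closedBall (0:ℂ) R, ‖F (u, s) - F (0, s)‖ < ε := by
    apply (isCompact_closedBall (0:ℂ) R).eventually_forall_of_forall_eventually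
    intro s hs
    rw [mem_closedBall_zero_iff] at hs
    have h1 : ContinuousAt F ((0 : E), s) := (hAn' 0 s (by simpa using hr0) (by linarith)).continuousAt
    have h3 : ContinuousAt (fun z : E × ℂ => F ((0 : E), z.2)) ((0 : E), s) := by
      have h2 : ContinuousAt (fun z : E × ℂ => ((0 : E), z.2)) ((0 : E), s) := by fun_prop
      exact ContinuousAt.comp (f := fun z : E × ℂ => ((0 : E), z.2)) h1 h2
    have h4 : ContinuousAt (fun z : E × ℂ => ‖F (z.1, z.2) - F ((0 : E), z.2)‖) ((0 : E), s) :=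
      (h1.sub h3).norm
    have h5 : ‖F ((0 : E), s) - F ((0 : E), s)‖ < ε := by simpa using hεpos
    exact h4.eventually_lt_const h5
  refine ⟨R / 2, by positivity, ?_⟩
  have hsmall : ∀ᶠ u in 𝓝 (0 : E), ‖u‖ < r0 := by
    have := Metric.ball_mem_nhds (0 : E) hr0
    filter_upwards [this] with u hu
    simpa using hu
  filter_upwards [huni, hsmall] with u hu hus
  have hdiff : DifferentiableOn ℂ (fun s => F (u, s)) (Metric.ball 0 r0) := by
    intro s hs
    rw [mem_ball_zero_iff] at hs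
    have h1 := (hAn' u s hus hs).differentiableAt
    have h2 : DifferentiableAt ℂ (fun s : ℂ => (u, s)) s := by fun_prop
    exact (DifferentiableAt.comp s (f := fun s : ℂ => (u, s)) h1 h2).differentiableWithinAt
  have hbd : ∀ s : ℂ, ‖s‖ ≤ R → ‖F (u, s)‖ ≤ B := by
    intro s hs
    have h1 := hu s (by simpa using hs)
    have h2 := hB0 s (by simpa using hs)
    have h3 : F (u, s) = (F (u, s) - F (0, s)) + F (0, s) := by ring
    rw [h3]
    refine (norm_add_le _ _).trans ?_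
    linarith
  -- zeros are small
  have hzs : ∀ s : ℂ, ‖s‖ < R / 2 → F (u, s) = 0 → ‖s‖ < δ := by
    intro s hs h0
    by_contra hcon
    push Not at hcon
    have h1 := hu s (by rw [mem_closedBall_zero_iff]; linarith)
    rw [h0, zero_sub, norm_neg] at h1
    have h2 := hlowR s (by linarith)
    have h3 : c * δ ^ m ≤ c * ‖s‖ ^ m :=
      mul_le_mul_of_nonneg_left (pow_le_pow_left₀ hδpos.le hcon m) hcpos.le
    have h4 : 0 < c * δ ^ m := by positivity
    linarith
  have hδn : ‖(δ : ℂ)‖ = δ := by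
    rw [Complex.norm_real, Real.norm_eq_abs, abs_of_pos hδpos]
  have hs0 : C * (2 * δ) ^ (m + 1) < ‖F (u, (δ : ℂ))‖ := by
    have h1 := hu (δ : ℂ) (by rw [mem_closedBall_zero_iff, hδn]; linarith)
    have h2 := hlowR (δ : ℂ) (by rw [hδn]; linarith)
    rw [hδn] at h2
    have h3 : F (0, (δ : ℂ)) = F (u, (δ : ℂ)) - (F (u, (δ : ℂ)) - F (0, (δ : ℂ))) := by ring
    rw [h3] at h2
    have h4 := norm_sub_le (F (u, (δ : ℂ))) (F (u, (δ : ℂ)) - F (0, (δ : ℂ)))
    linarith
  have hprodle : ∀ S : Finset ℂ, (∀ t ∈ S, ‖t‖ < R / 2 ∧ F (u, t) = 0) →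
      ∏ t ∈ S, ‖(δ : ℂ) - t‖ ≤ (2 * δ) ^ S.card := by
    intro S hS
    rw [← Finset.prod_const]
    refine Finset.prod_le_prod (fun t _ => norm_nonneg _) ?_
    intro t ht
    have h1 := hzs t (hS t ht).1 (hS t ht).2
    refine (norm_sub_le _ _).trans ?_
    rw [hδn]
    linarith
  have claimA : ∀ S : Finset ℂ, (∀ t ∈ S, ‖t‖ < R / 2 ∧ F (u, t) = 0) → S.card ≤ m := by
    intro S hS
    by_contra hcon
    push Not at hcon
    obtain ⟨S', hS'S, hS'c⟩ := Finset.exists_subset_card_eq (show m + 1 ≤ S.card by omega)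
    have hS' : ∀ t ∈ S', ‖t‖ < R / 2 ∧ F (u, t) = 0 := fun t ht => hS t (hS'S ht)
    have h1 := aux_prod R r0 hR hRr0 S' (fun s => F (u, s)) hdiff B hbd (fun t ht => (hS' t ht).1)
      (fun t ht => (hS' t ht).2) (δ : ℂ) (by rw [hδn]; linarith)
    have h2 := hprodle S' hS'
    rw [hS'c] at h1 h2
    have h3 : B / (R / 2) ^ (m + 1) * ∏ t ∈ S', ‖(δ : ℂ) - t‖ ≤ C * (2 * δ) ^ (m + 1) :=
      mul_le_mul_of_nonneg_left h2 hCpos.le
    linarith
  have hfin : {s : ℂ | ‖s‖ < R / 2 ∧ F (u, s) = 0}.Finite := by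
    by_contra hinf
    obtain ⟨S, hS, hSc⟩ := (show Set.Infinite {s : ℂ | ‖s‖ < R / 2 ∧ F (u, s) = 0}
      from hinf).exists_subset_card_eq (m + 1)
    have := claimA S (fun t ht => hS ht)
    omega
  refine ⟨hfin, ?_⟩
  rintro ⟨t0, ht0, hFt0, hdt0⟩
  rw [Set.ncard_eq_toFinset_card _ hfin]
  by_contra hcon
  push Not at hcon
  have ht0m : t0 ∈ hfin.toFinset := by
    rw [Set.Finite.mem_toFinset]
    exact ⟨ht0, hFt0⟩
  have hm1 : 1 ≤ m := by
    have := claimA {t0} (fun t ht => by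
      rw [Finset.mem_singleton] at ht
      subst ht
      exact ⟨ht0, hFt0⟩)
    simpa using this
  obtain ⟨S, hS1, hS2, hSc⟩ := Finset.exists_subsuperset_card_eq (s := {t0}) (t := hfin.toFinset)
    (Finset.singleton_subset_iff.2 ht0m) (by simpa using hm1) hcon
  have ht0S : t0 ∈ S := hS1 (Finset.mem_singleton_self t0)
  have hS : ∀ t ∈ S, ‖t‖ < R / 2 ∧ F (u, t) = 0 := by
    intro t ht
    have := hS2 ht
    rw [Set.Finite.mem_toFinset] at this
    exact this
  obtain ⟨h1, h2, h3⟩ := aux_div R r0 hR hRr0 (fun s => F (u, s)) hdiff B hbd t0 ht0 hFt0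
  have h4 := aux_prod R r0 hR hRr0 S (dslope (fun s => F (u, s)) t0) h1 (B / (R / 2)) h2
    (fun t ht => (hS t ht).1)
    (fun t ht => by
      by_cases htt : t = t0
      · subst htt
        rw [dslope_same]
        exact hdt0
      · have h5 := h3 t
        rw [(hS t ht).2] at h5
        rcases mul_eq_zero.1 h5.symm with h6 | h6
        · exact absurd (sub_eq_zero.1 h6) htt
        · exact h6) (δ : ℂ) (by rw [hδn]; linarith)
  have h5 := hprodle S hS
  rw [hSc] at h4 h5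
  have h6 : ‖F (u, (δ : ℂ))‖ = ‖(δ : ℂ) - t0‖ * ‖dslope (fun s => F (u, s)) t0 (δ : ℂ)‖ := by
    rw [← norm_mul, ← h3 (δ : ℂ)]
  have h7 : ‖(δ : ℂ) - t0‖ ≤ 2 * δ := by
    have h8 := hzs t0 ht0 hFt0
    refine (norm_sub_le _ _).trans ?_
    rw [hδn]
    linarith
  have h8 : ‖F (u, (δ : ℂ))‖ ≤ (2 * δ) * (B / (R / 2) / (R / 2) ^ m * (2 * δ) ^ m) := by
    rw [h6]
    refine mul_le_mul h7 (h4.trans ?_) (norm_nonneg _) (by positivity)
    exact mul_le_mul_of_nonneg_left h5 (by positivity)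
  have h9 : (2 * δ) * (B / (R / 2) / (R / 2) ^ m * (2 * δ) ^ m) = C * (2 * δ) ^ (m + 1) := by
    rw [hCdef, pow_succ, pow_succ, div_div, mul_comm (R / 2) ((R / 2) ^ m)]
    ring
  rw [h9] at h8
  linarith

end Pool.Agent.Helper308.ZGP
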