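import Pool.Agent.Helper308.ZGPDefs

set_option autoImplicit false

open Filter Topology

namespace Pool.Agent.Helper308.ZGP

theorem icf_roots (w : ℂ) : {X : ℂ | X ^ 6 = w}.Finite ∧ {X : ℂ | X ^ 6 = w}.ncard ≤ 6 ∧
    (w = 0 ↔ {X : ℂ | X ^ 6 = w}.ncard < 6) := by
  by_cases hw : w = 0
  · subst hw
    have h : {X : ℂ | X ^ 6 = 0} = {0} := by
      ext X
      simp
    rw [h]
    simp
  · obtain ⟨X0, hX0⟩ := IsAlgClosed.exists_pow_nat_eq w (n := 6) (by norm_num)
    have hX0n : X0 ≠ 0 := by
      rintro rfl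
      apply hw
      rw [← hX0]
      norm_num
    have hs : {X : ℂ | X ^ 6 = w} = (fun z => X0 * z) '' (Polynomial.nthRootsFinset 6 (1 : ℂ) : Set ℂ) := by
      ext X
      simp only [Set.mem_setOf_eq, Set.mem_image, Finset.mem_coe,
        Polynomial.mem_nthRootsFinset (show 0 < 6 by norm_num)]
      constructor
      · intro h
        refine ⟨X / X0, ?_, ?_⟩
        · rw [div_pow, h, hX0, div_self hw]
        · field_simp
      · rintro ⟨z, hz, rfl⟩
        rw [mul_pow, hz, hX0, mul_one]
    have hc : {X : ℂ | X ^ 6 = w}.ncard = 6 := by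
      rw [hs, Set.ncard_image_of_injective _ (mul_right_injective₀ hX0n), Set.ncard_coe_finset]
      exact (Complex.isPrimitiveRoot_exp 6 (by norm_num)).card_nthRootsFinset
    refine ⟨?_, hc.le, ?_⟩
    · rw [hs]
      exact (Finset.finite_toSet _).image _
    · rw [hc]
      simp [hw]

theorem icf_an : AnalyticAt ℂ (fun u : Cn 3 => u 1 ^ 3 + u 2 * u 0 ^ 4 * u 1 + u 0 ^ 6) 0 := by
  have hp : ∀ i : Fin 3, AnalyticAt ℂ (fun u : Cn 3 => u i) 0 := fun i =>
    (ContinuousLinearMap.proj (R := ℂ) (φ := fun _ : Fin 3 => ℂ) i).analyticAt _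
  exact (((hp 1).pow 3).add (((hp 2).mul ((hp 0).pow 4)).mul (hp 1))).add ((hp 0).pow 6)

/-- the critical variety of the `x`-projection of `z^3 + t y^4 z + y^6 = x^6` -/
theorem isCrit_first : IsCrit fE (fun p : Cn 4 => (![p 1, p 2, p 3] : Cn 3))
    (fun u : Cn 3 => u 1 ^ 3 + u 2 * u 0 ^ 4 * u 1 + u 0 ^ 6) := by
  refine ⟨⟨icf_an, by simp, ?_⟩, 6, ?_, ?_⟩
  · intro hev
    have ht : Tendsto (fun s : ℂ => (![0, s, 0] : Cn 3)) (𝓝 0) (𝓝 0) := by
      have hc : Continuous (fun s : ℂ => (![0, s, 0] : Cn 3)) := by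
        refine continuous_pi fun i => ?_
        fin_cases i
        · exact continuous_const
        · exact continuous_id
        · exact continuous_const
      have h0 : (![0, (0:ℂ), 0] : Cn 3) = 0 := by
        ext i; fin_cases i <;> rfl
      have := hc.tendsto 0
      rwa [h0] at this
    have h1 := ht.eventually hev
    have h2 : ∀ᶠ s in 𝓝 (0 : ℂ), s = 0 := by
      filter_upwards [h1] with s hs
      simpa using hs
    have h3 : ∀ᶠ s in 𝓝[≠] (0 : ℂ), False := by
      filter_upwards [nhdsWithin_le_nhds h2, self_mem_nhdsWithin] with s hs hs'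
      exact hs' hs
    exact h3.exists.elim fun _ h => h
  · refine ⟨fun s => s • (![1, 0, 0, 0] : Cn 4), ?_, by simp, ?_, ?_, ?_⟩
    · exact analyticAt_id.smul analyticAt_const
    · have h := ((hasDerivAt_id (0 : ℂ)).smul_const (![1, 0, 0, 0] : Cn 4)).deriv
      simp only [id] at h
      rw [h]
      intro hc
      have := congrFun hc 0
      simp at this
    · refine Filter.Eventually.of_forall fun s => ?_
      ext i
      fin_cases i <;> simp
    · have he : (fun s : ℂ => fE (s • (![1, 0, 0, 0] : Cn 4))) = fun s => -(s ^ 6) := by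
        funext s
        simp [fE]
      rw [he]
      have ha : AnalyticAt ℂ (fun s : ℂ => -(s ^ 6)) 0 := (analyticAt_id.pow 6).neg
      have := (ha.analyticOrderAt_eq_natCast (n := 6)).mpr ⟨fun _ => -1, analyticAt_const, by norm_num,
        Filter.Eventually.of_forall fun s => by simp⟩
      exact this
  · filter_upwards [self_mem_nhdsWithin] with ε hε
    have hε' : (0:ℝ) < ε := hε
    have hca : ContinuousAt (fun u : Cn 3 => u 1 ^ 3 + u 2 * u 0 ^ 4 * u 1 + u 0 ^ 6) 0 :=
      icf_an.continuousAt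
    have h1 : ∀ᶠ u in 𝓝 (0 : Cn 3), ‖u 1 ^ 3 + u 2 * u 0 ^ 4 * u 1 + u 0 ^ 6‖ < ε ^ 6 := by
      refine hca.norm.eventually_lt continuousAt_const ?_
      simp
      positivity
    have h2 : ∀ᶠ u in 𝓝 (0 : Cn 3), ‖u‖ < ε := by
      refine (continuous_norm.continuousAt (x := (0 : Cn 3))).eventually_lt continuousAt_const ?_
      simpa using hε'
    filter_upwards [h1, h2] with u hu1 hu2
    have hinj : Function.Injective (fun X : ℂ => (![X, u 0, u 1, u 2] : Cn 4)) := by
      intro X Y hXY
      exact congrFun hXY 0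
    have hfib : fib fE (fun p : Cn 4 => (![p 1, p 2, p 3] : Cn 3)) ε u
        = (fun X : ℂ => (![X, u 0, u 1, u 2] : Cn 4)) ''
          {X : ℂ | X ^ 6 = u 1 ^ 3 + u 2 * u 0 ^ 4 * u 1 + u 0 ^ 6} := by
      ext x
      constructor
      · rintro ⟨_, hx2, hx3⟩
        have e0 : x 1 = u 0 := congrFun hx3 0
        have e1 : x 2 = u 1 := congrFun hx3 1
        have e2 : x 3 = u 2 := congrFun hx3 2
        refine ⟨x 0, ?_, ?_⟩
        · simp only [Set.mem_setOf_eq]
          rw [fE, e0, e1, e2] at hx2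
          linear_combination -hx2
        · ext i
          fin_cases i
          · rfl
          · exact e0.symm
          · exact e1.symm
          · exact e2.symm
      · rintro ⟨X, hX, rfl⟩
        simp only [Set.mem_setOf_eq] at hX
        refine ⟨?_, ?_, ?_⟩
        · rw [pi_norm_lt_iff hε']
          rw [pi_norm_lt_iff hε'] at hu2
          intro i
          fin_cases i
          · have h3 : ‖X‖ ^ 6 < ε ^ 6 := by
              rw [← norm_pow, hX]
              exact hu1
            exact lt_of_pow_lt_pow_left₀ 6 hε'.le h3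
          · exact hu2 0
          · exact hu2 1
          · exact hu2 2
        · simp only [fE, Matrix.cons_val]
          rw [hX]
          ring
        · ext i
          fin_cases i <;> rfl
    obtain ⟨r1, r2, r3⟩ := icf_roots (u 1 ^ 3 + u 2 * u 0 ^ 4 * u 1 + u 0 ^ 6)
    rw [hfib, Set.ncard_image_of_injective _ hinj]
    exact ⟨r1.image _, r2, r3⟩

end Pool.Agent.Helper308.ZGP
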