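import Pool.Agent.Helper308.ZGPDefs

set_option autoImplicit false

open Filter Topology

namespace Pool.Agent.Helper308.ZGP

theorem j21732_disc {t : ℂ} (ht : ‖t‖ < 1) (h : 4 * t ^ 3 + 27 = 0) : False := by
  have h1 : 4 * t ^ 3 = -27 := by linear_combination h
  have h2 : ‖4 * t ^ 3‖ = 27 := by rw [h1]; simp
  rw [norm_mul, norm_pow] at h2
  have h3 : ‖t‖ ^ 3 ≤ 1 := pow_le_one₀ (norm_nonneg _) ht.le
  have h4 : ‖(4 : ℂ)‖ = 4 := by simp
  rw [h4] at h2
  linarith

theorem j21732_roots {t : ℂ} (ht : ‖t‖ < 1) : ∃ a b c : ℂ, a ≠ b ∧ a ≠ c ∧ b ≠ c ∧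
    ∀ L : ℂ, L ^ 3 + t * L + 1 = (L - a) * (L - b) * (L - c) := by
  obtain ⟨a, ha⟩ : ∃ a : ℂ, a ^ 3 + t * a + 1 = 0 := by
    have hdeg : (Polynomial.X ^ 3 + Polynomial.C t * Polynomial.X + Polynomial.C 1 :
        Polynomial ℂ).degree = 3 := by
      compute_degree!
    obtain ⟨a, ha⟩ := IsAlgClosed.exists_root
      (Polynomial.X ^ 3 + Polynomial.C t * Polynomial.X + Polynomial.C 1 : Polynomial ℂ)
      (by rw [hdeg]; norm_num)
    refine ⟨a, ?_⟩
    simpa [Polynomial.IsRoot] using ha
  obtain ⟨s, hs⟩ := IsAlgClosed.exists_eq_mul_self (-3 * a ^ 2 - 4 * t)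
  refine ⟨a, (-a + s) / 2, (-a - s) / 2, ?_, ?_, ?_, ?_⟩
  · intro h
    have h1 : s = 3 * a := by linear_combination -2 * h
    rw [h1] at hs
    have h2 : t = -3 * a ^ 2 := by linear_combination (-1 / 4) * hs
    rw [h2] at ha
    refine j21732_disc ht ?_
    rw [h2]
    linear_combination (27) * (2 * a ^ 3 + 1) * ha
  · intro h
    have h1 : s = -(3 * a) := by linear_combination 2 * h
    rw [h1] at hs
    have h2 : t = -3 * a ^ 2 := by linear_combination (-1 / 4) * hs
    rw [h2] at ha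
    refine j21732_disc ht ?_
    rw [h2]
    linear_combination (27) * (2 * a ^ 3 + 1) * ha
  · intro h
    have h1 : s = 0 := by linear_combination h
    rw [h1] at hs
    have h2 : t = -3 / 4 * a ^ 2 := by linear_combination (-1 / 4) * hs
    rw [h2] at ha
    refine j21732_disc ht ?_
    rw [h2]
    linear_combination (-27 / 4) * (a ^ 3 - 4) * ha
  · intro L
    linear_combination ha - (L - a) / 4 * hs

theorem j21732_bound {t L : ℂ} (ht : ‖t‖ < 1) (h : L ^ 3 + t * L + 1 = 0) : ‖L‖ ≤ 2 := by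
  by_contra hc
  push Not at hc
  have h1 : L ^ 3 = -(t * L + 1) := by linear_combination h
  have h2 : ‖L‖ ^ 3 ≤ ‖L‖ + 1 := by
    calc ‖L‖ ^ 3 = ‖L ^ 3‖ := (norm_pow _ _).symm
      _ = ‖t * L + 1‖ := by rw [h1, norm_neg]
      _ ≤ ‖t * L‖ + ‖(1 : ℂ)‖ := norm_add_le _ _
      _ = ‖t‖ * ‖L‖ + 1 := by rw [norm_mul, norm_one]
      _ ≤ 1 * ‖L‖ + 1 := by
        have := mul_le_mul_of_nonneg_right ht.le (norm_nonneg L)
        linarith
      _ = ‖L‖ + 1 := by ring
  nlinarith [norm_nonneg L, sq_nonneg (‖L‖ - 2), mul_pos (sub_pos.2 hc) (sub_pos.2 hc)]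

theorem j21732_not_ev : ¬ ∀ᶠ s in 𝓝 (0 : ℂ), s = 0 := by
  intro h
  obtain ⟨d, hd, h1⟩ := Metric.eventually_nhds_iff.1 h
  have h2 := @h1 ((d / 2 : ℝ) : ℂ) (by
    rw [dist_zero_right, Complex.norm_real, Real.norm_eq_abs, abs_of_pos (by linarith)]
    linarith)
  have h3 : d / 2 = 0 := by exact_mod_cast h2
  linarith

/-- the critical variety of the `z`-projection of `z^3 + t y^4 z + y^6 = 0` -/
theorem isCrit_second : IsCrit (fun u : Cn 3 => u 1 ^ 3 + u 2 * u 0 ^ 4 * u 1 + u 0 ^ 6)
    (fun u : Cn 3 => (![u 0, u 2] : Cn 2)) (fun w : Cn 2 => w 0) := by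
  refine ⟨⟨?_, ?_, ?_⟩, 3, ⟨fun s => ![0, s, 0], ?_, ?_, ?_, ?_, ?_⟩, ?_⟩
  · exact (ContinuousLinearMap.proj (R := ℂ) (φ := fun _ : Fin 2 => ℂ) 0).analyticAt 0
  · rfl
  · intro h
    have hc : Filter.Tendsto (fun s : ℂ => (![s, 0] : Cn 2)) (𝓝 0) (𝓝 0) := by
      have h1 : Continuous (fun s : ℂ => (![s, 0] : Cn 2)) := by
        refine continuous_pi fun i => ?_
        fin_cases i
        · exact continuous_id
        · exact continuous_const
      have h0 := h1.tendsto 0
      have h2 : (![(0 : ℂ), 0] : Cn 2) = 0 := by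
        funext i
        fin_cases i <;> rfl
      rwa [h2] at h0
    exact j21732_not_ev (hc.eventually h)
  · refine AnalyticAt.pi fun i => ?_
    fin_cases i
    · exact analyticAt_const
    · exact analyticAt_id
    · exact analyticAt_const
  · funext i
    fin_cases i <;> rfl
  · have h1 : HasDerivAt (fun s : ℂ => (![0, s, 0] : Cn 3)) ![0, 1, 0] 0 := by
      refine hasDerivAt_pi.2 fun i => ?_
      fin_cases i
      · exact hasDerivAt_const _ _
      · exact hasDerivAt_id _
      · exact hasDerivAt_const _ _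
    rw [h1.deriv]
    intro h
    have := congrFun h 1
    simp at this
  · refine Eventually.of_forall fun s => ?_
    funext i
    fin_cases i <;> rfl
  · have hf : (fun s : ℂ => (fun u : Cn 3 => u 1 ^ 3 + u 2 * u 0 ^ 4 * u 1 + u 0 ^ 6)
        ((fun s => ![0, s, 0]) s)) = fun s : ℂ => s ^ 3 := by
      funext s
      simp
    rw [hf]
    have ha : AnalyticAt ℂ (fun s : ℂ => s ^ 3) 0 := by fun_prop
    refine (ha.analyticOrderAt_eq_natCast).2 ⟨fun _ => 1, analyticAt_const, one_ne_zero, ?_⟩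
    refine Eventually.of_forall fun s => ?_
    simp
  · filter_upwards [self_mem_nhdsWithin] with ε hε
    have hε' : 0 < ε := hε
    have hev : ∀ᶠ u in 𝓝 (0 : Cn 2), ‖u‖ < min (min 1 ε) (ε / 2) := by
      have h1 : 0 < min (min 1 ε) (ε / 2) := by positivity
      have h2 : Filter.Tendsto (fun u : Cn 2 => ‖u‖) (𝓝 0) (𝓝 0) := by
        have := (continuous_norm (E := Cn 2)).tendsto 0
        simpa using this
      exact h2.eventually (gt_mem_nhds h1)
    filter_upwards [hev] with u hu
    have hu1 : ‖u‖ < 1 := lt_of_lt_of_le hu ((min_le_left _ _).trans (min_le_left _ _))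
    have hu2 : ‖u‖ < ε := lt_of_lt_of_le hu ((min_le_left _ _).trans (min_le_right _ _))
    have hu3 : ‖u‖ < ε / 2 := lt_of_lt_of_le hu (min_le_right _ _)
    have hy := norm_le_pi_norm u 0
    have ht := norm_le_pi_norm u 1
    set y := u 0 with hydef
    set t := u 1 with htdef
    have hmem : ∀ x : Cn 3, x ∈ fib (fun u : Cn 3 => u 1 ^ 3 + u 2 * u 0 ^ 4 * u 1 + u 0 ^ 6)
        (fun u : Cn 3 => (![u 0, u 2] : Cn 2)) ε u ↔
        x 0 = y ∧ x 2 = t ∧ ‖x 1‖ < ε ∧ x 1 ^ 3 + t * y ^ 4 * x 1 + y ^ 6 = 0 := by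
      intro x
      constructor
      · rintro ⟨h1, h2, h3⟩
        have h4 : x 0 = y := congrFun h3 0
        have h5 : x 2 = t := congrFun h3 1
        refine ⟨h4, h5, lt_of_le_of_lt (norm_le_pi_norm x 1) h1, ?_⟩
        rw [← h4, ← h5]
        exact h2
      · rintro ⟨h1, h2, h3, h4⟩
        refine ⟨?_, ?_, ?_⟩
        · rw [pi_norm_lt_iff hε']
          intro i
          fin_cases i
          · show ‖x 0‖ < ε
            rw [h1]
            linarith
          · exact h3
          · show ‖x 2‖ < ε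
            rw [h2]
            linarith
        · show x 1 ^ 3 + x 2 * x 0 ^ 4 * x 1 + x 0 ^ 6 = 0
          rw [h1, h2]
          exact h4
        · funext i
          fin_cases i
          · exact h1
          · exact h2
    by_cases hy0 : y = 0
    · have hfib : fib (fun u : Cn 3 => u 1 ^ 3 + u 2 * u 0 ^ 4 * u 1 + u 0 ^ 6)
          (fun u : Cn 3 => (![u 0, u 2] : Cn 2)) ε u = {![0, 0, t]} := by
        ext x
        rw [hmem, Set.mem_singleton_iff]
        constructor
        · rintro ⟨h1, h2, h3, h4⟩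
          rw [hy0] at h1 h4
          have h5 : x 1 = 0 := by
            have h6 : x 1 ^ 3 = 0 := by linear_combination h4
            exact pow_eq_zero_iff (by norm_num) |>.1 h6
          funext i
          fin_cases i
          · exact h1
          · exact h5
          · exact h2
        · rintro rfl
          refine ⟨?_, rfl, ?_, ?_⟩
          · exact hy0.symm
          · show ‖(0 : ℂ)‖ < ε
            simpa using hε'
          · show (0 : ℂ) ^ 3 + t * y ^ 4 * 0 + y ^ 6 = 0
            rw [hy0]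
            ring
      rw [hfib]
      refine ⟨Set.finite_singleton _, ?_, ?_⟩
      · rw [Set.ncard_singleton]
        norm_num
      · rw [Set.ncard_singleton]
        simp [hy0]
    · have ht1 : ‖t‖ < 1 := lt_of_le_of_lt ht hu1
      obtain ⟨a, b, c, hab, hac, hbc, hL⟩ := j21732_roots ht1
      have hroot : ∀ L : ℂ, L ^ 3 + t * L + 1 = 0 → ‖y ^ 2 * L‖ < ε := by
        intro L hL'
        have h1 := j21732_bound ht1 hL'
        rw [norm_mul, norm_pow]
        have h2 : ‖y‖ ^ 2 ≤ ‖y‖ := by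
          have h3 : ‖y‖ ≤ 1 := by linarith
          nlinarith [norm_nonneg y]
        have h4 : ‖y‖ ^ 2 * ‖L‖ ≤ ‖y‖ * 2 :=
          mul_le_mul h2 h1 (norm_nonneg _) (norm_nonneg _)
        linarith
      have hy2 : y ^ 2 ≠ 0 := pow_ne_zero _ hy0
      have hfib : fib (fun u : Cn 3 => u 1 ^ 3 + u 2 * u 0 ^ 4 * u 1 + u 0 ^ 6)
          (fun u : Cn 3 => (![u 0, u 2] : Cn 2)) ε u =
          {![y, y ^ 2 * a, t], ![y, y ^ 2 * b, t], ![y, y ^ 2 * c, t]} := by
        ext x
        rw [hmem]
        simp only [Set.mem_insert_iff, Set.mem_singleton_iff]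
        have key : ∀ L : ℂ, L ^ 3 + t * L + 1 = 0 → x = ![y, y ^ 2 * L, t] →
            x 0 = y ∧ x 2 = t ∧ ‖x 1‖ < ε ∧ x 1 ^ 3 + t * y ^ 4 * x 1 + y ^ 6 = 0 := by
          rintro L hL' rfl
          refine ⟨rfl, rfl, hroot L hL', ?_⟩
          show (y ^ 2 * L) ^ 3 + t * y ^ 4 * (y ^ 2 * L) + y ^ 6 = 0
          linear_combination y ^ 6 * hL'
        constructor
        · rintro ⟨h1, h2, h3, h4⟩
          have h5 : (x 1 / y ^ 2) ^ 3 + t * (x 1 / y ^ 2) + 1 = 0 := by
            field_simp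
            linear_combination h4
          have hx : ∀ L : ℂ, x 1 / y ^ 2 = L → x = ![y, y ^ 2 * L, t] := by
            intro L h6
            funext i
            fin_cases i
            · exact h1
            · show x 1 = y ^ 2 * L
              rw [← h6]
              field_simp
            · exact h2
          rw [hL] at h5
          rcases mul_eq_zero.1 h5 with h6 | h6
          · rcases mul_eq_zero.1 h6 with h7 | h7
            · exact Or.inl (hx a (by linear_combination h7))
            · exact Or.inr (Or.inl (hx b (by linear_combination h7)))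
          · exact Or.inr (Or.inr (hx c (by linear_combination h6)))
        · rintro (h | h | h)
          · exact key a (by rw [hL]; ring) h
          · exact key b (by rw [hL]; ring) h
          · exact key c (by rw [hL]; ring) h
      have hne : ∀ L L' : ℂ, L ≠ L' → (![y, y ^ 2 * L, t] : Cn 3) ≠ ![y, y ^ 2 * L', t] := by
        intro L L' hLL h
        have h1 : y ^ 2 * L = y ^ 2 * L' := congrFun h 1
        exact hLL (mul_left_cancel₀ hy2 h1)
      have hcard : (fib (fun u : Cn 3 => u 1 ^ 3 + u 2 * u 0 ^ 4 * u 1 + u 0 ^ 6)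
          (fun u : Cn 3 => (![u 0, u 2] : Cn 2)) ε u).ncard = 3 := by
        rw [hfib, Set.ncard_eq_three]
        exact ⟨_, _, _, hne a b hab, hne a c hac, hne b c hbc, rfl⟩
      refine ⟨?_, hcard.le, ?_⟩
      · rw [hfib]
        exact Set.toFinite _
      · rw [hcard]
        simp [hy0]

end Pool.Agent.Helper308.ZGP
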