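import Pool.Agent.Helper308.ZGPDefs

set_option autoImplicit false

open Filter Topology

namespace Pool.Agent.Helper308.ZGP

/-- straightening of `z` near the origin -/
theorem straighten {n : ℕ} (z : Cn (n + 1) → Cn n) (hz : AnalyticAt ℂ z 0) (hz0 : z 0 = 0)
    (hs : Function.Surjective (fderiv ℂ z 0)) :
    ∃ (ℓ : Cn (n + 1) →L[ℂ] ℂ) (Ψ : Cn n × ℂ → Cn (n + 1)), AnalyticAt ℂ Ψ (0, 0) ∧ Ψ (0, 0) = 0 ∧
      (∀ᶠ x in 𝓝 (0 : Cn (n + 1)), Ψ (z x, ℓ x) = x) ∧
      (∀ᶠ w in 𝓝 ((0, 0) : Cn n × ℂ), z (Ψ w) = w.1 ∧ ℓ (Ψ w) = w.2) ∧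
      (∀ v, fderiv ℂ z 0 v = 0 → ℓ v = 0 → v = 0) := by
  set D : Cn (n + 1) →L[ℂ] Cn n := fderiv ℂ z 0 with hD
  have hrank : Module.finrank ℂ (LinearMap.ker D.toLinearMap) = 1 := by
    have h1 := LinearMap.finrank_range_add_finrank_ker D.toLinearMap
    have h2 : LinearMap.range D.toLinearMap = ⊤ := LinearMap.range_eq_top.mpr hs
    rw [h2, finrank_top, Module.finrank_fin_fun, Module.finrank_fin_fun] at h1
    omega
  obtain ⟨v0, hv0, hv0'⟩ := finrank_eq_one_iff'.1 hrank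
  have hv1 : (v0 : Cn (n + 1)) ≠ 0 := fun h => hv0 (Subtype.ext h)
  obtain ⟨i, hi⟩ : ∃ i, (v0 : Cn (n + 1)) i ≠ 0 := by
    by_contra hcon
    push Not at hcon
    exact hv1 (funext hcon)
  set ℓ : Cn (n + 1) →L[ℂ] ℂ := ContinuousLinearMap.proj i with hℓ
  have hker : ∀ v, D v = 0 → ℓ v = 0 → v = 0 := by
    intro v hv hv2
    obtain ⟨c, hc⟩ := hv0' ⟨v, hv⟩
    have hc' : c • (v0 : Cn (n + 1)) = v := congrArg Subtype.val hc
    have h3 : c * (v0 : Cn (n + 1)) i = 0 := by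
      have h4 : (c • (v0 : Cn (n + 1))) i = v i := by rw [hc']
      have h5 : v i = 0 := hv2
      rw [h5] at h4
      exact h4
    rcases mul_eq_zero.mp h3 with h4 | h4
    · rw [← hc', h4, zero_smul]
    · exact absurd h4 hi
  set H' : Cn (n + 1) →L[ℂ] (Cn n × ℂ) := D.prod ℓ with hH'
  have hinj : Function.Injective H'.toLinearMap := by
    rw [← LinearMap.ker_eq_bot, LinearMap.ker_eq_bot']
    intro v hv
    have h6 : (D v, ℓ v) = (0, 0) := hv
    exact hker v (congrArg Prod.fst h6) (congrArg Prod.snd h6)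
  have hfr : Module.finrank ℂ (Cn (n + 1)) = Module.finrank ℂ (Cn n × ℂ) := by
    rw [Module.finrank_prod, Module.finrank_fin_fun, Module.finrank_fin_fun, Module.finrank_self]
  set e : Cn (n + 1) ≃L[ℂ] (Cn n × ℂ) :=
    (LinearEquiv.ofInjectiveOfFinrankEq H'.toLinearMap hinj hfr).toContinuousLinearEquiv with he
  have hee : (e : Cn (n + 1) →L[ℂ] (Cn n × ℂ)) = H' := by
    ext1 v
    rfl
  set H : Cn (n + 1) → Cn n × ℂ := fun x => (z x, ℓ x) with hH
  have hHa : AnalyticAt ℂ H 0 := hz.prod (ℓ.analyticAt 0)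
  have hH0 : H 0 = (0, 0) := by
    show (z 0, ℓ 0) = (0, 0)
    rw [hz0, map_zero]
  have hHs : HasStrictFDerivAt H (e : Cn (n + 1) →L[ℂ] (Cn n × ℂ)) 0 := by
    rw [hee]
    exact hz.hasStrictFDerivAt.prodMk ℓ.hasStrictFDerivAt
  have hsrc := hHs.mem_toOpenPartialHomeomorph_source
  have hana : AnalyticAt ℂ (hHs.toOpenPartialHomeomorph H).symm ((hHs.toOpenPartialHomeomorph H) 0) :=
    (hHs.toOpenPartialHomeomorph H).analyticAt_symm' (i := e) hsrc hHa
      hHs.hasFDerivAt.fderiv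
  have hana' : AnalyticAt ℂ (hHs.localInverse H _ _) (0, 0) := by
    rw [← hH0]
    exact hana
  refine ⟨ℓ, hHs.localInverse H _ _, hana', ?_, ?_, ?_, hker⟩
  · rw [← hH0]
    exact hHs.localInverse_apply_image
  · exact hHs.eventually_left_inverse
  · have h7 := hHs.eventually_right_inverse
    rw [hH0] at h7
    filter_upwards [h7] with w hw
    have h8 : (z (hHs.localInverse H _ _ w), ℓ (hHs.localInverse H _ _ w)) = w := hw
    exact ⟨congrArg Prod.fst h8, congrArg Prod.snd h8⟩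

end Pool.Agent.Helper308.ZGP
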