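import Pool.Agent.Helper308.ZGPDefs
import Pool.Agent.Helper308.ZGPCount
import Pool.Agent.Helper308.ZGPStraight

set_option autoImplicit false

open Filter Topology

namespace Pool.Agent.Helper308.ZGP

/-- derivative of `F(u, ·)` at a critical point of the projection -/
theorem cc_deriv {n : ℕ} (f : Cn (n + 1) → ℂ) (z : Cn (n + 1) → Cn n) (Ψ : Cn n × ℂ → Cn (n + 1))
    (u : Cn n) (s₀ : ℂ) (p : Cn (n + 1)) (hp : Ψ (u, s₀) = p)
    (hΨ : AnalyticAt ℂ Ψ (u, s₀)) (hf : AnalyticAt ℂ f p) (hz : AnalyticAt ℂ z p)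
    (hzΨ : ∀ᶠ s in 𝓝 s₀, z (Ψ (u, s)) = u)
    (hker : ∀ v, fderiv ℂ z p v = 0 → fderiv ℂ f p v = 0) :
    deriv (fun s => f (Ψ (u, s))) s₀ = 0 := by
  have hd : DifferentiableAt ℂ (fun s : ℂ => Ψ (u, s)) s₀ := by
    have h1 : DifferentiableAt ℂ (fun s : ℂ => ((u, s) : Cn n × ℂ)) s₀ := by fun_prop
    exact hΨ.differentiableAt.comp s₀ h1
  have hd' := hd.hasDerivAt
  have hzd : HasDerivAt (fun s => z (Ψ (u, s))) (fderiv ℂ z p (deriv (fun s : ℂ => Ψ (u, s)) s₀))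
      s₀ := by
    have h1 : HasFDerivAt z (fderiv ℂ z p) (Ψ (u, s₀)) := by
      rw [hp]; exact hz.differentiableAt.hasFDerivAt
    exact h1.comp_hasDerivAt s₀ hd'
  have hfd : HasDerivAt (fun s => f (Ψ (u, s))) (fderiv ℂ f p (deriv (fun s : ℂ => Ψ (u, s)) s₀))
      s₀ := by
    have h1 : HasFDerivAt f (fderiv ℂ f p) (Ψ (u, s₀)) := by
      rw [hp]; exact hf.differentiableAt.hasFDerivAt
    exact h1.comp_hasDerivAt s₀ hd'
  have hz0 : fderiv ℂ z p (deriv (fun s : ℂ => Ψ (u, s)) s₀) = 0 := by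
    have h1 : HasDerivAt (fun _ : ℂ => u) 0 s₀ := hasDerivAt_const s₀ u
    exact hzd.unique (h1.congr_of_eventuallyEq hzΨ)
  rw [hfd.deriv]
  exact hker _ hz0

/-- a fibre through a point where `df` kills `ker dz` has fewer than `m` points -/
theorem crit_count {n : ℕ} (f : Cn (n + 1) → ℂ) (z : Cn (n + 1) → Cn n) (hf : AnalyticAt ℂ f 0)
    (hz : AnalyticAt ℂ z 0) (hz0 : z 0 = 0) (hs : Function.Surjective (fderiv ℂ z 0)) (m : ℕ)
    (hm : IntMult f z m) :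
    ∀ᶠ ε in 𝓝[>] (0 : ℝ), ∀ᶠ u in 𝓝 (0 : Cn n), ∀ p ∈ fib f z ε u,
      (∀ v, fderiv ℂ z p v = 0 → fderiv ℂ f p v = 0) → (fib f z ε u).ncard < m := by
  obtain ⟨l, Ψ, hΨ, hΨ0, h1, h2, h3⟩ := straighten z hz hz0 hs
  obtain ⟨γ, hγ, hγ0, hγ1, hγz, hγm⟩ := hm
  have hF : AnalyticAt ℂ (fun w : Cn n × ℂ => f (Ψ w)) (0, 0) := by
    have hf' : AnalyticAt ℂ f (Ψ (0, 0)) := by rw [hΨ0]; exact hf
    exact hf'.comp hΨ
  -- the order of `F(0, ·)`
  have hg : AnalyticAt ℂ (fun s => l (γ s)) 0 :=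
    (l.analyticAt (γ 0)).comp hγ
  have hγd : HasDerivAt γ (deriv γ 0) 0 := hγ.differentiableAt.hasDerivAt
  have hgd : HasDerivAt (fun s => l (γ s)) (l (deriv γ 0)) 0 :=
    l.hasFDerivAt.comp_hasDerivAt 0 hγd
  have hzγ : fderiv ℂ z 0 (deriv γ 0) = 0 := by
    have a1 : HasFDerivAt z (fderiv ℂ z 0) (γ 0) := by
      rw [hγ0]; exact hz.differentiableAt.hasFDerivAt
    have a2 : HasDerivAt (fun s => z (γ s)) (fderiv ℂ z 0 (deriv γ 0)) 0 :=
      a1.comp_hasDerivAt 0 hγd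
    have a3 : HasDerivAt (fun _ : ℂ => (0 : Cn n)) 0 0 := hasDerivAt_const _ _
    exact a2.unique (a3.congr_of_eventuallyEq hγz)
  have hg' : deriv (fun s => l (γ s)) 0 ≠ 0 := by
    rw [hgd.deriv]
    intro h0
    exact hγ1 (h3 _ hzγ h0)
  have hg0 : l (γ 0) = 0 := by rw [hγ0, map_zero]
  have hord : analyticOrderAt (fun s => f (Ψ ((0 : Cn n), s))) 0 = m := by
    have a1 := analyticOrderAt_comp_of_deriv_ne_zero (f := fun s => f (Ψ ((0 : Cn n), s))) hg hg'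
    rw [hg0] at a1
    rw [← a1, ← hγm]
    refine analyticOrderAt_congr ?_
    have hγt : Tendsto γ (𝓝 0) (𝓝 0) := by
      have := hγ.continuousAt.tendsto
      rwa [hγ0] at this
    filter_upwards [hγz, hγt.eventually h1] with s e1 e2
    show f (Ψ (0, l (γ s))) = f (γ s)
    rw [← e1, e2]
  obtain ⟨ρ, hρ, hcount⟩ := count_lemma (fun w : Cn n × ℂ => f (Ψ w)) hF m hord
  -- choice of the ball
  have hpt : Tendsto (fun x : Cn (n + 1) => (z x, l x)) (𝓝 0) (𝓝 ((0, 0) : Cn n × ℂ)) := by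
    have a1 : ContinuousAt (fun x : Cn (n + 1) => (z x, l x)) 0 :=
      hz.continuousAt.prodMk l.continuous.continuousAt
    have a2 := a1.tendsto
    simp only [hz0, map_zero] at a2
    exact a2
  have hlt : ∀ᶠ x in 𝓝 (0 : Cn (n + 1)), ‖l x‖ < ρ := by
    have a1 : Tendsto (fun x : Cn (n + 1) => ‖l x‖) (𝓝 0) (𝓝 0) := by
      have a2 := (l.continuous.norm).tendsto (0 : Cn (n + 1))
      simpa using a2
    exact a1.eventually (gt_mem_nhds hρ)
  have hall := (((hf.eventually_analyticAt.and hz.eventually_analyticAt).and (h1.and hlt)).and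
    ((hpt.eventually h2.eventually_nhds).and (hpt.eventually hΨ.eventually_analyticAt)))
  obtain ⟨ε₀, hε₀, hball⟩ := Metric.eventually_nhds_iff.1 hall
  filter_upwards [Ioo_mem_nhdsGT hε₀] with ε hε
  filter_upwards [hcount] with u hu
  intro p hp hker
  have hmem : ∀ x ∈ fib f z ε u, dist x 0 < ε₀ := by
    intro x hx
    rw [dist_zero_right]
    exact hx.1.trans hε.2
  have hle : (fib f z ε u).ncard ≤ {s : ℂ | ‖s‖ < ρ ∧ f (Ψ (u, s)) = 0}.ncard := by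
    refine Set.ncard_le_ncard_of_injOn (fun x => l x) ?_ ?_ hu.1
    · intro x hx
      obtain ⟨⟨_, b1, b2⟩, _⟩ := hball (hmem x hx)
      refine ⟨b2, ?_⟩
      rw [← hx.2.2, b1]
      exact hx.2.1
    · intro x hx y hy hxy
      obtain ⟨⟨_, b1, _⟩, _⟩ := hball (hmem x hx)
      obtain ⟨⟨_, c1, _⟩, _⟩ := hball (hmem y hy)
      have hxy' : l x = l y := hxy
      rw [← b1, ← c1, hx.2.2, hy.2.2, hxy']
  refine lt_of_le_of_lt hle (hu.2 ⟨l p, ?_, ?_, ?_⟩)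
  · exact (hball (hmem p hp)).1.2.2
  · obtain ⟨⟨_, b1, b2⟩, _⟩ := hball (hmem p hp)
    show f (Ψ (u, l p)) = 0
    rw [← hp.2.2, b1]
    exact hp.2.1
  · obtain ⟨⟨⟨c1, c2⟩, b1, b2⟩, d1, d2⟩ := hball (hmem p hp)
    rw [hp.2.2] at b1 d1 d2
    refine cc_deriv f z Ψ u (l p) p b1 d2 c1 c2 ?_ hker
    have t1 : Tendsto (fun s : ℂ => ((u, s) : Cn n × ℂ)) (𝓝 (l p)) (𝓝 (u, l p)) :=
      (Continuous.prodMk_right u).continuousAt.tendsto
    filter_upwards [t1.eventually d1] with s hs'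
    exact hs'.1

end Pool.Agent.Helper308.ZGP
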