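import Pool.Agent.Helper308.ZGPDefs

set_option autoImplicit false

open Filter Topology

namespace Pool.Agent.Helper308.ZGP

theorem cusp_dv_cd {ξ : Cn 4 → Cn 4} {g : Cn 4 → ℂ} {p0 : Cn 4} (hξ : ContDiffAt ℂ ⊤ ξ p0)
    (hg : ContDiffAt ℂ ⊤ g p0) : ContDiffAt ℂ ⊤ (dv ξ g) p0 :=
  (hg.fderiv_right (m := ⊤) (by simp)).clm_apply hξ

theorem cusp_line (q w : Cn 4) (s : ℂ) : HasDerivAt (fun s : ℂ => q + s • w) w s := by
  simpa using ((hasDerivAt_id s).smul_const w).const_add q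

theorem cusp_line_tendsto (q w : Cn 4) : Tendsto (fun s : ℂ => q + s • w) (𝓝 0) (𝓝 q) := by
  have h := (cusp_line q w 0).continuousAt.tendsto
  simpa using h

theorem cusp_core (W G X Y : Cn 4 → ℂ) (q0 : Cn 4) (hW : ContDiffAt ℂ 2 W q0)
    (hG : DifferentiableAt ℂ G q0) (hX : DifferentiableAt ℂ X q0) (hY : DifferentiableAt ℂ Y q0)
    (h0 : q0 0 = 0) (h1 : q0 1 = 0)
    (hI : ∀ᶠ q in 𝓝 q0, fderiv ℂ W q ![q 1, G q, X q, Y q] = 0)
    (hII : ∀ᶠ q in 𝓝 q0, q 0 = 0 → q 1 = 0 → W q = 0)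
    (hG0 : G q0 = 0) (hG1 : fderiv ℂ G q0 ![0, 0, X q0, Y q0] ≠ 0) : fderiv ℂ W q0 = 0 := by
  have hWd : ∀ᶠ q in 𝓝 q0, DifferentiableAt ℂ W q :=
    (hW.eventually (by decide)).mono fun q hq => hq.differentiableAt (by norm_num)
  have hD : DifferentiableAt ℂ (fderiv ℂ W) q0 :=
    (hW.fderiv_right (m := 1) (by norm_num)).differentiableAt (by norm_num)
  have hsymm : IsSymmSndFDerivAt ℂ W q0 := hW.isSymmSndFDerivAt (by simp)
  -- (a)
  have hP : ∀ᶠ q in 𝓝 q0, q 0 = 0 → q 1 = 0 → ∀ w : Cn 4, w 0 = 0 → w 1 = 0 →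
      fderiv ℂ W q w = 0 := by
    filter_upwards [hII.eventually_nhds, hWd] with q hq hqd hq0 hq1 w hw0 hw1
    have h2 := (cusp_line_tendsto q w).eventually hq
    have h3 : (fun s : ℂ => W (q + s • w)) =ᶠ[𝓝 0] fun _ => 0 := by
      filter_upwards [h2] with s hs
      apply hs
      · simp [hq0, hw0]
      · simp [hq1, hw1]
    have h4 : HasDerivAt (fun s : ℂ => W (q + s • w)) (fderiv ℂ W q w) 0 := by
      have h5 : HasFDerivAt W (fderiv ℂ W q) (q + (0 : ℂ) • w) := by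
        rw [zero_smul, add_zero]
        exact hqd.hasFDerivAt
      exact h5.comp_hasDerivAt 0 (cusp_line q w 0)
    have h6 : HasDerivAt (fun s : ℂ => W (q + s • w)) 0 0 :=
      (hasDerivAt_const (0 : ℂ) (0 : ℂ)).congr_of_eventuallyEq h3
    exact h4.unique h6
  have hP0 := hP.self_of_nhds h0 h1
  -- (b)
  have hGe : ∀ᶠ q in 𝓝 q0, q 0 = 0 → q 1 = 0 → G q * fderiv ℂ W q ![0, 1, 0, 0] = 0 := by
    filter_upwards [hP, hI] with q hq hqI hq0 hq1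
    have h2 : (![q 1, G q, X q, Y q] : Cn 4) = G q • ![0, 1, 0, 0] + ![0, 0, X q, Y q] := by
      ext i
      fin_cases i <;> simp [hq1]
    rw [h2, map_add, map_smul, hq hq0 hq1 ![0, 0, X q, Y q] rfl rfl, add_zero,
      smul_eq_mul] at hqI
    exact hqI
  obtain ⟨v, hv⟩ : ∃ v : Cn 4, v = ![0, 0, X q0, Y q0] := ⟨_, rfl⟩
  have hv0 : v 0 = 0 := by rw [hv]; rfl
  have hv1 : v 1 = 0 := by rw [hv]; rfl
  rw [← hv] at hG1
  -- (c)
  have hGs : HasDerivAt (fun s : ℂ => G (q0 + s • v)) (fderiv ℂ G q0 v) 0 := by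
    have h5 : HasFDerivAt G (fderiv ℂ G q0) (q0 + (0 : ℂ) • v) := by
      rw [zero_smul, add_zero]
      exact hG.hasFDerivAt
    exact h5.comp_hasDerivAt 0 (cusp_line q0 v 0)
  have hGne : ∀ᶠ s in 𝓝[≠] (0 : ℂ), G (q0 + s • v) ≠ 0 := hGs.eventually_ne hG1
  -- (d)
  have hH : HasDerivAt (fun s : ℂ => fderiv ℂ W (q0 + s • v) ![0, 1, 0, 0])
      (fderiv ℂ (fderiv ℂ W) q0 v ![0, 1, 0, 0]) 0 := by
    have h5 : HasFDerivAt (fderiv ℂ W) (fderiv ℂ (fderiv ℂ W) q0) (q0 + (0 : ℂ) • v) := by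
      rw [zero_smul, add_zero]
      exact hD.hasFDerivAt
    have h6 := h5.comp_hasDerivAt 0 (cusp_line q0 v 0)
    have h7 := h6.clm_apply (hasDerivAt_const (0 : ℂ) (![0, 1, 0, 0] : Cn 4))
    simpa using h7
  have hHz : ∀ᶠ s in 𝓝[≠] (0 : ℂ), fderiv ℂ W (q0 + s • v) ![0, 1, 0, 0] = 0 := by
    have h2 : ∀ᶠ s in 𝓝[≠] (0 : ℂ), (q0 + s • v) 0 = 0 → (q0 + s • v) 1 = 0 →
        G (q0 + s • v) * fderiv ℂ W (q0 + s • v) ![0, 1, 0, 0] = 0 :=
      ((cusp_line_tendsto q0 v).eventually hGe).filter_mono nhdsWithin_le_nhds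
    filter_upwards [h2, hGne] with s hs hs'
    have h3 := hs (by simp [h0, hv0]) (by simp [h1, hv1])
    exact (mul_eq_zero.1 h3).resolve_left hs'
  have hH0 : fderiv ℂ W q0 ![0, 1, 0, 0] = 0 := by
    have h2 : Tendsto (fun s : ℂ => fderiv ℂ W (q0 + s • v) ![0, 1, 0, 0]) (𝓝[≠] 0)
        (𝓝 (fderiv ℂ W (q0 + (0 : ℂ) • v) ![0, 1, 0, 0])) :=
      hH.continuousAt.tendsto.mono_left nhdsWithin_le_nhds
    have h3 : Tendsto (fun s : ℂ => fderiv ℂ W (q0 + s • v) ![0, 1, 0, 0]) (𝓝[≠] 0) (𝓝 0) :=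
      tendsto_const_nhds.congr' (hHz.mono fun s hs => hs.symm)
    have h4 := tendsto_nhds_unique h2 h3
    rwa [zero_smul, add_zero] at h4
  have hDv : fderiv ℂ (fderiv ℂ W) q0 v ![0, 1, 0, 0] = 0 := by
    have h2 : (fun s : ℂ => fderiv ℂ W (q0 + s • v) ![0, 1, 0, 0]) =ᶠ[𝓝 0] fun _ => 0 := by
      have h3 := eventually_nhdsWithin_iff.1 hHz
      filter_upwards [h3] with s hs
      by_cases hs0 : s = 0
      · rw [hs0, zero_smul, add_zero, hH0]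
      · exact hs hs0
    exact hH.unique ((hasDerivAt_const (0 : ℂ) (0 : ℂ)).congr_of_eventuallyEq h2)
  have hDe : fderiv ℂ (fderiv ℂ W) q0 ![0, 1, 0, 0] v = 0 := by
    rw [hsymm.eq, hDv]
  -- (e)
  have hline1 : ∀ F : Cn 4 → ℂ, DifferentiableAt ℂ F q0 →
      HasDerivAt (fun s : ℂ => F (q0 + s • ![0, 1, 0, 0])) (fderiv ℂ F q0 ![0, 1, 0, 0]) 0 := by
    intro F hF
    have h5 : HasFDerivAt F (fderiv ℂ F q0) (q0 + (0 : ℂ) • ![0, 1, 0, 0]) := by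
      rw [zero_smul, add_zero]
      exact hF.hasFDerivAt
    exact h5.comp_hasDerivAt 0 (cusp_line q0 ![0, 1, 0, 0] 0)
  have hvec : HasDerivAt (fun s : ℂ => (![s, G (q0 + s • ![0, 1, 0, 0]),
      X (q0 + s • ![0, 1, 0, 0]), Y (q0 + s • ![0, 1, 0, 0])] : Cn 4))
      ![1, fderiv ℂ G q0 ![0, 1, 0, 0], fderiv ℂ X q0 ![0, 1, 0, 0],
        fderiv ℂ Y q0 ![0, 1, 0, 0]] 0 := by
    rw [hasDerivAt_pi]
    intro i
    fin_cases i
    · exact hasDerivAt_id (0 : ℂ)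
    · exact hline1 G hG
    · exact hline1 X hX
    · exact hline1 Y hY
  have hF : HasDerivAt (fun s : ℂ => fderiv ℂ W (q0 + s • ![0, 1, 0, 0])
      ![s, G (q0 + s • ![0, 1, 0, 0]),
      X (q0 + s • ![0, 1, 0, 0]), Y (q0 + s • ![0, 1, 0, 0])])
      (fderiv ℂ (fderiv ℂ W) q0 ![0, 1, 0, 0] ![0, G q0, X q0, Y q0] +
        fderiv ℂ W q0 ![1, fderiv ℂ G q0 ![0, 1, 0, 0], fderiv ℂ X q0 ![0, 1, 0, 0],
        fderiv ℂ Y q0 ![0, 1, 0, 0]]) 0 := by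
    have h5 : HasFDerivAt (fderiv ℂ W) (fderiv ℂ (fderiv ℂ W) q0)
        (q0 + (0 : ℂ) • ![0, 1, 0, 0]) := by
      rw [zero_smul, add_zero]
      exact hD.hasFDerivAt
    have h6 := h5.comp_hasDerivAt 0 (cusp_line q0 ![0, 1, 0, 0] 0)
    have h7 := h6.clm_apply hvec
    have h8 : (fderiv ℂ W ∘ fun s : ℂ => q0 + s • (![0, 1, 0, 0] : Cn 4)) 0 = fderiv ℂ W q0 := by
      rw [Function.comp_apply, zero_smul, add_zero]
    rw [zero_smul, add_zero, h8] at h7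
    exact h7
  have hFz : (fun s : ℂ => fderiv ℂ W (q0 + s • ![0, 1, 0, 0])
      ![s, G (q0 + s • ![0, 1, 0, 0]),
      X (q0 + s • ![0, 1, 0, 0]), Y (q0 + s • ![0, 1, 0, 0])]) =ᶠ[𝓝 0] fun _ => 0 := by
    filter_upwards [(cusp_line_tendsto q0 ![0, 1, 0, 0]).eventually hI] with s hs
    have h2 : (q0 + s • (![0, 1, 0, 0] : Cn 4)) 1 = s := by simp [h1]
    rwa [h2] at hs
  have hF0 := hF.unique ((hasDerivAt_const (0 : ℂ) (0 : ℂ)).congr_of_eventuallyEq hFz)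
  have hv' : (![0, G q0, X q0, Y q0] : Cn 4) = v := by rw [hv, hG0]
  rw [hv', hDe, zero_add] at hF0
  have he0 : fderiv ℂ W q0 ![1, 0, 0, 0] = 0 := by
    have h2 : (![1, fderiv ℂ G q0 ![0, 1, 0, 0], fderiv ℂ X q0 ![0, 1, 0, 0],
        fderiv ℂ Y q0 ![0, 1, 0, 0]] : Cn 4) = ![1, 0, 0, 0] +
        (fderiv ℂ G q0 ![0, 1, 0, 0]) • ![0, 1, 0, 0] +
        ![0, 0, fderiv ℂ X q0 ![0, 1, 0, 0], fderiv ℂ Y q0 ![0, 1, 0, 0]] := by
      ext i
      fin_cases i <;> simp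
    rw [h2, map_add, map_add, map_smul, hH0, smul_zero, add_zero,
      hP0 ![0, 0, fderiv ℂ X q0 ![0, 1, 0, 0], fderiv ℂ Y q0 ![0, 1, 0, 0]] rfl rfl,
      add_zero] at hF0
    exact hF0
  refine ContinuousLinearMap.ext fun w => ?_
  have h2 : w = w 0 • ![1, 0, 0, 0] + w 1 • ![0, 1, 0, 0] + ![0, 0, w 2, w 3] := by
    ext i
    fin_cases i <;> simp
  rw [h2, map_add, map_add, map_smul, map_smul, he0, hH0, hP0 ![0, 0, w 2, w 3] rfl rfl]
  simp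

/-- cuspidal edges: the image of `{g = ξ g = 0}` under `z` has no smooth equation at the image of
a point where `ξ ξ g = 0`, `ξ ξ ξ g ≠ 0`. -/
theorem cusp_lemma (z : Cn 4 → Cn 3) (ξ : Cn 4 → Cn 4) (g : Cn 4 → ℂ) (p0 : Cn 4)
    (hz : AnalyticAt ℂ z p0) (hξ : AnalyticAt ℂ ξ p0) (hg : AnalyticAt ℂ g p0)
    (hk : ∀ᶠ p in 𝓝 p0, fderiv ℂ z p (ξ p) = 0)
    (hs : Function.Surjective (fderiv ℂ z p0))
    (h0 : g p0 = 0) (h1 : dv ξ g p0 = 0) (h2 : dv ξ (dv ξ g) p0 = 0)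
    (h3 : dv ξ (dv ξ (dv ξ g)) p0 ≠ 0)
    (hb : ∀ v : Cn 4, fderiv ℂ g p0 v = 0 → fderiv ℂ (dv ξ g) p0 v = 0 → v 1 = 0 → v 2 = 0 →
      v = 0)
    (φ : Cn 3 → ℂ) (hφ : AnalyticAt ℂ φ (z p0))
    (hv : ∀ᶠ p in 𝓝 p0, g p = 0 → dv ξ g p = 0 → φ (z p) = 0) :
    fderiv ℂ φ (z p0) = 0 := by
  have hgC : ContDiffAt ℂ ⊤ g p0 := hg.contDiffAt
  have hξC : ContDiffAt ℂ ⊤ ξ p0 := hξ.contDiffAt
  have hg1C := cusp_dv_cd hξC hgC
  have hg2C := cusp_dv_cd hξC hg1C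
  have hzC : ContDiffAt ℂ ⊤ z p0 := hz.contDiffAt
  obtain ⟨Φ, hΦ⟩ : ∃ Φ : Cn 4 → Cn 4, Φ = fun p => ![g p, dv ξ g p, p 1, p 2] := ⟨_, rfl⟩
  have hΦC : ContDiffAt ℂ ⊤ Φ p0 := by
    rw [hΦ, contDiffAt_pi]
    intro i
    fin_cases i
    · exact hgC
    · exact hg1C
    · exact (contDiff_apply ℂ ℂ (1 : Fin 4)).contDiffAt
    · exact (contDiff_apply ℂ ℂ (2 : Fin 4)).contDiffAt
  -- derivative of Φ
  have hΦd : ∀ᶠ p in 𝓝 p0, ∀ v : Cn 4, fderiv ℂ Φ p v =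
      ![fderiv ℂ g p v, fderiv ℂ (dv ξ g) p v, v 1, v 2] := by
    have k0 : ∀ᶠ p in 𝓝 p0, DifferentiableAt ℂ Φ p :=
      (hΦC.eventually (by decide)).mono fun q hq => hq.differentiableAt (by decide)
    have k1 : ∀ᶠ p in 𝓝 p0, DifferentiableAt ℂ g p :=
      (hgC.eventually (by decide)).mono fun q hq => hq.differentiableAt (by decide)
    have k2 : ∀ᶠ p in 𝓝 p0, DifferentiableAt ℂ (dv ξ g) p :=
      (hg1C.eventually (by decide)).mono fun q hq => hq.differentiableAt (by decide)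
    filter_upwards [k0, k1, k2] with p kp0 kp1 kp2 v
    have h5 := hasFDerivAt_pi'.1 kp0.hasFDerivAt
    ext i
    fin_cases i
    · have h6 := h5 0
      have h7 : HasFDerivAt (fun x => Φ x 0) (fderiv ℂ g p) p := by
        rw [hΦ]; exact kp1.hasFDerivAt
      exact DFunLike.congr_fun (h6.unique h7) v
    · have h6 := h5 1
      have h7 : HasFDerivAt (fun x => Φ x 1) (fderiv ℂ (dv ξ g) p) p := by
        rw [hΦ]; exact kp2.hasFDerivAt
      exact DFunLike.congr_fun (h6.unique h7) v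
    · have h6 := h5 2
      have h7 : HasFDerivAt (fun x => Φ x 2)
          (ContinuousLinearMap.proj (R := ℂ) (φ := fun _ : Fin 4 => ℂ) 1) p := by
        rw [hΦ]
        exact (ContinuousLinearMap.proj (R := ℂ) (φ := fun _ : Fin 4 => ℂ) 1).hasFDerivAt
      exact DFunLike.congr_fun (h6.unique h7) v
    · have h6 := h5 3
      have h7 : HasFDerivAt (fun x => Φ x 3)
          (ContinuousLinearMap.proj (R := ℂ) (φ := fun _ : Fin 4 => ℂ) 2) p := by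
        rw [hΦ]
        exact (ContinuousLinearMap.proj (R := ℂ) (φ := fun _ : Fin 4 => ℂ) 2).hasFDerivAt
      exact DFunLike.congr_fun (h6.unique h7) v
  have hΦd0 := hΦd.self_of_nhds
  have hinj : Function.Injective (fderiv ℂ Φ p0 : Cn 4 →ₗ[ℂ] Cn 4) := by
    rw [← LinearMap.ker_eq_bot, LinearMap.ker_eq_bot']
    intro v hv0
    have hv1 : fderiv ℂ Φ p0 v = 0 := hv0
    rw [hΦd0 v] at hv1
    exact hb v (congrFun hv1 0) (congrFun hv1 1) (congrFun hv1 2) (congrFun hv1 3)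
  let A : Cn 4 ≃L[ℂ] Cn 4 := (LinearEquiv.ofInjectiveEndo _ hinj).toContinuousLinearEquiv
  have hA : (A : Cn 4 →L[ℂ] Cn 4) = fderiv ℂ Φ p0 := by
    ext v
    rfl
  have hΦ2 : ContDiffAt ℂ 2 Φ p0 := hΦC.of_le le_top
  have hΦA : HasFDerivAt Φ (A : Cn 4 →L[ℂ] Cn 4) p0 := by
    rw [hA]
    exact (hΦ2.differentiableAt (by norm_num)).hasFDerivAt
  have hstrict := hΦ2.hasStrictFDerivAt' hΦA (by norm_num)
  obtain ⟨Ψ, hΨ⟩ : ∃ Ψ : Cn 4 → Cn 4, Ψ = hstrict.localInverse Φ A p0 := ⟨_, rfl⟩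
  have hΨC : ContDiffAt ℂ 2 Ψ (Φ p0) := by
    rw [hΨ]
    exact hΦ2.to_localInverse hΦA (by norm_num)
  have hΨ0 : Ψ (Φ p0) = p0 := by rw [hΨ]; exact hstrict.localInverse_apply_image
  have hleft : ∀ᶠ p in 𝓝 p0, Ψ (Φ p) = p := by rw [hΨ]; exact hstrict.eventually_left_inverse
  have hright : ∀ᶠ q in 𝓝 (Φ p0), Φ (Ψ q) = q := by
    rw [hΨ]; exact hstrict.eventually_right_inverse
  have htend : Tendsto Ψ (𝓝 (Φ p0)) (𝓝 p0) := by rw [hΨ]; exact hstrict.localInverse_tendsto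
  have hΦ0v : ∀ p, Φ p 0 = g p := fun p => by rw [hΦ]; rfl
  have hΦ1v : ∀ p, Φ p 1 = dv ξ g p := fun p => by rw [hΦ]; rfl
  -- chain rule through Ψ
  have hpull : ∀ F : Cn 4 → ℂ, ContDiffAt ℂ 2 F p0 →
      ContDiffAt ℂ 2 (fun q => F (Ψ q)) (Φ p0) ∧ ∀ᶠ p in 𝓝 p0,
        ∀ v, fderiv ℂ (fun q => F (Ψ q)) (Φ p) (fderiv ℂ Φ p v) = fderiv ℂ F p v := by
    intro F hF
    have hFΨ : ContDiffAt ℂ 2 (fun q => F (Ψ q)) (Φ p0) := by
      have h5 : ContDiffAt ℂ 2 F (Ψ (Φ p0)) := by rw [hΨ0]; exact hF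
      exact h5.comp (Φ p0) hΨC
    refine ⟨hFΨ, ?_⟩
    have k0 : ∀ᶠ q in 𝓝 (Φ p0), DifferentiableAt ℂ (fun q => F (Ψ q)) q :=
      (hFΨ.eventually (by decide)).mono fun q hq => hq.differentiableAt (by norm_num)
    have k1 := hΦC.continuousAt.tendsto.eventually k0
    have k2 : ∀ᶠ p in 𝓝 p0, DifferentiableAt ℂ Φ p :=
      (hΦ2.eventually (by decide)).mono fun q hq => hq.differentiableAt (by norm_num)
    filter_upwards [k1, k2, hleft.eventually_nhds] with p kp1 kp2 kp3 v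
    have h5 : (fun p => (fun q => F (Ψ q)) (Φ p)) =ᶠ[𝓝 p] F := by
      filter_upwards [kp3] with p' hp'
      rw [hp']
    have h6 : HasFDerivAt (fun p => (fun q => F (Ψ q)) (Φ p))
        ((fderiv ℂ (fun q => F (Ψ q)) (Φ p)).comp (fderiv ℂ Φ p)) p :=
      kp1.hasFDerivAt.comp p kp2.hasFDerivAt
    have h7 := (h6.congr_of_eventuallyEq h5.symm).fderiv
    rw [h7]
    rfl
  have hφz : ContDiffAt ℂ 2 (fun p => φ (z p)) p0 :=
    ContDiffAt.comp p0 (hφ.contDiffAt) (hzC.of_le le_top)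
  obtain ⟨hWC, hWd⟩ := hpull (fun p => φ (z p)) hφz
  obtain ⟨hGC, hGd⟩ := hpull (dv ξ (dv ξ g)) (hg2C.of_le le_top)
  have hξi : ∀ i : Fin 4, ContDiffAt ℂ 2 (fun p => ξ p i) p0 := fun i =>
    contDiffAt_pi.1 (hξC.of_le le_top) i
  obtain ⟨hXC, -⟩ := hpull (fun p => ξ p 1) (hξi 1)
  obtain ⟨hYC, -⟩ := hpull (fun p => ξ p 2) (hξi 2)
  -- derivative of ω along ξ
  have hωξ : ∀ᶠ p in 𝓝 p0, fderiv ℂ (fun p => φ (z p)) p (ξ p) = 0 := by
    have k0 : ∀ᶠ u in 𝓝 (z p0), DifferentiableAt ℂ φ u :=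
      ((hφ.contDiffAt (n := ⊤)).eventually (by decide)).mono
        fun q hq => hq.differentiableAt (by decide)
    have k1 := hzC.continuousAt.tendsto.eventually k0
    have k2 : ∀ᶠ p in 𝓝 p0, DifferentiableAt ℂ z p :=
      (hzC.eventually (by decide)).mono fun q hq => hq.differentiableAt (by decide)
    filter_upwards [k1, k2, hk] with p kp1 kp2 kp3
    have h6 : HasFDerivAt (fun p => φ (z p)) ((fderiv ℂ φ (z p)).comp (fderiv ℂ z p)) p :=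
      kp1.hasFDerivAt.comp p kp2.hasFDerivAt
    rw [h6.fderiv, ContinuousLinearMap.comp_apply, kp3, map_zero]
  have hcore := cusp_core (fun q => φ (z (Ψ q))) (fun q => dv ξ (dv ξ g) (Ψ q))
    (fun q => ξ (Ψ q) 1) (fun q => ξ (Ψ q) 2) (Φ p0) hWC
    (hGC.differentiableAt (by norm_num)) (hXC.differentiableAt (by norm_num))
    (hYC.differentiableAt (by norm_num)) (by rw [hΦ0v, h0]) (by rw [hΦ1v, h1])
    (by
      have h5 : ∀ᶠ p in 𝓝 p0, fderiv ℂ (fun q => φ (z (Ψ q))) (Φ p)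
          ![dv ξ g p, dv ξ (dv ξ g) p, ξ p 1, ξ p 2] = 0 := by
        filter_upwards [hWd, hωξ, hΦd] with p hp1 hp2 hp3
        have h6 := hp1 (ξ p)
        rw [hp2, hp3] at h6
        exact h6
      filter_upwards [htend.eventually h5, hright] with q hq1 hq2
      rw [hq2, ← hΦ1v, hq2] at hq1
      exact hq1)
    (by
      filter_upwards [htend.eventually hv, hright] with q hq1 hq2 hq3 hq4
      refine hq1 ?_ ?_
      · rw [← hΦ0v, hq2]; exact hq3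
      · rw [← hΦ1v, hq2]; exact hq4)
    (by
      beta_reduce
      rw [hΨ0, h2])
    (by
      beta_reduce
      rw [hΨ0]
      have h5 := hGd.self_of_nhds (ξ p0)
      rw [hΦd0] at h5
      have h6 : (![0, 0, ξ p0 1, ξ p0 2] : Cn 4) =
          ![fderiv ℂ g p0 (ξ p0), fderiv ℂ (dv ξ g) p0 (ξ p0), ξ p0 1, ξ p0 2] := by
        have h7 : fderiv ℂ g p0 (ξ p0) = 0 := h1
        have h8 : fderiv ℂ (dv ξ g) p0 (ξ p0) = 0 := h2
        rw [h7, h8]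
      rw [h6, h5]
      exact h3)
  refine ContinuousLinearMap.ext fun u => ?_
  obtain ⟨v, rfl⟩ := hs u
  have h5 := hWd.self_of_nhds v
  rw [hcore] at h5
  have h6 : HasFDerivAt (fun p => φ (z p)) ((fderiv ℂ φ (z p0)).comp (fderiv ℂ z p0)) p0 :=
    hφ.differentiableAt.hasFDerivAt.comp p0 hz.differentiableAt.hasFDerivAt
  rw [h6.fderiv] at h5
  exact h5.symm

end Pool.Agent.Helper308.ZGP
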