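import Mathlib

set_option autoImplicit false

open Filter Topology

namespace Pool.Agent.Helper308.ZGP

/-- Complex affine space `ℂ^n`. -/
abbrev Cn (n : ℕ) : Type := Fin n → ℂ

/-- `f` is a convergent power series at the origin, not identically zero, vanishing at the
origin: the equation of the hypersurface germ `f = 0`. -/
def IsHyp {N : ℕ} (f : Cn N → ℂ) : Prop :=
  AnalyticAt ℂ f 0 ∧ f 0 = 0 ∧ ¬ ∀ᶠ x in 𝓝 (0 : Cn N), f x = 0

/-- The hypersurface `f = 0` is smooth at its point `p`: near `p` it is the zero set of an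
analytic function with nonzero differential at `p`. -/
def SmoothAt {N : ℕ} (f : Cn N → ℂ) (p : Cn N) : Prop :=
  ∃ φ : Cn N → ℂ, AnalyticAt ℂ φ p ∧ fderiv ℂ φ p ≠ 0 ∧ ∀ᶠ x in 𝓝 p, (f x = 0 ↔ φ x = 0)

/-- `ψ = (ψ_1, …, ψ_k)` presents the germ of `W` at the origin as a complex submanifold of
codimension `k`. -/
def Presents {N k : ℕ} (ψ : Cn N → Cn k) (W : Set (Cn N)) : Prop :=
  AnalyticAt ℂ ψ 0 ∧ ψ 0 = 0 ∧ Function.Surjective (fderiv ℂ ψ 0) ∧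
    ∀ᶠ x in 𝓝 (0 : Cn N), (x ∈ W ↔ ψ x = 0)

/-- `z = (z_1, …, z_n)` is a set of parameters for the hypersurface germ `f = 0` in
`ℂ^(n+1)`. -/
def IsParams {n : ℕ} (f : Cn (n + 1) → ℂ) (z : Cn (n + 1) → Cn n) : Prop :=
  AnalyticAt ℂ z 0 ∧ z 0 = 0 ∧ Function.Surjective (fderiv ℂ z 0) ∧
    ∀ᶠ x in 𝓝 (0 : Cn (n + 1)), z x = 0 → f x = 0 → x = 0

/-- `m` is the intersection multiplicity at the origin of `f = 0` with the smooth curve
`z = 0`. -/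
def IntMult {n : ℕ} (f : Cn (n + 1) → ℂ) (z : Cn (n + 1) → Cn n) (m : ℕ) : Prop :=
  ∃ γ : ℂ → Cn (n + 1), AnalyticAt ℂ γ 0 ∧ γ 0 = 0 ∧ deriv γ 0 ≠ 0 ∧
    (∀ᶠ s in 𝓝 (0 : ℂ), z (γ s) = 0) ∧ analyticOrderAt (fun s => f (γ s)) 0 = m

/-- The points of the hypersurface `f = 0` in the ball of radius `ε` lying over `u`. -/
def fib {n : ℕ} (f : Cn (n + 1) → ℂ) (z : Cn (n + 1) → Cn n) (ε : ℝ) (u : Cn n) :
    Set (Cn (n + 1)) :=
  {x | ‖x‖ < ε ∧ f x = 0 ∧ z x = u}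

/-- `δ = 0` is the critical variety of the projection `z` of `f = 0`: the hypersurface germ of
the points with fewer than `m` preimages near the origin. -/
def IsCrit {n : ℕ} (f : Cn (n + 1) → ℂ) (z : Cn (n + 1) → Cn n) (δ : Cn n → ℂ) : Prop :=
  IsHyp δ ∧ ∃ m : ℕ, IntMult f z m ∧ ∀ᶠ ε in 𝓝[>] (0 : ℝ), ∀ᶠ u in 𝓝 (0 : Cn n),
    (fib f z ε u).Finite ∧ (fib f z ε u).ncard ≤ m ∧ (δ u = 0 ↔ (fib f z ε u).ncard < m)

/-- `z` is `W`-permissible: the line `ker dz(0)` is not contained in the tangent space at the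
origin of `W`. -/
def IsPerm {n : ℕ} (z : Cn (n + 1) → Cn n) (W : Set (Cn (n + 1))) : Prop :=
  ∃ (k : ℕ) (ψ : Cn (n + 1) → Cn k), Presents ψ W ∧
    ¬ ∀ v, fderiv ℂ z 0 v = 0 → fderiv ℂ ψ 0 v = 0

/-- The germ of `W'` at the origin is the image under `z` of the germ of `W` at the origin. -/
def IsImageGerm {n : ℕ} (z : Cn (n + 1) → Cn n) (W : Set (Cn (n + 1))) (W' : Set (Cn n)) : Prop :=
  ∀ᶠ ε in 𝓝[>] (0 : ℝ), ∀ᶠ u in 𝓝 (0 : Cn n), (u ∈ W' ↔ ∃ x, ‖x‖ < ε ∧ x ∈ W ∧ z x = u)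

/-- Zariski's equisingularity at the origin of the hypersurface germ `f = 0` in `ℂ^(n+1)` along
a subgerm `W` of codimension `r`, by induction on `r`. -/
def Equi : (r n : ℕ) → (Cn (n + 1) → ℂ) → Set (Cn (n + 1)) → Prop
  | 0, _, f, W => SmoothAt f 0 ∧ ∀ᶠ x in 𝓝 0, (x ∈ W ↔ f x = 0)
  | _ + 1, 0, _, _ => False
  | r + 1, n + 1, f, W => (∀ᶠ x in 𝓝 0, x ∈ W → f x = 0) ∧ ∃ z : Cn (n + 2) → Cn (n + 1),
      IsParams f z ∧ IsPerm z W ∧ ∃ (δ : Cn (n + 1) → ℂ) (W' : Set (Cn (n + 1))),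
        IsCrit f z δ ∧ IsImageGerm z W W' ∧ Equi r n δ W'

/-- The set of parameters `z` gives a `W`-permissible equisingular projection of the hypersurface
germ `f = 0` in `ℂ^(n+2)`, where `W` has codimension `r + 1` in it: its critical variety is
equisingular along the image of `W`. -/
def EquiProj (r n : ℕ) (f : Cn (n + 2) → ℂ) (W : Set (Cn (n + 2)))
    (z : Cn (n + 2) → Cn (n + 1)) : Prop :=
  IsParams f z ∧ IsPerm z W ∧ ∃ (δ : Cn (n + 1) → ℂ) (W' : Set (Cn (n + 1))),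
    IsCrit f z δ ∧ IsImageGerm z W W' ∧ Equi r n δ W'

/-- `W` is a smooth germ at the origin, of codimension `r` in the hypersurface germ `f = 0`, and
contained in its singular locus. -/
def IsPair (r n : ℕ) (f : Cn (n + 1) → ℂ) (W : Set (Cn (n + 1))) : Prop :=
  IsHyp f ∧ (∃ ψ : Cn (n + 1) → Cn (r + 1), Presents ψ W) ∧
    ∀ᶠ x in 𝓝 (0 : Cn (n + 1)), x ∈ W → f x = 0 ∧ ¬ SmoothAt f x

/-- Nonzero multi-indices of length `N`. -/
abbrev Idx (N : ℕ) : Type := {ν : Fin N → ℕ // ν ≠ 0}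

/-- `z_i` is the sum near the origin of the convergent power series without constant term with
coefficients `a i ν`. -/
def SeriesOf {N n : ℕ} (a : Fin n × Idx N → ℂ) (z : Cn N → Cn n) : Prop :=
  ∀ i, ∀ᶠ x in 𝓝 (0 : Cn N), HasSum (fun ν : Idx N => a (i, ν) * ∏ j, x j ^ (ν.1 j)) (z x i)

/-- The equation of the example, coordinates `(x, y, z, t)`: `z^3 + t y^4 z + y^6 - x^6`. -/
def fE (p : Cn 4) : ℂ := p 2 ^ 3 + p 3 * p 1 ^ 4 * p 2 + p 1 ^ 6 - p 0 ^ 6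

/-- The `t`-axis. -/
def WE : Set (Cn 4) := {p | p 0 = 0 ∧ p 1 = 0 ∧ p 2 = 0}

/-- derivative of `g` along the vector field `ξ` -/
noncomputable def dv (ξ : Cn 4 → Cn 4) (g : Cn 4 → ℂ) (p : Cn 4) : ℂ := fderiv ℂ g p (ξ p)

end Pool.Agent.Helper308.ZGP
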