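import Pool.Agent.Helper308.ZGPDefs
import Pool.Agent.Helper308.ZGPCritA
import Pool.Agent.Helper308.ZGPCritB

set_option autoImplicit false

open Filter Topology

namespace Pool.Agent.Helper308.ZGP

/-- coordinate map -/
noncomputable def equi_example_L {N n : ℕ} (σ : Fin n → Fin N) : Cn N →L[ℂ] Cn n :=
  ContinuousLinearMap.pi (fun i => ContinuousLinearMap.proj (σ i))

theorem equi_example_z1 : (fun p : Cn 4 => (![p 1, p 2, p 3] : Cn 3)) =
    equi_example_L (![1, 2, 3] : Fin 3 → Fin 4) := by
  funext p i
  fin_cases i <;> rfl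

theorem equi_example_p1 : (fun p : Cn 4 => (![p 0, p 1, p 2] : Cn 3)) =
    equi_example_L (![0, 1, 2] : Fin 3 → Fin 4) := by
  funext p i
  fin_cases i <;> rfl

theorem equi_example_z2 : (fun u : Cn 3 => (![u 0, u 2] : Cn 2)) =
    equi_example_L (![0, 2] : Fin 2 → Fin 3) := by
  funext p i
  fin_cases i <;> rfl

theorem equi_example_p2 : (fun u : Cn 3 => (![u 0, u 1] : Cn 2)) =
    equi_example_L (![0, 1] : Fin 2 → Fin 3) := by
  funext p i
  fin_cases i <;> rfl

/-- `V` is equisingular along the `t`-axis -/
theorem equi_example : Equi 2 3 fE WE := by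
  refine ⟨Eventually.of_forall fun x hx => by
      obtain ⟨h0, h1, h2⟩ := hx
      simp [fE, h0, h1, h2], fun p : Cn 4 => (![p 1, p 2, p 3] : Cn 3), ?_, ?_,
    (fun u : Cn 3 => u 1 ^ 3 + u 2 * u 0 ^ 4 * u 1 + u 0 ^ 6),
    {u : Cn 3 | u 0 = 0 ∧ u 1 = 0}, isCrit_first, ?_, ?_⟩
  · refine ⟨?_, ?_, ?_, ?_⟩
    · rw [equi_example_z1]; exact (equi_example_L _).analyticAt 0
    · rw [equi_example_z1]; exact map_zero _
    · rw [equi_example_z1, ContinuousLinearMap.fderiv]
      intro y
      refine ⟨(![0, y 0, y 1, y 2] : Cn 4), ?_⟩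
      funext i
      fin_cases i <;> rfl
    · refine Eventually.of_forall (fun x hz hf => ?_)
      have h1 : x 1 = 0 := congrFun hz 0
      have h2 : x 2 = 0 := congrFun hz 1
      have h3 : x 3 = 0 := congrFun hz 2
      unfold fE at hf
      rw [h1, h2, h3] at hf
      have h0 : x 0 = 0 := by
        have : x 0 ^ 6 = 0 := by linear_combination -hf
        exact pow_eq_zero_iff (by norm_num) |>.1 this
      funext i
      fin_cases i
      · exact h0
      · exact h1
      · exact h2
      · exact h3
  · refine ⟨3, fun p : Cn 4 => (![p 0, p 1, p 2] : Cn 3), ⟨?_, ?_, ?_, ?_⟩, ?_⟩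
    · rw [equi_example_p1]; exact (equi_example_L _).analyticAt 0
    · rw [equi_example_p1]; exact map_zero _
    · rw [equi_example_p1, ContinuousLinearMap.fderiv]
      intro y
      refine ⟨(![y 0, y 1, y 2, 0] : Cn 4), ?_⟩
      funext i
      fin_cases i <;> rfl
    · refine Eventually.of_forall (fun x => ?_)
      constructor
      · rintro ⟨h0, h1, h2⟩
        funext i
        fin_cases i
        · exact h0
        · exact h1
        · exact h2
      · intro h
        exact ⟨congrFun h 0, congrFun h 1, congrFun h 2⟩
    · intro h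
      rw [equi_example_z1, equi_example_p1, ContinuousLinearMap.fderiv,
        ContinuousLinearMap.fderiv] at h
      have h1 := h (![1, 0, 0, 0] : Cn 4) (by
        funext i
        fin_cases i <;> rfl)
      have h2 : (1 : ℂ) = 0 := congrFun h1 0
      exact one_ne_zero h2
  · filter_upwards [self_mem_nhdsWithin] with ε hε
    have hε' : 0 < ε := hε
    filter_upwards [Metric.ball_mem_nhds (0 : Cn 3) hε'] with u hu
    rw [mem_ball_zero_iff] at hu
    constructor
    · rintro ⟨h0, h1⟩
      refine ⟨(![0, 0, 0, u 2] : Cn 4), ?_, ⟨rfl, rfl, rfl⟩, ?_⟩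
      · rw [pi_norm_lt_iff hε']
        intro i
        have hu2 := (norm_le_pi_norm u 2).trans_lt hu
        fin_cases i
        · simpa using hε'
        · simpa using hε'
        · simpa using hε'
        · exact hu2
      · funext i
        fin_cases i
        · exact h0.symm
        · exact h1.symm
        · rfl
    · rintro ⟨x, -, ⟨h0, h1, h2⟩, rfl⟩
      exact ⟨h1, h2⟩
  · refine ⟨Eventually.of_forall fun x hx => by
      obtain ⟨h0, h1⟩ := hx
      simp [h0, h1], fun u : Cn 3 => (![u 0, u 2] : Cn 2), ?_, ?_, (fun w : Cn 2 => w 0),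
      {w : Cn 2 | w 0 = 0}, isCrit_second, ?_, ?_, ?_⟩
    · refine ⟨?_, ?_, ?_, ?_⟩
      · rw [equi_example_z2]; exact (equi_example_L _).analyticAt 0
      · rw [equi_example_z2]; exact map_zero _
      · rw [equi_example_z2, ContinuousLinearMap.fderiv]
        intro y
        refine ⟨(![y 0, 0, y 1] : Cn 3), ?_⟩
        funext i
        fin_cases i <;> rfl
      · refine Eventually.of_forall (fun x hz hf => ?_)
        have h0 : x 0 = 0 := congrFun hz 0
        have h2 : x 2 = 0 := congrFun hz 1
        simp only [h0, h2] at hf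
        have h1 : x 1 = 0 := by
          have : x 1 ^ 3 = 0 := by linear_combination hf
          exact pow_eq_zero_iff (by norm_num) |>.1 this
        funext i
        fin_cases i
        · exact h0
        · exact h1
        · exact h2
    · refine ⟨2, fun u : Cn 3 => (![u 0, u 1] : Cn 2), ⟨?_, ?_, ?_, ?_⟩, ?_⟩
      · rw [equi_example_p2]; exact (equi_example_L _).analyticAt 0
      · rw [equi_example_p2]; exact map_zero _
      · rw [equi_example_p2, ContinuousLinearMap.fderiv]
        intro y
        refine ⟨(![y 0, y 1, 0] : Cn 3), ?_⟩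
        funext i
        fin_cases i <;> rfl
      · refine Eventually.of_forall (fun x => ?_)
        constructor
        · rintro ⟨h0, h1⟩
          funext i
          fin_cases i
          · exact h0
          · exact h1
        · intro h
          exact ⟨congrFun h 0, congrFun h 1⟩
      · intro h
        rw [equi_example_z2, equi_example_p2, ContinuousLinearMap.fderiv,
          ContinuousLinearMap.fderiv] at h
        have h1 := h (![0, 1, 0] : Cn 3) (by
          funext i
          fin_cases i <;> rfl)
        have h2 : (1 : ℂ) = 0 := congrFun h1 1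
        exact one_ne_zero h2
    · filter_upwards [self_mem_nhdsWithin] with ε hε
      have hε' : 0 < ε := hε
      filter_upwards [Metric.ball_mem_nhds (0 : Cn 2) hε'] with u hu
      rw [mem_ball_zero_iff] at hu
      constructor
      · intro h0
        refine ⟨(![0, 0, u 1] : Cn 3), ?_, ⟨rfl, rfl⟩, ?_⟩
        · rw [pi_norm_lt_iff hε']
          intro i
          have hu2 := (norm_le_pi_norm u 1).trans_lt hu
          fin_cases i
          · simpa using hε'
          · simpa using hε'
          · exact hu2
        · funext i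
          fin_cases i
          · exact h0.symm
          · rfl
      · rintro ⟨x, -, ⟨h0, h1⟩, rfl⟩
        exact h0
    · refine ⟨fun w : Cn 2 => w 0, ?_, ?_, Eventually.of_forall (fun x => Iff.rfl)⟩
      · exact (ContinuousLinearMap.proj (R := ℂ) (φ := fun _ : Fin 2 => ℂ) 0).analyticAt 0
      · have h : (fun w : Cn 2 => w 0) =
            (ContinuousLinearMap.proj (R := ℂ) (φ := fun _ : Fin 2 => ℂ) 0) := rfl
        rw [h, ContinuousLinearMap.fderiv]
        intro h0
        have h1 := congrArg (fun T : Cn 2 →L[ℂ] ℂ => T (![1, 0] : Cn 2)) h0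
        have h2 : (1 : ℂ) = 0 := h1
        exact one_ne_zero h2
    · exact Eventually.of_forall (fun x => Iff.rfl)

end Pool.Agent.Helper308.ZGP
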