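import Pool.Agent.Helper308.ZGPDefs

set_option autoImplicit false

open Filter Topology

namespace Pool.Agent.Helper308.ZGP

/-- first derivative of `fE` along `ξ` -/
theorem G1_formula (ξ : Cn 4 → Cn 4) (p : Cn 4) :
    dv ξ fE p = -6 * p 0 ^ 5 * ξ p 0 + (4 * p 3 * p 1 ^ 3 * p 2 + 6 * p 1 ^ 5) * ξ p 1 +
      (3 * p 2 ^ 2 + p 3 * p 1 ^ 4) * ξ p 2 + p 1 ^ 4 * p 2 * ξ p 3 := by
  have hp : ∀ i : Fin 4, HasFDerivAt (fun q : Cn 4 => q i)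
      (ContinuousLinearMap.proj (R := ℂ) (φ := fun _ : Fin 4 => ℂ) i) p :=
    fun i => hasFDerivAt_apply i p
  have h := ((((hp 2).pow 3).add ((((hp 3).mul ((hp 1).pow 4))).mul (hp 2))).add
    ((hp 1).pow 6)).sub ((hp 0).pow 6)
  have h' : HasFDerivAt fE _ p := h
  unfold dv
  rw [h'.fderiv]
  simp
  ring

/-- differential of the first derivative -/
theorem dG1_formula (ξ : Cn 4 → Cn 4) (hξ : AnalyticAt ℂ ξ 0)
    (h2 : ∀ᶠ p in 𝓝 (0 : Cn 4), ξ p 2 = 1) :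
    ∀ᶠ p in 𝓝 (0 : Cn 4), ∀ v : Cn 4, fderiv ℂ (dv ξ fE) p v =
      -30 * p 0 ^ 4 * v 0 * ξ p 0 - 6 * p 0 ^ 5 * fderiv ℂ (fun q => ξ q 0) p v
      + ((12 * p 3 * p 1 ^ 2 * p 2 + 30 * p 1 ^ 4) * v 1 + 4 * p 3 * p 1 ^ 3 * v 2
          + 4 * p 1 ^ 3 * p 2 * v 3) * ξ p 1
      + (4 * p 3 * p 1 ^ 3 * p 2 + 6 * p 1 ^ 5) * fderiv ℂ (fun q => ξ q 1) p v
      + (6 * p 2 * v 2 + 4 * p 3 * p 1 ^ 3 * v 1 + p 1 ^ 4 * v 3)
      + (4 * p 1 ^ 3 * p 2 * v 1 + p 1 ^ 4 * v 2) * ξ p 3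
      + p 1 ^ 4 * p 2 * fderiv ℂ (fun q => ξ q 3) p v := by
  filter_upwards [hξ.eventually_analyticAt, eventually_eventually_nhds.2 h2] with p hp1 hp2 v
  have hd : DifferentiableAt ℂ ξ p := hp1.differentiableAt
  have hdi : ∀ i : Fin 4, DifferentiableAt ℂ (fun q => ξ q i) p := differentiableAt_pi.1 hd
  have hx : ∀ i : Fin 4, HasFDerivAt (fun q => ξ q i) (fderiv ℂ (fun q => ξ q i) p) p :=
    fun i => (hdi i).hasFDerivAt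
  have hp : ∀ i : Fin 4, HasFDerivAt (fun q : Cn 4 => q i)
      (ContinuousLinearMap.proj (R := ℂ) (φ := fun _ : Fin 4 => ℂ) i) p :=
    fun i => hasFDerivAt_apply i p
  have he : dv ξ fE =ᶠ[𝓝 p] fun p => -6 * p 0 ^ 5 * ξ p 0 +
      (4 * p 3 * p 1 ^ 3 * p 2 + 6 * p 1 ^ 5) * ξ p 1 +
      (3 * p 2 ^ 2 + p 3 * p 1 ^ 4) + p 1 ^ 4 * p 2 * ξ p 3 := by
    filter_upwards [hp2] with q hq
    rw [G1_formula, hq, mul_one]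
  rw [he.fderiv_eq]
  have h := ((((((hp 0).pow 5).const_mul (-6)).mul (hx 0)).add
    ((((((hp 3).const_mul 4).mul ((hp 1).pow 3)).mul (hp 2)).add
      (((hp 1).pow 5).const_mul 6)).mul (hx 1))).add
    ((((hp 2).pow 2).const_mul 3).add ((hp 3).mul ((hp 1).pow 4)))).add
    ((((hp 1).pow 4).mul (hp 2)).mul (hx 3))
  have h' : HasFDerivAt (fun p : Cn 4 => -6 * p 0 ^ 5 * ξ p 0 +
      (4 * p 3 * p 1 ^ 3 * p 2 + 6 * p 1 ^ 5) * ξ p 1 +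
      (3 * p 2 ^ 2 + p 3 * p 1 ^ 4) + p 1 ^ 4 * p 2 * ξ p 3) _ p := h
  rw [h'.fderiv]
  simp
  ring

private theorem dv_analytic {ξ : Cn 4 → Cn 4} (hξ : AnalyticAt ℂ ξ 0) {g : Cn 4 → ℂ}
    (hg : AnalyticAt ℂ g 0) : AnalyticAt ℂ (dv ξ g) 0 := by
  unfold dv
  have h1 := ContinuousLinearMap.analyticAt_bilinear
    (ContinuousLinearMap.apply ℂ ℂ : Cn 4 →L[ℂ] (Cn 4 →L[ℂ] ℂ) →L[ℂ] ℂ) (ξ 0, fderiv ℂ g 0)
  exact h1.comp₂ hξ hg.fderiv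

private theorem comp_analytic {ξ : Cn 4 → Cn 4} (hξ : AnalyticAt ℂ ξ 0) (i : Fin 4) :
    AnalyticAt ℂ (fun q => ξ q i) 0 :=
  ((ContinuousLinearMap.proj (R := ℂ) (φ := fun _ : Fin 4 => ℂ) i).analyticAt _).comp hξ

private theorem coord_analytic (i : Fin 4) (p : Cn 4) :
    AnalyticAt ℂ (fun q : Cn 4 => q i) p :=
  (ContinuousLinearMap.proj (R := ℂ) (φ := fun _ : Fin 4 => ℂ) i).analyticAt _

private theorem sq_mul_fderiv (i : Fin 4) {a : Cn 4 → ℂ} (ha : DifferentiableAt ℂ a 0) :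
    HasFDerivAt (fun q : Cn 4 => q i ^ 2 * a q) (0 : Cn 4 →L[ℂ] ℂ) 0 := by
  have hp : HasFDerivAt (fun q : Cn 4 => q i)
      (ContinuousLinearMap.proj (R := ℂ) (φ := fun _ : Fin 4 => ℂ) i) 0 :=
    hasFDerivAt_apply i 0
  have h := (hp.pow 2).mul ha.hasFDerivAt
  have h' : HasFDerivAt (fun q : Cn 4 => q i ^ 2 * a q) _ 0 := h
  have e : (0 : Cn 4 →L[ℂ] ℂ) = ((0 : Cn 4) i ^ 2 • fderiv ℂ a 0 + a 0 • (2 • (0 : Cn 4) i ^ (2 - 1)) •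
      ContinuousLinearMap.proj (R := ℂ) (φ := fun _ : Fin 4 => ℂ) i) := by
    ext v
    simp
  rw [e]
  exact h'

/-- the third derivative does not vanish near the origin -/
theorem G3_ne (ξ : Cn 4 → Cn 4) (hξ : AnalyticAt ℂ ξ 0)
    (h2 : ∀ᶠ p in 𝓝 (0 : Cn 4), ξ p 2 = 1) :
    ∀ᶠ p in 𝓝 (0 : Cn 4), dv ξ (dv ξ (dv ξ fE)) p ≠ 0 := by
  have hfE : AnalyticAt ℂ fE 0 := by
    unfold fE
    have := coord_analytic
    exact ((((this 2 0).pow 3).add (((this 3 0).mul ((this 1 0).pow 4)).mul (this 2 0))).add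
      ((this 1 0).pow 6)).sub ((this 0 0).pow 6)
  have hG3 : AnalyticAt ℂ (dv ξ (dv ξ (dv ξ fE))) 0 :=
    dv_analytic hξ (dv_analytic hξ (dv_analytic hξ hfE))
  have hA : ∀ i : Fin 4, DifferentiableAt ℂ (dv ξ (fun q => ξ q i)) 0 := fun i =>
    (dv_analytic hξ (comp_analytic hξ i)).differentiableAt
  have hX : ∀ i : Fin 4, DifferentiableAt ℂ (fun q => ξ q i) 0 := fun i =>
    (comp_analytic hξ i).differentiableAt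
  have hC : ∀ i : Fin 4, DifferentiableAt ℂ (fun q : Cn 4 => q i) 0 := fun i =>
    (coord_analytic i 0).differentiableAt
  have he : dv ξ (dv ξ fE) =ᶠ[𝓝 0] fun q => 6 * q 2 + q 0 ^ 2 * (-30 * q 0 ^ 2 * ξ q 0 ^ 2
      - 6 * q 0 ^ 3 * dv ξ (fun q => ξ q 0) q) + q 1 ^ 2 * ((12 * q 3 * q 2 + 30 * q 1 ^ 2) *
        ξ q 1 ^ 2 + 4 * q 3 * q 1 * ξ q 1 + 4 * q 1 * q 2 * ξ q 3 * ξ q 1
        + (4 * q 3 * q 1 * q 2 + 6 * q 1 ^ 3) * dv ξ (fun q => ξ q 1) q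
        + 4 * q 3 * q 1 * ξ q 1 + q 1 ^ 2 * ξ q 3 + 4 * q 1 * q 2 * ξ q 1 * ξ q 3
        + q 1 ^ 2 * ξ q 3 + q 1 ^ 2 * q 2 * dv ξ (fun q => ξ q 3) q) := by
    filter_upwards [dG1_formula ξ hξ h2, h2] with q hq hq2
    have := hq (ξ q)
    show fderiv ℂ (dv ξ fE) q (ξ q) = _
    rw [this, hq2]
    unfold dv
    ring
  have h0 : dv ξ (dv ξ (dv ξ fE)) 0 = 6 := by
    show fderiv ℂ (dv ξ (dv ξ fE)) 0 (ξ 0) = _
    rw [he.fderiv_eq]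
    have k1 : HasFDerivAt (fun q : Cn 4 => q 2)
      (ContinuousLinearMap.proj (R := ℂ) (φ := fun _ : Fin 4 => ℂ) 2) 0 :=
      hasFDerivAt_apply 2 0
    have k2 := sq_mul_fderiv 0 (a := fun q => (-30 * q 0 ^ 2 * ξ q 0 ^ 2
      - 6 * q 0 ^ 3 * dv ξ (fun q => ξ q 0) q)) (by
        have e0 := hC 0
        have e1 := hX 0
        have e2 := hA 0
        fun_prop)
    have k3 := sq_mul_fderiv 1 (a := fun q => ((12 * q 3 * q 2 + 30 * q 1 ^ 2) *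
        ξ q 1 ^ 2 + 4 * q 3 * q 1 * ξ q 1 + 4 * q 1 * q 2 * ξ q 3 * ξ q 1
        + (4 * q 3 * q 1 * q 2 + 6 * q 1 ^ 3) * dv ξ (fun q => ξ q 1) q
        + 4 * q 3 * q 1 * ξ q 1 + q 1 ^ 2 * ξ q 3 + 4 * q 1 * q 2 * ξ q 1 * ξ q 3
        + q 1 ^ 2 * ξ q 3 + q 1 ^ 2 * q 2 * dv ξ (fun q => ξ q 3) q)) (by
        have e1 := hC 1
        have e2 := hC 2
        have e3 := hC 3
        have x1 := hX 1
        have x3 := hX 3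
        have a1 := hA 1
        have a3 := hA 3
        fun_prop)
    have k := ((k1.const_mul 6).add k2).add k3
    have k' : HasFDerivAt (fun q : Cn 4 => 6 * q 2 + q 0 ^ 2 * (-30 * q 0 ^ 2 * ξ q 0 ^ 2
      - 6 * q 0 ^ 3 * dv ξ (fun q => ξ q 0) q) + q 1 ^ 2 * ((12 * q 3 * q 2 + 30 * q 1 ^ 2) *
        ξ q 1 ^ 2 + 4 * q 3 * q 1 * ξ q 1 + 4 * q 1 * q 2 * ξ q 3 * ξ q 1
        + (4 * q 3 * q 1 * q 2 + 6 * q 1 ^ 3) * dv ξ (fun q => ξ q 1) q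
        + 4 * q 3 * q 1 * ξ q 1 + q 1 ^ 2 * ξ q 3 + 4 * q 1 * q 2 * ξ q 1 * ξ q 3
        + q 1 ^ 2 * ξ q 3 + q 1 ^ 2 * q 2 * dv ξ (fun q => ξ q 3) q)) _ 0 := k
    rw [k'.fderiv]
    simp [h2.self_of_nhds]
  have hc : ContinuousAt (dv ξ (dv ξ (dv ξ fE))) 0 := hG3.continuousAt
  exact hc.eventually_ne (by rw [h0]; norm_num)

end Pool.Agent.Helper308.ZGP
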