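import Pool.Agent.Helper308.ZGPDefs

set_option autoImplicit false

open Filter Topology

namespace Pool.Agent.Helper308.ZGP

/-- a continuous implicit function -/
theorem implicit_three (K : ℂ × Cn 3 → Cn 3) (q0 : Cn 3) (hK : AnalyticAt ℂ K (0, q0))
    (h0 : K (0, q0) = 0) (hi : ∀ v : Cn 3, fderiv ℂ K (0, q0) (0, v) = 0 → v = 0) :
    ∃ q : ℂ → Cn 3, ContinuousAt q 0 ∧ q 0 = q0 ∧ ∀ᶠ s in 𝓝 (0 : ℂ), K (s, q s) = 0 := by
  have hd : HasStrictFDerivAt K (fderiv ℂ K (0, q0)) (0, q0) := hK.hasStrictFDerivAt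
  set L : Cn 3 →L[ℂ] Cn 3 := (fderiv ℂ K (0, q0)) ∘L (.inr ℂ ℂ (Cn 3)) with hL
  have hinj : Function.Injective (L : Cn 3 →ₗ[ℂ] Cn 3) := by
    rw [← LinearMap.ker_eq_bot, LinearMap.ker_eq_bot']
    intro v hv
    exact hi v hv
  have hinv : L.IsInvertible := by
    refine ⟨(LinearEquiv.ofInjectiveEndo (L : Cn 3 →ₗ[ℂ] Cn 3) hinj).toContinuousLinearEquiv, ?_⟩
    ext v
    rfl
  refine ⟨hd.implicitFunctionOfProdDomain hinv, ?_, ?_, ?_⟩
  · exact (hd.hasStrictFDerivAt_implicitFunctionOfProdDomain hinv).continuousAt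
  · exact (hd.eventually_apply_eq_iff_implicitFunctionOfProdDomain hinv).self_of_nhds.mp rfl
  · have := hd.eventually_apply_implicitFunctionOfProdDomain hinv
    rw [h0] at this
    exact this

end Pool.Agent.Helper308.ZGP
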