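import Pool.Agent.Helper308.ZGPDefs
import Pool.Agent.Helper308.ZGPImplicit
import Pool.Agent.Helper308.ZGPGder

set_option autoImplicit false

open Filter Topology

namespace Pool.Agent.Helper308.ZGP

/-- the scaled point -/
noncomputable def PPs (w : ℂ × Cn 3) : Cn 4 :=
  ![w.1 * w.2 0, w.1, w.1 ^ 4 * w.2 2, w.1 * w.2 1]

/-- the scaled equations -/
noncomputable def KKs (ξ : Cn 4 → Cn 4) (w : ℂ × Cn 3) : Cn 3 :=
  ![1 - w.2 0 ^ 6 + w.1 ^ 3 * w.2 1 * w.2 2 + w.1 ^ 6 * w.2 2 ^ 3,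
    w.2 1 + 6 * ξ (PPs w) 1 - 6 * w.2 0 ^ 5 * ξ (PPs w) 0 +
      w.1 ^ 3 * (3 * w.2 2 ^ 2 + ξ (PPs w) 3 * w.2 2 + 4 * ξ (PPs w) 1 * w.2 1 * w.2 2),
    6 * w.2 2 + 2 * ξ (PPs w) 3 + 8 * ξ (PPs w) 1 * w.2 1 + 30 * ξ (PPs w) 1 ^ 2
      - 30 * ξ (PPs w) 0 ^ 2 * w.2 0 ^ 4
      + w.1 * (12 * w.1 ^ 2 * w.2 1 * w.2 2 * ξ (PPs w) 1 ^ 2
        + 8 * w.1 ^ 2 * w.2 2 * ξ (PPs w) 1 * ξ (PPs w) 3
        - 6 * w.2 0 ^ 5 * fderiv ℂ (fun q => ξ q 0) (PPs w) (ξ (PPs w))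
        + (4 * w.1 ^ 3 * w.2 1 * w.2 2 + 6) * fderiv ℂ (fun q => ξ q 1) (PPs w) (ξ (PPs w))
        + w.1 ^ 3 * w.2 2 * fderiv ℂ (fun q => ξ q 3) (PPs w) (ξ (PPs w)))]

theorem PPs_analytic (w : ℂ × Cn 3) : AnalyticAt ℂ PPs w := by
  have h1 : AnalyticAt ℂ (fun w : ℂ × Cn 3 => w.1) w := analyticAt_fst
  have h2 : ∀ i : Fin 3, AnalyticAt ℂ (fun w : ℂ × Cn 3 => w.2 i) w := fun i =>
    ((ContinuousLinearMap.proj (R := ℂ) (φ := fun _ : Fin 3 => ℂ) i).comp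
      (ContinuousLinearMap.snd ℂ ℂ (Cn 3))).analyticAt w
  unfold PPs
  refine analyticAt_pi_iff.2 fun i => ?_
  fin_cases i
  · exact h1.mul (h2 0)
  · exact h1
  · exact (h1.pow 4).mul (h2 2)
  · exact h1.mul (h2 1)

theorem PPs_zero (q : Cn 3) : PPs (0, q) = 0 := by
  funext i
  fin_cases i <;> simp [PPs]

theorem xi_comp_analytic (ξ : Cn 4 → Cn 4) (hξ : AnalyticAt ℂ ξ 0) (i : Fin 4) :
    AnalyticAt ℂ (fun p => ξ p i) 0 := (analyticAt_pi_iff.1 hξ) i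

theorem xi_PPs_analytic (ξ : Cn 4 → Cn 4) (hξ : AnalyticAt ℂ ξ 0) (q0 : Cn 3) (i : Fin 4) :
    AnalyticAt ℂ (fun w : ℂ × Cn 3 => ξ (PPs w) i) (0, q0) := by
  have h := xi_comp_analytic ξ hξ i
  rw [← PPs_zero q0] at h
  exact h.comp (PPs_analytic (0, q0))

theorem dxi_PPs_analytic (ξ : Cn 4 → Cn 4) (hξ : AnalyticAt ℂ ξ 0) (q0 : Cn 3) (i : Fin 4) :
    AnalyticAt ℂ (fun w : ℂ × Cn 3 => fderiv ℂ (fun q => ξ q i) (PPs w) (ξ (PPs w))) (0, q0) := by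
  have h1 := (xi_comp_analytic ξ hξ i).fderiv
  have hb : AnalyticAt ℂ (fun z : (Cn 4 →L[ℂ] ℂ) × Cn 4 => z.1 z.2)
      (fderiv ℂ (fun q => ξ q i) 0, ξ 0) :=
    (ContinuousLinearMap.id ℂ (Cn 4 →L[ℂ] ℂ)).analyticAt_bilinear _
  have h3 : AnalyticAt ℂ (fun p => fderiv ℂ (fun q => ξ q i) p (ξ p)) 0 := hb.comp₂ h1 hξ
  rw [← PPs_zero q0] at h3
  exact h3.comp (PPs_analytic (0, q0))

theorem KKs_analytic (ξ : Cn 4 → Cn 4) (hξ : AnalyticAt ℂ ξ 0) (q0 : Cn 3) :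
    AnalyticAt ℂ (KKs ξ) (0, q0) := by
  have h1 : AnalyticAt ℂ (fun w : ℂ × Cn 3 => w.1) (0, q0) := analyticAt_fst
  have h2 : ∀ i : Fin 3, AnalyticAt ℂ (fun w : ℂ × Cn 3 => w.2 i) (0, q0) := fun i =>
    ((ContinuousLinearMap.proj (R := ℂ) (φ := fun _ : Fin 3 => ℂ) i).comp
      (ContinuousLinearMap.snd ℂ ℂ (Cn 3))).analyticAt (0, q0)
  have hx := xi_PPs_analytic ξ hξ q0
  have hd := dxi_PPs_analytic ξ hξ q0
  have hc : ∀ c : ℂ, AnalyticAt ℂ (fun _ : ℂ × Cn 3 => c) (0, q0) := fun c => analyticAt_const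
  unfold KKs
  refine analyticAt_pi_iff.2 fun i => ?_
  fin_cases i
  · exact (((hc 1).sub ((h2 0).pow 6)).add (((h1.pow 3).mul (h2 1)).mul (h2 2))).add
      ((h1.pow 6).mul ((h2 2).pow 3))
  · exact ((((h2 1).add ((hc 6).mul (hx 1))).sub (((hc 6).mul ((h2 0).pow 5)).mul (hx 0))).add
      ((h1.pow 3).mul ((((hc 3).mul ((h2 2).pow 2)).add ((hx 3).mul (h2 2))).add
        ((((hc 4).mul (hx 1)).mul (h2 1)).mul (h2 2)))))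
  · exact ((((((hc 6).mul (h2 2)).add ((hc 2).mul (hx 3))).add (((hc 8).mul (hx 1)).mul (h2 1))).add
      ((hc 30).mul ((hx 1).pow 2))).sub (((hc 30).mul ((hx 0).pow 2)).mul ((h2 0).pow 4))).add
      (h1.mul (((((((((hc 12).mul (h1.pow 2)).mul (h2 1)).mul (h2 2)).mul ((hx 1).pow 2)).add
        (((((hc 8).mul (h1.pow 2)).mul (h2 2)).mul (hx 1)).mul (hx 3))).sub
        (((hc 6).mul ((h2 0).pow 5)).mul (hd 0))).add
        ((((((hc 4).mul (h1.pow 3)).mul (h2 1)).mul (h2 2)).add (hc 6)).mul (hd 1))).add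
        (((h1.pow 3).mul (h2 2)).mul (hd 3))))

theorem PPs_0 (w : ℂ × Cn 3) : PPs w 0 = w.1 * w.2 0 := rfl
theorem PPs_1 (w : ℂ × Cn 3) : PPs w 1 = w.1 := rfl
theorem PPs_2 (w : ℂ × Cn 3) : PPs w 2 = w.1 ^ 4 * w.2 2 := rfl
theorem PPs_3 (w : ℂ × Cn 3) : PPs w 3 = w.1 * w.2 1 := rfl

theorem KKs_0 (ξ : Cn 4 → Cn 4) (w : ℂ × Cn 3) :
    KKs ξ w 0 = 1 - w.2 0 ^ 6 + w.1 ^ 3 * w.2 1 * w.2 2 + w.1 ^ 6 * w.2 2 ^ 3 := rfl
theorem KKs_1 (ξ : Cn 4 → Cn 4) (w : ℂ × Cn 3) :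
    KKs ξ w 1 = w.2 1 + 6 * ξ (PPs w) 1 - 6 * w.2 0 ^ 5 * ξ (PPs w) 0 +
      w.1 ^ 3 * (3 * w.2 2 ^ 2 + ξ (PPs w) 3 * w.2 2 + 4 * ξ (PPs w) 1 * w.2 1 * w.2 2) := rfl
theorem KKs_2 (ξ : Cn 4 → Cn 4) (w : ℂ × Cn 3) :
    KKs ξ w 2 = 6 * w.2 2 + 2 * ξ (PPs w) 3 + 8 * ξ (PPs w) 1 * w.2 1 + 30 * ξ (PPs w) 1 ^ 2
      - 30 * ξ (PPs w) 0 ^ 2 * w.2 0 ^ 4
      + w.1 * (12 * w.1 ^ 2 * w.2 1 * w.2 2 * ξ (PPs w) 1 ^ 2
        + 8 * w.1 ^ 2 * w.2 2 * ξ (PPs w) 1 * ξ (PPs w) 3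
        - 6 * w.2 0 ^ 5 * fderiv ℂ (fun q => ξ q 0) (PPs w) (ξ (PPs w))
        + (4 * w.1 ^ 3 * w.2 1 * w.2 2 + 6) * fderiv ℂ (fun q => ξ q 1) (PPs w) (ξ (PPs w))
        + w.1 ^ 3 * w.2 2 * fderiv ℂ (fun q => ξ q 3) (PPs w) (ξ (PPs w))) := rfl

theorem fE_PPs (ξ : Cn 4 → Cn 4) (w : ℂ × Cn 3) : fE (PPs w) = w.1 ^ 6 * KKs ξ w 0 := by
  rw [KKs_0]
  unfold fE
  rw [PPs_0, PPs_1, PPs_2, PPs_3]
  ring

theorem G1_PPs (ξ : Cn 4 → Cn 4) (w : ℂ × Cn 3) (h2 : ξ (PPs w) 2 = 1) :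
    dv ξ fE (PPs w) = w.1 ^ 5 * KKs ξ w 1 := by
  rw [KKs_1, G1_formula, h2, PPs_0, PPs_1, PPs_2, PPs_3]
  ring

theorem G2_PPs (ξ : Cn 4 → Cn 4) (w : ℂ × Cn 3) (h2 : ξ (PPs w) 2 = 1)
    (hd : ∀ v : Cn 4, fderiv ℂ (dv ξ fE) (PPs w) v =
      -30 * PPs w 0 ^ 4 * v 0 * ξ (PPs w) 0 - 6 * PPs w 0 ^ 5 * fderiv ℂ (fun q => ξ q 0) (PPs w) v
      + ((12 * PPs w 3 * PPs w 1 ^ 2 * PPs w 2 + 30 * PPs w 1 ^ 4) * v 1
          + 4 * PPs w 3 * PPs w 1 ^ 3 * v 2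
          + 4 * PPs w 1 ^ 3 * PPs w 2 * v 3) * ξ (PPs w) 1
      + (4 * PPs w 3 * PPs w 1 ^ 3 * PPs w 2 + 6 * PPs w 1 ^ 5)
        * fderiv ℂ (fun q => ξ q 1) (PPs w) v
      + (6 * PPs w 2 * v 2 + 4 * PPs w 3 * PPs w 1 ^ 3 * v 1 + PPs w 1 ^ 4 * v 3)
      + (4 * PPs w 1 ^ 3 * PPs w 2 * v 1 + PPs w 1 ^ 4 * v 2) * ξ (PPs w) 3
      + PPs w 1 ^ 4 * PPs w 2 * fderiv ℂ (fun q => ξ q 3) (PPs w) v) :
    dv ξ (dv ξ fE) (PPs w) = w.1 ^ 4 * KKs ξ w 2 := by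
  have h := hd (ξ (PPs w))
  rw [h2] at h
  show fderiv ℂ (dv ξ fE) (PPs w) (ξ (PPs w)) = _
  rw [h, KKs_2, PPs_0, PPs_1, PPs_2, PPs_3]
  ring

theorem KKs_inj (ξ : Cn 4 → Cn 4) (hξ : AnalyticAt ℂ ξ 0) (σ : ℂ) (hσ : σ ^ 6 = 1) (q0 : Cn 3)
    (h00 : q0 0 = σ) (v : Cn 3) (hv : fderiv ℂ (KKs ξ) (0, q0) (0, v) = 0) : v = 0 := by
  have hσ0 : σ ≠ 0 := by
    rintro rfl
    norm_num at hσ
  have h1 : HasFDerivAt (KKs ξ) (fderiv ℂ (KKs ξ) (0, q0)) (0, q0) :=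
    (KKs_analytic ξ hξ q0).differentiableAt.hasFDerivAt
  have h2 : HasDerivAt (fun ε : ℂ => (((0 : ℂ), q0 + ε • v) : ℂ × Cn 3)) (0, v) 0 := by
    have ha : HasDerivAt (fun _ : ℂ => (0 : ℂ)) 0 0 := hasDerivAt_const _ _
    have hb : HasDerivAt (fun ε : ℂ => q0 + ε • v) v 0 := by
      have := ((hasDerivAt_id (0 : ℂ)).smul_const v).const_add q0
      simpa using this
    exact ha.prodMk hb
  have h3 : HasDerivAt (fun ε : ℂ => KKs ξ (0, q0 + ε • v)) (fderiv ℂ (KKs ξ) (0, q0) (0, v)) 0 := by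
    have h1' : HasFDerivAt (KKs ξ) (fderiv ℂ (KKs ξ) (0, q0)) ((0 : ℂ), q0 + (0 : ℂ) • v) := by
      simpa using h1
    exact h1'.comp_hasDerivAt (0 : ℂ) h2
  rw [hv] at h3
  have h4 := hasDerivAt_pi.1 h3
  have hl : ∀ i : Fin 3, HasDerivAt (fun ε : ℂ => q0 i + ε * v i) (v i) 0 := by
    intro i
    have := ((hasDerivAt_id (0 : ℂ)).mul_const (v i)).const_add (q0 i)
    simpa using this
  -- first component
  have e0 : (fun ε : ℂ => KKs ξ (0, q0 + ε • v) 0) = fun ε => 1 - (q0 0 + ε * v 0) ^ 6 := by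
    funext ε
    rw [KKs_0]
    simp
  have d0 : HasDerivAt (fun ε : ℂ => 1 - (q0 0 + ε * v 0) ^ 6) (-(6 * q0 0 ^ 5 * v 0)) 0 := by
    have := ((hl 0).pow 6).const_sub 1
    simpa using this
  have v0 : v 0 = 0 := by
    have h5 := h4 0
    rw [e0] at h5
    have h6 := h5.unique d0
    simp only [Pi.zero_apply] at h6
    have h7 : 6 * q0 0 ^ 5 * v 0 = 0 := by linear_combination h6
    rw [h00] at h7
    rcases mul_eq_zero.1 h7 with h8 | h8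
    · exact absurd h8 (mul_ne_zero (by norm_num) (pow_ne_zero _ hσ0))
    · exact h8
  have e1 : (fun ε : ℂ => KKs ξ (0, q0 + ε • v) 1) =
      fun ε => (q0 1 + ε * v 1) + 6 * ξ 0 1 - 6 * q0 0 ^ 5 * ξ 0 0 := by
    funext ε
    rw [KKs_1, PPs_zero]
    simp [v0]
  have v1 : v 1 = 0 := by
    have h5 := h4 1
    rw [e1] at h5
    have h6 := h5.unique (((hl 1).add_const (6 * ξ 0 1)).sub_const (6 * q0 0 ^ 5 * ξ 0 0))
    simpa using h6.symm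
  have e2 : (fun ε : ℂ => KKs ξ (0, q0 + ε • v) 2) =
      fun ε => 6 * (q0 2 + ε * v 2) + (2 * ξ 0 3 + 8 * ξ 0 1 * q0 1 + 30 * ξ 0 1 ^ 2
        - 30 * ξ 0 0 ^ 2 * q0 0 ^ 4) := by
    funext ε
    rw [KKs_2, PPs_zero]
    simp [v0, v1]
    ring
  have v2 : v 2 = 0 := by
    have h5 := h4 2
    rw [e2] at h5
    have h6 := h5.unique (((hl 2).const_mul 6).add_const (2 * ξ 0 3 + 8 * ξ 0 1 * q0 1
      + 30 * ξ 0 1 ^ 2 - 30 * ξ 0 0 ^ 2 * q0 0 ^ 4))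
    simpa using h6.symm
  funext i
  fin_cases i
  · exact v0
  · exact v1
  · exact v2

theorem hasDerivAt_smul_cont {E : Type*} [NormedAddCommGroup E] [NormedSpace ℂ E] (g : ℂ → E)
    (hg : ContinuousAt g 0) : HasDerivAt (fun s : ℂ => s • g s) (g 0) 0 := by
  rw [hasDerivAt_iff_tendsto_slope]
  have h1 : Tendsto g (𝓝[≠] (0 : ℂ)) (𝓝 (g 0)) := hg.tendsto.mono_left nhdsWithin_le_nhds
  refine h1.congr' ?_
  filter_upwards [self_mem_nhdsWithin] with s hs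
  have hs' : s ≠ 0 := hs
  simp [slope, smul_smul, inv_mul_cancel₀ hs']

/-- coefficients of the linear system -/
noncomputable def mu0 (ξ : Cn 4 → Cn 4) (q : ℂ → Cn 3) (s : ℂ) : ℂ :=
  -30 * q s 0 ^ 4 * ξ (PPs (s, q s)) 0
    - 6 * s * q s 0 ^ 5 * fderiv ℂ (fun p => ξ p 0) (PPs (s, q s)) (Pi.single 0 1)
    + (4 * s ^ 4 * q s 1 * q s 2 + 6 * s) *
      fderiv ℂ (fun p => ξ p 1) (PPs (s, q s)) (Pi.single 0 1)
    + s ^ 4 * q s 2 * fderiv ℂ (fun p => ξ p 3) (PPs (s, q s)) (Pi.single 0 1)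

noncomputable def mu3 (ξ : Cn 4 → Cn 4) (q : ℂ → Cn 3) (s : ℂ) : ℂ :=
  1 - 6 * s * q s 0 ^ 5 * fderiv ℂ (fun p => ξ p 0) (PPs (s, q s)) (Pi.single 3 1)
    + (4 * s ^ 4 * q s 1 * q s 2 + 6 * s) *
      fderiv ℂ (fun p => ξ p 1) (PPs (s, q s)) (Pi.single 3 1)
    + 4 * s ^ 3 * q s 2 * ξ (PPs (s, q s)) 1
    + s ^ 4 * q s 2 * fderiv ℂ (fun p => ξ p 3) (PPs (s, q s)) (Pi.single 3 1)

/-- A curve in `{f = 0, ξ f = 0, ξ ξ f = 0}` with tangent vector `(σ, 1, 0, τ)` at the origin. -/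
theorem exists_gamma (ξ : Cn 4 → Cn 4) (hξ : AnalyticAt ℂ ξ 0)
    (h2 : ∀ᶠ p in 𝓝 (0 : Cn 4), ξ p 2 = 1) (σ : ℂ) (hσ : σ ^ 6 = 1) :
    ∃ (Γ : ℂ → Cn 4) (τ : ℂ), Γ 0 = 0 ∧ HasDerivAt Γ ![σ, 1, 0, τ] 0 ∧
      ∀ᶠ s in 𝓝[≠] (0 : ℂ), fE (Γ s) = 0 ∧ dv ξ fE (Γ s) = 0 ∧ dv ξ (dv ξ fE) (Γ s) = 0 ∧
        ∀ v : Cn 4, fderiv ℂ fE (Γ s) v = 0 → fderiv ℂ (dv ξ fE) (Γ s) v = 0 → v 1 = 0 →
          v 2 = 0 → v = 0 := by
  set a0 := ξ 0 0 with ha0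
  set b0 := ξ 0 1 with hb0
  set c0 := ξ 0 3 with hc0
  set T0 : ℂ := 6 * (a0 * σ ^ 5 - b0) with hT0
  set l0 : ℂ := -(2 * c0 + 8 * b0 * T0 + 30 * b0 ^ 2 - 30 * a0 ^ 2 * σ ^ 4) / 6 with hl0
  set q0 : Cn 3 := ![σ, T0, l0] with hq0def
  have hσ0 : σ ≠ 0 := by
    rintro rfl
    norm_num at hσ
  have e0 : q0 0 = σ := rfl
  have e1 : q0 1 = T0 := rfl
  have e2 : q0 2 = l0 := rfl
  have hK0 : KKs ξ (0, q0) = 0 := by
    funext i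
    fin_cases i
    · show KKs ξ (0, q0) 0 = 0
      rw [KKs_0]
      simp [e0, hσ]
    · show KKs ξ (0, q0) 1 = 0
      rw [KKs_1, PPs_zero]
      simp only [e0, e1, ← ha0, ← hb0, hT0]
      ring
    · show KKs ξ (0, q0) 2 = 0
      rw [KKs_2, PPs_zero]
      simp only [e0, e1, e2, ← ha0, ← hb0, ← hc0]
      rw [hl0]
      ring
  obtain ⟨q, hqc, hqz, hqK⟩ := implicit_three (KKs ξ) q0 (KKs_analytic ξ hξ q0) hK0
    (KKs_inj ξ hξ σ hσ q0 e0)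
  have hqi : ∀ i : Fin 3, ContinuousAt (fun s => q s i) 0 := fun i =>
    (continuousAt_pi.1 hqc) i
  -- derivative
  have hg : ContinuousAt (fun s : ℂ => (![q s 0, 1, s ^ 3 * q s 2, q s 1] : Cn 4)) 0 := by
    rw [continuousAt_pi]
    intro i
    fin_cases i
    · exact hqi 0
    · exact continuousAt_const
    · exact ((continuousAt_id).pow 3).mul (hqi 2)
    · exact hqi 1
  have hΓd : HasDerivAt (fun s => PPs (s, q s)) ![σ, 1, 0, T0] 0 := by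
    have h := hasDerivAt_smul_cont _ hg
    have h1 : (fun s : ℂ => s • (![q s 0, 1, s ^ 3 * q s 2, q s 1] : Cn 4)) =
        fun s => PPs (s, q s) := by
      funext s i
      fin_cases i
      · simp [PPs]
      · simp [PPs]
      · simp [PPs]; ring
      · simp [PPs]
    have h2 : (![q 0 0, 1, (0 : ℂ) ^ 3 * q 0 2, q 0 1] : Cn 4) = ![σ, 1, 0, T0] := by
      rw [hqz, e0, e1]
      simp
    rw [h1, h2] at h
    exact h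
  have hΓ0 : PPs ((0 : ℂ), q 0) = 0 := PPs_zero _
  have hΓt : Tendsto (fun s => PPs (s, q s)) (𝓝 0) (𝓝 0) := by
    have := hΓd.continuousAt.tendsto
    rwa [hΓ0] at this
  -- continuity of the coefficients
  have hx : ∀ i : Fin 4, ContinuousAt (fun s => ξ (PPs (s, q s)) i) 0 := by
    intro i
    have h := (xi_comp_analytic ξ hξ i).continuousAt
    have h' : ContinuousAt (fun p => ξ p i) (PPs ((0 : ℂ), q 0)) := by rw [hΓ0]; exact h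
    exact ContinuousAt.comp (f := fun s => PPs (s, q s)) h' hΓd.continuousAt
  have hdx : ∀ (i : Fin 4) (v : Cn 4),
      ContinuousAt (fun s => fderiv ℂ (fun p => ξ p i) (PPs (s, q s)) v) 0 := by
    intro i v
    have h := (xi_comp_analytic ξ hξ i).fderiv.continuousAt
    have h' : ContinuousAt (fderiv ℂ (fun p => ξ p i)) (PPs ((0 : ℂ), q 0)) := by
      rw [hΓ0]; exact h
    have h2 : ContinuousAt (fun s => fderiv ℂ (fun p => ξ p i) (PPs (s, q s))) 0 :=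
      ContinuousAt.comp (f := fun s => PPs (s, q s)) h' hΓd.continuousAt
    exact h2.clm_apply continuousAt_const
  have hs1 : ContinuousAt (fun s : ℂ => s) 0 := continuousAt_id
  have hcc : ∀ c : ℂ, ContinuousAt (fun _ : ℂ => c) 0 := fun c => continuousAt_const
  have hm0 : ContinuousAt (mu0 ξ q) 0 := by
    unfold mu0
    exact (((((hcc (-30)).mul ((hqi 0).pow 4)).mul (hx 0)).sub
      ((((hcc 6).mul hs1).mul ((hqi 0).pow 5)).mul (hdx 0 _))).add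
      ((((((hcc 4).mul (hs1.pow 4)).mul (hqi 1)).mul (hqi 2)).add ((hcc 6).mul hs1)).mul
        (hdx 1 _))).add (((hs1.pow 4).mul (hqi 2)).mul (hdx 3 _))
  have hm3 : ContinuousAt (mu3 ξ q) 0 := by
    unfold mu3
    exact ((((hcc 1).sub ((((hcc 6).mul hs1).mul ((hqi 0).pow 5)).mul (hdx 0 _))).add
      ((((((hcc 4).mul (hs1.pow 4)).mul (hqi 1)).mul (hqi 2)).add ((hcc 6).mul hs1)).mul
        (hdx 1 _))).add ((((hcc 4).mul (hs1.pow 3)).mul (hqi 2)).mul (hx 1))).add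
        (((hs1.pow 4).mul (hqi 2)).mul (hdx 3 _))
  have hdet : ContinuousAt (fun s : ℂ => (-6 * q s 0 ^ 5) * mu3 ξ q s -
      (s ^ 3 * q s 2) * mu0 ξ q s) 0 :=
    (((hcc (-6)).mul ((hqi 0).pow 5)).mul hm3).sub (((hs1.pow 3).mul (hqi 2)).mul hm0)
  have hdet0 : (-6 * q 0 0 ^ 5) * mu3 ξ q 0 - ((0 : ℂ) ^ 3 * q 0 2) * mu0 ξ q 0 ≠ 0 := by
    have : mu3 ξ q 0 = 1 := by simp [mu3]
    rw [this, hqz, e0]
    simp [hσ0]
  have hdetne : ∀ᶠ s in 𝓝 (0 : ℂ), (-6 * q s 0 ^ 5) * mu3 ξ q s -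
      (s ^ 3 * q s 2) * mu0 ξ q s ≠ 0 := hdet.eventually_ne hdet0
  have hE2 := hΓt.eventually h2
  have hE3 := hΓt.eventually (dG1_formula ξ hξ h2)
  refine ⟨fun s => PPs (s, q s), T0, hΓ0, hΓd, ?_⟩
  filter_upwards [self_mem_nhdsWithin, hdetne.filter_mono nhdsWithin_le_nhds,
    hE2.filter_mono nhdsWithin_le_nhds, hE3.filter_mono nhdsWithin_le_nhds,
    hqK.filter_mono nhdsWithin_le_nhds] with s hs hd h2s h3s hKs
  have hs' : s ≠ 0 := hs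
  refine ⟨?_, ?_, ?_, ?_⟩
  · rw [fE_PPs ξ, hKs]; simp
  · rw [G1_PPs ξ _ h2s, hKs]; simp
  · rw [G2_PPs ξ _ h2s h3s, hKs]; simp
  · intro v hv1 hv2 hz1 hz2
    have hvv : v = v 0 • (Pi.single 0 1 : Cn 4) + v 3 • (Pi.single 3 1 : Cn 4) := by
      funext i
      fin_cases i
      · simp
      · simpa using hz1
      · simpa using hz2
      · simp
    have hlin : ∀ i : Fin 4, fderiv ℂ (fun p => ξ p i) (PPs (s, q s)) v =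
        v 0 * fderiv ℂ (fun p => ξ p i) (PPs (s, q s)) (Pi.single 0 1) +
        v 3 * fderiv ℂ (fun p => ξ p i) (PPs (s, q s)) (Pi.single 3 1) := by
      intro i
      conv_lhs => rw [hvv]
      rw [map_add, map_smul, map_smul, smul_eq_mul, smul_eq_mul]
    have f1 := G1_formula (fun _ => v) (PPs (s, q s))
    have f1' : dv (fun _ => v) fE (PPs (s, q s)) = 0 := hv1
    rw [f1'] at f1
    have f2 := h3s v
    rw [hv2, hlin 0, hlin 1, hlin 3] at f2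
    rw [PPs_0, PPs_1, PPs_2, PPs_3] at f1 f2
    simp only [hz1, hz2] at f1 f2
    have g1 : s ^ 5 * (-6 * q s 0 ^ 5 * v 0 + s ^ 3 * q s 2 * v 3) = 0 := by
      linear_combination -f1
    have g2 : s ^ 4 * (mu0 ξ q s * v 0 + mu3 ξ q s * v 3) = 0 := by
      unfold mu0 mu3
      linear_combination -f2
    have g1' : -6 * q s 0 ^ 5 * v 0 + s ^ 3 * q s 2 * v 3 = 0 :=
      (mul_eq_zero.1 g1).resolve_left (pow_ne_zero _ hs')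
    have g2' : mu0 ξ q s * v 0 + mu3 ξ q s * v 3 = 0 :=
      (mul_eq_zero.1 g2).resolve_left (pow_ne_zero _ hs')
    have k0 : ((-6 * q s 0 ^ 5) * mu3 ξ q s - (s ^ 3 * q s 2) * mu0 ξ q s) * v 0 = 0 := by
      linear_combination mu3 ξ q s * g1' - s ^ 3 * q s 2 * g2'
    have k3 : ((-6 * q s 0 ^ 5) * mu3 ξ q s - (s ^ 3 * q s 2) * mu0 ξ q s) * v 3 = 0 := by
      linear_combination (-6 * q s 0 ^ 5) * g2' - mu0 ξ q s * g1'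
    have v0 := (mul_eq_zero.1 k0).resolve_left hd
    have v3 := (mul_eq_zero.1 k3).resolve_left hd
    rw [hvv, v0, v3]
    simp

end Pool.Agent.Helper308.ZGP
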