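import Pool.Agent.Helper308.ZGPDefs

set_option autoImplicit false

open Filter Topology

namespace Pool.Agent.Helper308.ZGP

/-- The equivalence. -/
theorem pm_equiv (z : Cn 4 → Cn 3)
    (hm : ∀ v : Cn 4, v 2 = 0 → fderiv ℂ z 0 v = 0 → v = 0) :
    ∃ e : Cn 4 ≃L[ℂ] (Cn 3 × ℂ), ∀ v, e v = (fderiv ℂ z 0 v, v 2) := by
  let A : Cn 4 →ₗ[ℂ] (Cn 3 × ℂ) :=
    ((fderiv ℂ z 0).prod (ContinuousLinearMap.proj (R := ℂ) (φ := fun _ : Fin 4 => ℂ) 2) :
      Cn 4 →L[ℂ] (Cn 3 × ℂ)).toLinearMap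
  have hA : ∀ v, A v = (fderiv ℂ z 0 v, v 2) := fun v => rfl
  have hinj : Function.Injective A := by
    rw [injective_iff_map_eq_zero]
    intro v hv
    rw [hA, Prod.mk_eq_zero] at hv
    exact hm v hv.2 hv.1
  have hdim : Module.finrank ℂ (Cn 4) = Module.finrank ℂ (Cn 3 × ℂ) := by
    rw [Module.finrank_prod]
    simp
  let e0 := LinearEquiv.ofInjectiveOfFinrankEq A hinj hdim
  refine ⟨e0.toContinuousLinearEquiv, fun v => ?_⟩
  rw [← hA]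
  rfl

/-- the vector field spanning `ker dz`, normalised by `ξ 2 = 1` -/
theorem exists_xi (z : Cn 4 → Cn 3) (hz : AnalyticAt ℂ z 0)
    (hm : ∀ v : Cn 4, v 2 = 0 → fderiv ℂ z 0 v = 0 → v = 0) :
    ∃ ξ : Cn 4 → Cn 4, AnalyticAt ℂ ξ 0 ∧ ∀ᶠ p in 𝓝 (0 : Cn 4), ξ p 2 = 1 ∧
      fderiv ℂ z p (ξ p) = 0 ∧ ∀ v, fderiv ℂ z p v = 0 → v = v 2 • ξ p := by
  obtain ⟨e, he⟩ := pm_equiv z hm
  let es : (Cn 3 × ℂ) →L[ℂ] Cn 4 := e.symm
  let B : Cn 4 → (Cn 4 →L[ℂ] Cn 4) := fun p =>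
    ContinuousLinearMap.compL ℂ (Cn 4) (Cn 3) (Cn 4)
      (es.comp (ContinuousLinearMap.inl ℂ (Cn 3) ℂ)) (fderiv ℂ z p) +
      (es.comp (ContinuousLinearMap.inr ℂ (Cn 3) ℂ)).comp
        (ContinuousLinearMap.proj (R := ℂ) (φ := fun _ : Fin 4 => ℂ) 2)
  have hB : ∀ p v, B p v = e.symm (fderiv ℂ z p v, v 2) := by
    intro p v
    change e.symm (fderiv ℂ z p v, 0) + e.symm (0, v 2) = _
    rw [← map_add]
    simp
  have hB0 : B 0 = 1 := by
    ext1 v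
    rw [hB, ← he, e.symm_apply_apply]
    rfl
  have hBan : AnalyticAt ℂ B 0 :=
    ((ContinuousLinearMap.analyticAt _ _).comp hz.fderiv).add analyticAt_const
  have hinv : AnalyticAt ℂ (fun p => Ring.inverse (B p)) 0 := by
    refine AnalyticAt.comp (g := Ring.inverse) ?_ hBan
    rw [hB0]
    exact analyticAt_inverse (1 : (Cn 4 →L[ℂ] Cn 4)ˣ)
  refine ⟨fun p => Ring.inverse (B p) (e.symm (0, 1)), ?_, ?_⟩
  · exact ((ContinuousLinearMap.apply ℂ (Cn 4) (e.symm (0, 1))).analyticAt _).comp hinv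
  · have hU : ∀ᶠ p in 𝓝 (0 : Cn 4), IsUnit (B p) := by
      have h1 : {x : Cn 4 →L[ℂ] Cn 4 | IsUnit x} ∈ 𝓝 (B 0) := by
        rw [hB0]
        exact Units.isOpen.mem_nhds isUnit_one
      exact hBan.continuousAt.eventually h1
    filter_upwards [hU] with p hp
    have h1 : B p * Ring.inverse (B p) = 1 := Ring.mul_inverse_cancel _ hp
    have h2 : Ring.inverse (B p) * B p = 1 := Ring.inverse_mul_cancel _ hp
    obtain ⟨ξ, hξ⟩ : ∃ ξ, ξ = Ring.inverse (B p) (e.symm (0, 1)) := ⟨_, rfl⟩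
    have hBR : ∀ v, B p (Ring.inverse (B p) v) = v := fun v =>
      congrArg (fun T : Cn 4 →L[ℂ] Cn 4 => T v) h1
    have hRB : ∀ v, Ring.inverse (B p) (B p v) = v := fun v =>
      congrArg (fun T : Cn 4 →L[ℂ] Cn 4 => T v) h2
    have h3 : B p ξ = e.symm (0, 1) := by rw [hξ, hBR]
    have h4 := h3
    rw [hB] at h4
    have h5 := e.symm.injective h4
    rw [Prod.mk.injEq] at h5
    rw [← hξ]
    refine ⟨h5.2, h5.1, fun v hv => ?_⟩
    have h6 : B p v = B p (v 2 • ξ) := by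
      rw [map_smul, h3, hB, hv, ← map_smul]
      simp
    calc v = Ring.inverse (B p) (B p v) := (hRB v).symm
      _ = Ring.inverse (B p) (B p (v 2 • ξ)) := by rw [h6]
      _ = v 2 • ξ := hRB _

/-- `z` is a set of parameters and it is permissible -/
theorem params_of_minor (z : Cn 4 → Cn 3) (hz : AnalyticAt ℂ z 0) (hz0 : z 0 = 0)
    (hm : ∀ v : Cn 4, v 2 = 0 → fderiv ℂ z 0 v = 0 → v = 0) :
    IsParams fE z ∧ IsPerm z WE := by
  obtain ⟨e, he⟩ := pm_equiv z hm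
  refine ⟨⟨hz, hz0, ?_, ?_⟩, ?_⟩
  · intro w
    refine ⟨e.symm (w, 0), ?_⟩
    have := he (e.symm (w, 0))
    rw [e.apply_symm_apply] at this
    exact (congrArg Prod.fst this).symm
  · obtain ⟨C, hC1, hC⟩ : ∃ C : ℝ, 1 ≤ C ∧ ∀ v, ‖v‖ ≤ C * max ‖fderiv ℂ z 0 v‖ ‖v 2‖ := by
      obtain ⟨E, hE⟩ : ∃ E : (Cn 3 × ℂ) →L[ℂ] Cn 4, ∀ w, E w = e.symm w := ⟨e.symm, fun _ => rfl⟩
      have hE0 : 0 ≤ ‖E‖ := norm_nonneg _
      refine ⟨‖E‖ + 1, le_add_of_nonneg_left hE0, fun v => ?_⟩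
      have h1 := E.le_opNorm (e v)
      have h2 : E (e v) = v := by rw [hE, e.symm_apply_apply]
      rw [h2, he, Prod.norm_mk] at h1
      refine h1.trans (mul_le_mul_of_nonneg_right (by linarith) ?_)
      exact le_max_of_le_left (norm_nonneg _)
    have hd := hz.differentiableAt.hasFDerivAt
    have h1 : ∀ᶠ x in 𝓝 (0 : Cn 4), ‖z x - z 0 - fderiv ℂ z 0 (x - 0)‖ ≤ 1 / (2 * C) * ‖x - 0‖ :=
      (hasFDerivAt_iff_isLittleO.1 hd).def (by positivity)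
    have h2 : ∀ᶠ x in 𝓝 (0 : Cn 4), ‖x‖ < 1 / (3 * (2 * C) ^ 6) := by
      have : Tendsto (fun x : Cn 4 => ‖x‖) (𝓝 0) (𝓝 0) := tendsto_norm_zero
      exact this.eventually_lt_const (by positivity)
    filter_upwards [h1, h2] with x hx1 hx2 hzx hfx
    rw [hzx, hz0, sub_zero, sub_zero, zero_sub, norm_neg] at hx1
    have h3 : ‖x‖ ≤ 2 * C * ‖x 2‖ := by
      have h4 := hC x
      have h5 : max ‖fderiv ℂ z 0 x‖ ‖x 2‖ ≤ 1 / (2 * C) * ‖x‖ + ‖x 2‖ := by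
        refine max_le ?_ ?_
        · linarith [norm_nonneg (x 2)]
        · have : 0 ≤ 1 / (2 * C) * ‖x‖ := by positivity
          linarith
      have h6 := mul_le_mul_of_nonneg_left h5 (by linarith : (0 : ℝ) ≤ C)
      have h7 : C * (1 / (2 * C) * ‖x‖ + ‖x 2‖) = ‖x‖ / 2 + C * ‖x 2‖ := by
        field_simp
      linarith
    have h4 : ‖x 2‖ ^ 3 ≤ 3 * ‖x‖ ^ 6 := by
      have e1 : x 2 ^ 3 = x 0 ^ 6 - x 1 ^ 6 - x 3 * x 1 ^ 4 * x 2 := by
        have : fE x = 0 := hfx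
        unfold fE at this
        linear_combination this
      have n0 := norm_le_pi_norm x 0
      have n1 := norm_le_pi_norm x 1
      have n2 := norm_le_pi_norm x 2
      have n3 := norm_le_pi_norm x 3
      rw [← norm_pow, e1]
      refine (norm_sub_le _ _).trans ?_
      refine (add_le_add (norm_sub_le _ _) le_rfl).trans ?_
      rw [norm_mul, norm_mul, norm_pow, norm_pow, norm_pow]
      have a0 : ‖x 0‖ ^ 6 ≤ ‖x‖ ^ 6 := pow_le_pow_left₀ (norm_nonneg _) n0 6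
      have a1 : ‖x 1‖ ^ 6 ≤ ‖x‖ ^ 6 := pow_le_pow_left₀ (norm_nonneg _) n1 6
      have a2 : ‖x 3‖ * ‖x 1‖ ^ 4 * ‖x 2‖ ≤ ‖x‖ * ‖x‖ ^ 4 * ‖x‖ := by gcongr
      have a3 : ‖x‖ * ‖x‖ ^ 4 * ‖x‖ = ‖x‖ ^ 6 := by ring
      linarith
    have h5 : x 2 = 0 := by
      by_contra hne
      have hpos : 0 < ‖x 2‖ := norm_pos_iff.2 hne
      have h6 : ‖x‖ ^ 6 ≤ (2 * C * ‖x 2‖) ^ 6 := pow_le_pow_left₀ (norm_nonneg _) h3 6
      have h7 : ‖x 2‖ ^ 3 * 1 ≤ ‖x 2‖ ^ 3 * (3 * (2 * C) ^ 6 * ‖x 2‖ ^ 3) := by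
        calc ‖x 2‖ ^ 3 * 1 ≤ 3 * (2 * C * ‖x 2‖) ^ 6 := by linarith
          _ = _ := by ring
      have h8 : 1 ≤ 3 * (2 * C) ^ 6 * ‖x 2‖ ^ 3 := le_of_mul_le_mul_left h7 (by positivity)
      have n2 := norm_le_pi_norm x 2
      have hC6 : (1 : ℝ) ≤ 3 * (2 * C) ^ 6 := by
        have : (1 : ℝ) ≤ (2 * C) ^ 6 := one_le_pow₀ (by linarith)
        linarith
      have h9 : ‖x 2‖ < 1 / (3 * (2 * C) ^ 6) := lt_of_le_of_lt n2 hx2
      have h10 : 3 * (2 * C) ^ 6 * ‖x 2‖ < 1 := by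
        rw [lt_div_iff₀ (by positivity)] at h9
        linarith
      have h11 : ‖x 2‖ ≤ 1 := by
        have : 1 / (3 * (2 * C) ^ 6) ≤ 1 := by
          rw [div_le_one (by positivity)]
          exact hC6
        linarith
      have h12 : ‖x 2‖ ^ 3 ≤ ‖x 2‖ := by
        calc ‖x 2‖ ^ 3 ≤ ‖x 2‖ ^ 1 := pow_le_pow_of_le_one (norm_nonneg _) h11 (by norm_num)
          _ = ‖x 2‖ := pow_one _
      have h13 : 3 * (2 * C) ^ 6 * ‖x 2‖ ^ 3 ≤ 3 * (2 * C) ^ 6 * ‖x 2‖ :=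
        mul_le_mul_of_nonneg_left h12 (by positivity)
      linarith
    rw [h5, norm_zero, mul_zero] at h3
    exact norm_le_zero_iff.1 h3
  · let ψ : Cn 4 →L[ℂ] Cn 3 := ContinuousLinearMap.pi fun i : Fin 3 =>
      ContinuousLinearMap.proj (R := ℂ) (φ := fun _ : Fin 4 => ℂ) (Fin.castSucc i)
    have hψ : ∀ v i, ψ v i = v (Fin.castSucc i) := fun v i => rfl
    have hψd : fderiv ℂ (fun p => ψ p) 0 = ψ := ψ.fderiv
    refine ⟨3, fun p => ψ p, ⟨ψ.analyticAt 0, map_zero ψ, ?_, ?_⟩, ?_⟩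
    · rw [hψd]
      intro w
      refine ⟨![w 0, w 1, w 2, 0], ?_⟩
      funext i
      rw [hψ]
      fin_cases i <;> rfl
    · refine Eventually.of_forall fun x => ?_
      constructor
      · intro hx
        obtain ⟨h0, h1, h2⟩ := hx
        funext i
        change ψ x i = 0
        rw [hψ]
        fin_cases i
        · exact h0
        · exact h1
        · exact h2
      · intro hx
        exact ⟨congrFun hx 0, congrFun hx 1, congrFun hx 2⟩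
    · intro h
      rw [hψd] at h
      have h1 := he (e.symm (0, 1))
      rw [e.apply_symm_apply, Prod.mk.injEq] at h1
      have h2 := h _ h1.1.symm
      have h3 := congrFun h2 2
      rw [hψ] at h3
      have h4 : (e.symm (0, 1)) (Fin.castSucc (2 : Fin 3)) = (1 : ℂ) := h1.2.symm
      rw [h4] at h3
      exact one_ne_zero h3

end Pool.Agent.Helper308.ZGP
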