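import Pool.Agent.Helper308.ZGPDefs
import Pool.Agent.Helper308.ZGPCritCount
import Pool.Agent.Helper308.ZGPCusp
import Pool.Agent.Helper308.ZGPXi
import Pool.Agent.Helper308.ZGPGamma

set_option autoImplicit false

open Filter Topology

namespace Pool.Agent.Helper308.ZGP

theorem analyticAt_fE (p : Cn 4) : AnalyticAt ℂ fE p := by
  have h : ∀ i : Fin 4, AnalyticAt ℂ (fun q : Cn 4 => q i) p := fun i =>
    (ContinuousLinearMap.proj (R := ℂ) (φ := fun _ : Fin 4 => ℂ) i).analyticAt p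
  unfold fE
  exact ((((h 2).pow 3).add (((h 3).mul ((h 1).pow 4)).mul (h 2))).add ((h 1).pow 6)).sub
    ((h 0).pow 6)

theorem crit_mem {n : ℕ} (f : Cn (n + 1) → ℂ) (z : Cn (n + 1) → Cn n) (hf : AnalyticAt ℂ f 0)
    (hza : AnalyticAt ℂ z 0) (hz0 : z 0 = 0) (hzs : Function.Surjective (fderiv ℂ z 0))
    (δ : Cn n → ℂ) (hδ : IsCrit f z δ) :
    ∀ᶠ p in 𝓝 (0 : Cn (n + 1)), f p = 0 → (∀ v, fderiv ℂ z p v = 0 → fderiv ℂ f p v = 0) →
      δ (z p) = 0 := by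
  obtain ⟨hhyp, m, hm, hc⟩ := hδ
  have h1 := crit_count f z hf hza hz0 hzs m hm
  obtain ⟨ε, ⟨hε1, hε2⟩, hε0⟩ := ((h1.and hc).and self_mem_nhdsWithin).exists
  have hcont : Tendsto z (𝓝 0) (𝓝 0) := by
    have := hza.continuousAt
    rwa [ContinuousAt, hz0] at this
  filter_upwards [hcont.eventually hε1, hcont.eventually hε2, Metric.ball_mem_nhds 0 hε0]
    with p hp1 hp2 hpb hfp hk
  have hmem : p ∈ fib f z ε (z p) := ⟨by simpa using hpb, hfp, rfl⟩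
  exact (hp2.2.2).2 (hp1 p hmem hk)

theorem image_mem {n : ℕ} (z : Cn (n + 1) → Cn n) (W : Set (Cn (n + 1))) (W' : Set (Cn n))
    (hza : AnalyticAt ℂ z 0) (hz0 : z 0 = 0) (h : IsImageGerm z W W') :
    ∀ᶠ x in 𝓝 (0 : Cn (n + 1)), x ∈ W → z x ∈ W' := by
  obtain ⟨ε, hε1, hε0⟩ := (h.and self_mem_nhdsWithin).exists
  have hcont : Tendsto z (𝓝 0) (𝓝 0) := by
    have := hza.continuousAt
    rwa [ContinuousAt, hz0] at this
  filter_upwards [hcont.eventually hε1, Metric.ball_mem_nhds 0 hε0] with p hp hpb hpW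
  exact hp.2 ⟨p, by simpa using hpb, hpW, rfl⟩

theorem surj_of_ker (A : Cn 4 →L[ℂ] Cn 3) (w : Cn 4) (h : ∀ v, A v = 0 → v = v 2 • w) :
    Function.Surjective A := by
  have hker : LinearMap.ker (A : Cn 4 →ₗ[ℂ] Cn 3) ≤ Submodule.span ℂ {w} := by
    intro v hv
    rw [h v (by simpa using hv)]
    exact Submodule.smul_mem _ _ (Submodule.mem_span_singleton_self w)
  have h1 : Module.finrank ℂ (LinearMap.ker (A : Cn 4 →ₗ[ℂ] Cn 3)) ≤ 1 :=
    (Submodule.finrank_mono hker).trans ((finrank_span_le_card ({w} : Set (Cn 4))).trans (by simp))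
  have h2 := LinearMap.finrank_range_add_finrank_ker (A : Cn 4 →ₗ[ℂ] Cn 3)
  have h3 : Module.finrank ℂ (Cn 4) = 4 := by simp
  have h4 : Module.finrank ℂ (Cn 3) = 3 := by simp
  have h5 : LinearMap.range (A : Cn 4 →ₗ[ℂ] Cn 3) = ⊤ := by
    apply Submodule.eq_top_of_finrank_eq
    have := Submodule.finrank_le (LinearMap.range (A : Cn 4 →ₗ[ℂ] Cn 3))
    omega
  exact LinearMap.range_eq_top.1 h5

/-- The curves of cusps. -/
theorem key (z : Cn 4 → Cn 3) (hz : AnalyticAt ℂ z 0) (hz0 : z 0 = 0)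
    (hm : ∀ v : Cn 4, v 2 = 0 → fderiv ℂ z 0 v = 0 → v = 0) (σ : ℂ) (hσ : σ ^ 6 = 1)
    (δ : Cn 3 → ℂ) (hδ : IsCrit fE z δ) (φ : Cn 3 → ℂ) (hφ : AnalyticAt ℂ φ 0)
    (hφδ : ∀ᶠ u in 𝓝 (0 : Cn 3), δ u = 0 → φ u = 0) :
    ∃ (Γ : ℂ → Cn 4) (τ : ℂ), Γ 0 = 0 ∧ HasDerivAt Γ ![σ, 1, 0, τ] 0 ∧
      ∀ᶠ s in 𝓝[≠] (0 : ℂ), δ (z (Γ s)) = 0 ∧ fderiv ℂ φ (z (Γ s)) = 0 := by
  obtain ⟨ξ, hξ, hξp⟩ := exists_xi z hz hm
  have hξ2 : ∀ᶠ p in 𝓝 (0 : Cn 4), ξ p 2 = 1 := hξp.mono fun p hp => hp.1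
  obtain ⟨Γ, τ, hΓ0, hΓd, hΓ⟩ := exists_gamma ξ hξ hξ2 σ hσ
  refine ⟨Γ, τ, hΓ0, hΓd, ?_⟩
  have hzs : Function.Surjective (fderiv ℂ z 0) :=
    surj_of_ker _ (ξ 0) (hξp.self_of_nhds.2.2)
  have hcm := crit_mem fE z (analyticAt_fE 0) hz hz0 hzs δ hδ
  have hcont : Tendsto z (𝓝 0) (𝓝 0) := by
    have := hz.continuousAt
    rwa [ContinuousAt, hz0] at this
  have hQ : ∀ᶠ p in 𝓝 (0 : Cn 4), fE p = 0 → dv ξ fE p = 0 → δ (z p) = 0 := by
    filter_upwards [hcm, hξp] with p hp hξp' h0 h1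
    refine hp h0 fun v hv => ?_
    have h2 := hξp'.2.2 v hv
    rw [h2, map_smul]
    have h3 : fderiv ℂ fE p (ξ p) = 0 := h1
    rw [h3, smul_zero]
  have hQφ : ∀ᶠ p in 𝓝 (0 : Cn 4), fE p = 0 → dv ξ fE p = 0 → φ (z p) = 0 := by
    filter_upwards [hQ, hcont.eventually hφδ] with p hp hpd h0 h1
    exact hpd (hp h0 h1)
  have hΓc : Tendsto Γ (𝓝[≠] 0) (𝓝 0) := by
    have h1 : ContinuousAt Γ 0 := hΓd.continuousAt
    rw [ContinuousAt, hΓ0] at h1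
    exact h1.mono_left nhdsWithin_le_nhds
  have hall : ∀ᶠ p0 in 𝓝 (0 : Cn 4), AnalyticAt ℂ z p0 ∧ AnalyticAt ℂ ξ p0 ∧
      (∀ᶠ p in 𝓝 p0, ξ p 2 = 1 ∧
      fderiv ℂ z p (ξ p) = 0 ∧ ∀ v, fderiv ℂ z p v = 0 → v = v 2 • ξ p) ∧
      (∀ᶠ p in 𝓝 p0, fE p = 0 → dv ξ fE p = 0 → δ (z p) = 0) ∧
      (∀ᶠ p in 𝓝 p0, fE p = 0 → dv ξ fE p = 0 → φ (z p) = 0) ∧
      AnalyticAt ℂ φ (z p0) ∧ dv ξ (dv ξ (dv ξ fE)) p0 ≠ 0 := by
    filter_upwards [hz.eventually_analyticAt, hξ.eventually_analyticAt,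
      eventually_eventually_nhds.2 hξp, eventually_eventually_nhds.2 hQ,
      eventually_eventually_nhds.2 hQφ, hcont.eventually hφ.eventually_analyticAt,
      G3_ne ξ hξ hξ2] with p h1 h2 h3 h4 h5 h6 h7
    exact ⟨h1, h2, h3, h4, h5, h6, h7⟩
  filter_upwards [hΓ, hΓc.eventually hall] with s hs hs'
  obtain ⟨hf0, hf1, hf2, hfb⟩ := hs
  obtain ⟨k1, k2, k3, k4, k5, k6, k7⟩ := hs'
  refine ⟨k4.self_of_nhds hf0 hf1, ?_⟩
  exact cusp_lemma z ξ fE (Γ s) k1 k2 (analyticAt_fE _) (k3.mono fun p hp => hp.2.1)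
    (surj_of_ker _ (ξ (Γ s)) k3.self_of_nhds.2.2) hf0 hf1 hf2 k7 hfb φ k6 k5

/-- The critical variety of a transversal projection is singular. -/
theorem crit_singular (z : Cn 4 → Cn 3) (hz : AnalyticAt ℂ z 0) (hz0 : z 0 = 0)
    (hm : ∀ v : Cn 4, v 2 = 0 → fderiv ℂ z 0 v = 0 → v = 0)
    (δ : Cn 3 → ℂ) (hδ : IsCrit fE z δ) : ¬ SmoothAt δ 0 := by
  rintro ⟨φ, hφ, hφd, hφz⟩
  obtain ⟨Γ, τ, hΓ0, hΓd, hΓ⟩ := key z hz hz0 hm 1 (by norm_num) δ hδ φ hφ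
    (hφz.mono fun u hu => hu.1)
  have hcont : Tendsto z (𝓝 0) (𝓝 0) := by
    have := hz.continuousAt
    rwa [ContinuousAt, hz0] at this
  have hΓc : Tendsto Γ (𝓝[≠] 0) (𝓝 0) := by
    have h1 : ContinuousAt Γ 0 := hΓd.continuousAt
    rw [ContinuousAt, hΓ0] at h1
    exact h1.mono_left nhdsWithin_le_nhds
  have h1 : Tendsto (fun s => fderiv ℂ φ (z (Γ s))) (𝓝[≠] 0) (𝓝 (fderiv ℂ φ 0)) :=
    (hφ.fderiv.continuousAt.tendsto).comp (hcont.comp hΓc)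
  have h2 : Tendsto (fun s => fderiv ℂ φ (z (Γ s))) (𝓝[≠] 0) (𝓝 0) :=
    (tendsto_congr' (hΓ.mono fun s hs => hs.2)).2 tendsto_const_nhds
  exact hφd (tendsto_nhds_unique h1 h2)

/-- No transversal projection is equisingular. -/
theorem not_equiProj (z : Cn 4 → Cn 3) (hz : AnalyticAt ℂ z 0) (hz0 : z 0 = 0)
    (hm : ∀ v : Cn 4, v 2 = 0 → fderiv ℂ z 0 v = 0 → v = 0) : ¬ EquiProj 1 2 fE WE z := by
  rintro ⟨-, -, δ, W', hδ, hW', -, z', hz', -, δ', W'', hδ', hW'', ⟨φ, hφ, hφd, hφz⟩, hWδ⟩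
  have hδa : AnalyticAt ℂ δ 0 := hδ.1.1
  obtain ⟨hza', hz0', hzs', -⟩ := hz'
  obtain ⟨ξ, hξ, hξp⟩ := exists_xi z hz hm
  have hzs : Function.Surjective (fderiv ℂ z 0) :=
    surj_of_ker _ (ξ 0) (hξp.self_of_nhds.2.2)
  have hcont : Tendsto z (𝓝 0) (𝓝 0) := by
    have := hz.continuousAt
    rwa [ContinuousAt, hz0] at this
  have hcont' : Tendsto z' (𝓝 0) (𝓝 0) := by
    have := hza'.continuousAt
    rwa [ContinuousAt, hz0'] at this
  -- second stage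
  have hcm' := crit_mem δ z' hδa hza' hz0' hzs' δ' hδ'
  -- the function `ω = φ ∘ z' ∘ z`
  set L : Cn 4 →L[ℂ] ℂ := (fderiv ℂ φ 0).comp ((fderiv ℂ z' 0).comp (fderiv ℂ z 0)) with hL
  have hω : HasFDerivAt (fun p => φ (z' (z p))) L 0 := by
    have h1 : HasFDerivAt z (fderiv ℂ z 0) 0 := hz.differentiableAt.hasFDerivAt
    have h2 : HasFDerivAt z' (fderiv ℂ z' 0) (z 0) := by
      rw [hz0]; exact hza'.differentiableAt.hasFDerivAt
    have h3 : HasFDerivAt φ (fderiv ℂ φ 0) (z' (z 0)) := by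
      rw [hz0, hz0']; exact hφ.differentiableAt.hasFDerivAt
    exact h3.comp 0 (h2.comp 0 h1)
  have hω0 : ∀ (c : ℂ → Cn 4) (w : Cn 4), c 0 = 0 → HasDerivAt c w 0 →
      (∀ᶠ s in 𝓝[≠] (0 : ℂ), φ (z' (z (c s))) = 0) → L w = 0 := by
    intro c w hc0 hcd hc
    have h1 : HasDerivAt (fun s => φ (z' (z (c s)))) (L w) 0 := by
      have h2 : HasFDerivAt (fun p => φ (z' (z p))) L (c 0) := by rw [hc0]; exact hω
      exact h2.comp_hasDerivAt 0 hcd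
    have h3 : φ (z' (z (c 0))) = 0 := by
      have h4 : Tendsto (fun s => φ (z' (z (c s)))) (𝓝[≠] 0) (𝓝 (φ (z' (z (c 0))))) :=
        h1.continuousAt.tendsto.mono_left nhdsWithin_le_nhds
      have h5 : Tendsto (fun s => φ (z' (z (c s)))) (𝓝[≠] 0) (𝓝 0) :=
        (tendsto_congr' hc).2 tendsto_const_nhds
      exact tendsto_nhds_unique h4 h5
    have h6 : (fun s => φ (z' (z (c s)))) =ᶠ[𝓝 0] fun _ => (0 : ℂ) := by
      rw [eventually_nhdsWithin_iff] at hc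
      filter_upwards [hc] with s hs
      by_cases h : s = 0
      · rw [h]; exact h3
      · exact hs h
    have h7 : HasDerivAt (fun s => φ (z' (z (c s)))) 0 0 :=
      (hasDerivAt_const (0 : ℂ) (0 : ℂ)).congr_of_eventuallyEq h6
    exact h1.unique h7
  have hcurve : ∀ σ : ℂ, σ ^ 6 = 1 → ∃ τ : ℂ, L ![σ, 1, 0, τ] = 0 := by
    intro σ hσ
    obtain ⟨Γ, τ, hΓ0, hΓd, hΓ⟩ := key z hz hz0 hm σ hσ δ hδ δ hδa (Eventually.of_forall fun u h => h)
    refine ⟨τ, hω0 Γ _ hΓ0 hΓd ?_⟩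
    have hΓc : Tendsto Γ (𝓝[≠] 0) (𝓝 0) := by
      have h1 : ContinuousAt Γ 0 := hΓd.continuousAt
      rw [ContinuousAt, hΓ0] at h1
      exact h1.mono_left nhdsWithin_le_nhds
    filter_upwards [hΓ, (hcont.comp hΓc).eventually hcm',
      (hcont'.comp (hcont.comp hΓc)).eventually hφz] with s h1 h2 h3
    refine h3.1 (h2 h1.1 fun v _ => ?_)
    simp only [Function.comp_apply]
    rw [h1.2]; rfl
  have ht : L ![0, 0, 0, 1] = 0 := by
    refine hω0 (fun s => ![0, 0, 0, s]) _ ?_ ?_ ?_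
    · ext i; fin_cases i <;> rfl
    · rw [hasDerivAt_pi]
      intro i
      fin_cases i
      · exact hasDerivAt_const _ _
      · exact hasDerivAt_const _ _
      · exact hasDerivAt_const _ _
      · exact hasDerivAt_id _
    · have hc : Tendsto (fun s : ℂ => (![0, 0, 0, s] : Cn 4)) (𝓝[≠] 0) (𝓝 0) := by
        have h1 : Continuous (fun s : ℂ => (![0, 0, 0, s] : Cn 4)) := by
          refine continuous_pi fun i => ?_
          fin_cases i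
          · exact continuous_const
          · exact continuous_const
          · exact continuous_const
          · exact continuous_id
        have h2 := (h1.tendsto 0)
        have h3 : (![0, 0, 0, 0] : Cn 4) = 0 := by ext i; fin_cases i <;> rfl
        rw [h3] at h2
        exact h2.mono_left nhdsWithin_le_nhds
      have hi1 := image_mem z WE W' hz hz0 hW'
      have hi2 := image_mem z' W' W'' hza' hz0' hW''
      filter_upwards [hc.eventually hi1, (hcont.comp hc).eventually hi2,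
        (hcont'.comp (hcont.comp hc)).eventually hWδ,
        (hcont'.comp (hcont.comp hc)).eventually hφz] with s h1 h2 h3 h4
      exact h4.1 (h3.1 (h2 (h1 ⟨rfl, rfl, rfl⟩)))
  have hξ0 : L (ξ 0) = 0 := by
    have h1 : fderiv ℂ z 0 (ξ 0) = 0 := hξp.self_of_nhds.2.1
    simp [hL, h1]
  obtain ⟨τ1, h1⟩ := hcurve 1 (by norm_num)
  obtain ⟨τ2, h2⟩ := hcurve (-1) (by norm_num)
  have hLv : ∀ v : Cn 4, L v = v 0 * L (Pi.single 0 1) + v 1 * L (Pi.single 1 1) +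
      v 2 * L (Pi.single 2 1) + v 3 * L (Pi.single 3 1) := by
    intro v
    have hv : v = v 0 • (Pi.single 0 1 : Cn 4) + v 1 • (Pi.single 1 1 : Cn 4) +
        v 2 • (Pi.single 2 1 : Cn 4) + v 3 • (Pi.single 3 1 : Cn 4) := by
      ext i; fin_cases i <;> simp
    conv_lhs => rw [hv]
    simp only [map_add, map_smul, smul_eq_mul]
  have hz2 : ξ 0 2 = 1 := hξp.self_of_nhds.1
  have e3 : L (Pi.single 3 1) = 0 := by
    rw [hLv] at ht; simpa using ht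
  rw [hLv] at h1 h2 hξ0
  simp only [Matrix.cons_val_zero, Matrix.cons_val_one, Matrix.cons_val, one_mul, zero_mul,
    add_zero, e3, mul_zero, hz2] at h1 h2 hξ0
  have e1 : L (Pi.single 1 1) = 0 := by
    have : 2 * L (Pi.single 1 1) = 0 := by linear_combination h1 + h2
    simpa using this
  have e0 : L (Pi.single 0 1) = 0 := by
    rw [e1] at h1; simpa using h1
  have e2 : L (Pi.single 2 1) = 0 := by
    rw [e0, e1] at hξ0; simpa using hξ0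
  apply hφd
  ext u
  obtain ⟨w, rfl⟩ := hzs' u
  obtain ⟨v, rfl⟩ := hzs w
  have h3 : L v = 0 := by rw [hLv, e0, e1, e2, e3]; simp
  simpa [hL] using h3

end Pool.Agent.Helper308.ZGP
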