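import Pool.Agent.Helper308.ZGPDefs

set_option autoImplicit false

open Filter Topology

namespace Pool.Agent.Helper308.ZGP

theorem fE_analyticAt (x : Cn 4) : AnalyticAt ℂ fE x := by
  have h : ∀ i, AnalyticAt ℂ (fun p : Cn 4 => p i) x := fun i =>
    (ContinuousLinearMap.proj (R := ℂ) (φ := fun _ : Fin 4 => ℂ) i).analyticAt x
  unfold fE
  exact ((((h 2).pow 3).add (((h 3).mul ((h 1).pow 4)).mul (h 2))).add ((h 1).pow 6)).sub
    ((h 0).pow 6)

/-- derivative along a curve in the zero set -/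
theorem curve_zero {φ : Cn 4 → ℂ} {x : Cn 4} {L : Cn 4 →L[ℂ] ℂ} (hφ : HasFDerivAt φ L x)
    (hev : ∀ᶠ y in 𝓝 x, (fE y = 0 ↔ φ y = 0)) (v : Cn 4)
    (hz : ∀ s : ℂ, fE (x + s • v) = 0) : L v = 0 := by
  have hγ : HasDerivAt (fun s : ℂ => x + s • v) v 0 := by
    have h1 : HasDerivAt (fun s : ℂ => s • v) ((1 : ℂ) • v) 0 := (hasDerivAt_id (0 : ℂ)).smul_const v
    rw [one_smul] at h1
    exact h1.const_add x
  have hx0 : x + (0 : ℂ) • v = x := by rw [zero_smul, add_zero]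
  have h2 : HasDerivAt (φ ∘ fun s : ℂ => x + s • v) (L v) 0 := by
    refine HasFDerivAt.comp_hasDerivAt (0 : ℂ) ?_ hγ
    rw [hx0]; exact hφ
  have hT : Tendsto (fun s : ℂ => x + s • v) (𝓝 0) (𝓝 x) := by
    have := hγ.continuousAt.tendsto
    rwa [hx0] at this
  have h3 : (φ ∘ fun s : ℂ => x + s • v) =ᶠ[𝓝 0] fun _ => (0 : ℂ) := by
    filter_upwards [hT.eventually hev] with s hs
    exact hs.1 (hz s)
  exact h2.unique ((hasDerivAt_const (0 : ℂ) (0 : ℂ)).congr_of_eventuallyEq h3)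

/-- the `t`-axis is a smooth germ of codimension two in `V`, contained in the singular locus -/
theorem isPair_example : IsPair 2 3 fE WE := by
  refine ⟨⟨fE_analyticAt 0, by simp [fE], ?_⟩, ?_, Eventually.of_forall ?_⟩
  · intro h
    have hT : Tendsto (fun s : ℂ => (![s, 0, 0, 0] : Cn 4)) (𝓝 0) (𝓝 0) := by
      have hc : Continuous fun s : ℂ => (![s, 0, 0, 0] : Cn 4) := by
        refine continuous_pi fun i => ?_
        fin_cases i <;> simp <;> fun_prop
      have h0 : (![(0 : ℂ), 0, 0, 0] : Cn 4) = 0 := by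
        ext i; fin_cases i <;> rfl
      have := hc.tendsto 0
      rwa [h0] at this
    have h1 : ∀ᶠ s : ℂ in 𝓝[≠] 0, fE ![s, 0, 0, 0] = 0 :=
      (hT.eventually h).filter_mono nhdsWithin_le_nhds
    have h2 : ∀ᶠ s : ℂ in 𝓝[≠] 0, s ≠ 0 := eventually_mem_nhdsWithin
    obtain ⟨s, hs1, hs2⟩ := (h1.and h2).exists
    apply hs2
    have h3 : fE ![s, 0, 0, 0] = -s ^ 6 := by
      simp [fE]
    rw [h3, neg_eq_zero] at hs1
    exact pow_eq_zero_iff (by norm_num) |>.1 hs1
  · let ψL : Cn 4 →L[ℂ] Cn 3 := ContinuousLinearMap.pi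
      (fun i : Fin 3 => ContinuousLinearMap.proj (R := ℂ) (φ := fun _ : Fin 4 => ℂ) i.castSucc)
    refine ⟨fun p => ψL p, ψL.analyticAt 0, map_zero ψL, ?_, Eventually.of_forall fun x => ?_⟩
    · rw [show (fun p => ψL p) = ψL from rfl, ψL.fderiv]
      intro w
      refine ⟨![w 0, w 1, w 2, 0], ?_⟩
      ext i
      fin_cases i <;> rfl
    · constructor
      · rintro ⟨h0, h1, h2⟩
        ext i
        fin_cases i
        · exact h0
        · exact h1
        · exact h2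
      · intro h
        exact ⟨congrFun h 0, congrFun h 1, congrFun h 2⟩
  · rintro x ⟨hx0, hx1, hx2⟩
    refine ⟨by simp [fE, hx0, hx1, hx2], ?_⟩
    rintro ⟨φ, hφ, hne, hev⟩
    apply hne
    have hd := hφ.differentiableAt.hasFDerivAt
    have hstr := hφ.hasStrictFDerivAt
    have ht : fderiv ℂ φ x ![0, 0, 0, 1] = 0 := curve_zero hd hev _ (fun s => by
      simp [fE, hx0, hx1, hx2])
    have hp : fderiv ℂ φ x ![1, 1, 0, 0] = 0 := curve_zero hd hev _ (fun s => by
      simp [fE, hx0, hx1, hx2])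
    have hm : fderiv ℂ φ x ![-1, 1, 0, 0] = 0 := curve_zero hd hev _ (fun s => by
      simp [fE, hx0, hx1, hx2]; ring)
    have hz : fderiv ℂ φ x ![0, 0, 1, 0] = 0 := by
      obtain ⟨w, hw, hw1⟩ : ∃ w : ℂ, w ^ 3 = 1 ∧ w ≠ 1 := by
        have h := Complex.isPrimitiveRoot_exp 3 (by norm_num)
        exact ⟨_, h.pow_eq_one, h.ne_one (by norm_num)⟩
      let P : ℂ → ℂ → Cn 4 := fun c s => ![s, 0, c * s ^ 2, x 3]
      have hPx : ∀ c, P c 0 = x := by
        intro c
        ext i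
        fin_cases i
        · exact hx0.symm
        · exact hx1.symm
        · show c * (0 : ℂ) ^ 2 = x 2
          rw [hx2]; simp
        · rfl
      have hPc : ∀ c, Tendsto (P c) (𝓝 0) (𝓝 x) := by
        intro c
        have hc : Continuous (P c) := by
          refine continuous_pi fun i => ?_
          fin_cases i <;> simp [P] <;> fun_prop
        have := hc.tendsto 0
        rwa [hPx] at this
      have hP0 : ∀ c : ℂ, c ^ 3 = 1 → ∀ᶠ s in 𝓝 (0 : ℂ), φ (P c s) = 0 := by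
        intro c hc
        filter_upwards [(hPc c).eventually hev] with s hs
        refine hs.1 ?_
        simp only [fE, P, Matrix.cons_val]
        rw [mul_pow, hc]; ring
      have hlit := hstr.isLittleO.comp_tendsto ((hPc 1).prodMk_nhds (hPc w))
      have hdiff : ∀ s, P 1 s - P w s = ((1 - w) * s ^ 2) • (![0, 0, 1, 0] : Cn 4) := by
        intro s
        ext i
        fin_cases i
        · simp [P]
        · simp [P]
        · simp [P]; ring
        · simp [P]
      by_contra hL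
      have hLpos : 0 < ‖fderiv ℂ φ x ![0, 0, 1, 0]‖ := norm_pos_iff.2 hL
      have hez : 0 < ‖(![0, 0, 1, 0] : Cn 4)‖ := by
        rw [norm_pos_iff]
        intro h
        have := congrFun h 2
        simp at this
      obtain ⟨ε, hε, hε1⟩ : ∃ ε : ℝ, 0 < ε ∧
          ε * ‖(![0, 0, 1, 0] : Cn 4)‖ < ‖fderiv ℂ φ x ![0, 0, 1, 0]‖ := by
        refine ⟨‖fderiv ℂ φ x ![0, 0, 1, 0]‖ / (2 * ‖(![0, 0, 1, 0] : Cn 4)‖), by positivity, ?_⟩
        have : ‖fderiv ℂ φ x ![0, 0, 1, 0]‖ / (2 * ‖(![0, 0, 1, 0] : Cn 4)‖) *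
            ‖(![0, 0, 1, 0] : Cn 4)‖ = ‖fderiv ℂ φ x ![0, 0, 1, 0]‖ / 2 := by
          field_simp
        rw [this]; linarith
      have h1 := hlit.def hε
      have h2 : ∀ᶠ s : ℂ in 𝓝[≠] 0, s ≠ 0 := eventually_mem_nhdsWithin
      have h3 := ((h1.and ((hP0 1 (one_pow 3)).and (hP0 w hw))).filter_mono
        (nhdsWithin_le_nhds (s := {(0 : ℂ)}ᶜ))).and h2
      obtain ⟨s, ⟨hs1, hs2, hs3⟩, hs4⟩ := h3.exists
      simp only [Function.comp_apply] at hs1
      rw [hs2, hs3, hdiff, map_smul, sub_zero, zero_sub, norm_neg, norm_smul, norm_smul] at hs1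
      have hk : 0 < ‖(1 - w) * s ^ 2‖ := by
        rw [norm_pos_iff]
        exact mul_ne_zero (sub_ne_zero.2 hw1.symm) (pow_ne_zero 2 hs4)
      have h5 : ‖(1 - w) * s ^ 2‖ * ‖fderiv ℂ φ x ![0, 0, 1, 0]‖ ≤
          ‖(1 - w) * s ^ 2‖ * (ε * ‖(![0, 0, 1, 0] : Cn 4)‖) := by
        calc _ ≤ _ := hs1
          _ = _ := by ring
      exact absurd (le_of_mul_le_mul_left h5 hk) (not_le.2 hε1)
    ext1 v
    have hv : v = v 3 • (![0, 0, 0, 1] : Cn 4) + ((v 0 + v 1) / 2) • (![1, 1, 0, 0] : Cn 4) +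
        ((v 1 - v 0) / 2) • (![-1, 1, 0, 0] : Cn 4) + v 2 • (![0, 0, 1, 0] : Cn 4) := by
      ext i
      fin_cases i
      · simp; ring
      · simp; ring
      · simp
      · simp
    show fderiv ℂ φ x v = 0
    rw [hv]
    simp only [map_add, map_smul, ht, hp, hm, hz, smul_zero, add_zero]

end Pool.Agent.Helper308.ZGP
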